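import Pool.Agent.V7H82.QI.Compile

/-!
# Blocks of times
-/

set_option autoImplicit false

namespace Pool.Agent.V7H82.QI

/-- On the block of the times `w L, …, (w + 1) L - 1` the function `Y` is `1` exactly once if `v`
is true, and never if `v` is false. -/
def Blk (Y : ℕ → ZMod 2) (L w : ℕ) (v : Bool) : Prop :=
  ∃ t₀, w * L ≤ t₀ ∧ t₀ < (w + 1) * L ∧
    ∀ t, w * L ≤ t → t < (w + 1) * L → Y t = if v = true ∧ t = t₀ then 1 else 0

/-- The prefix sums on a block. -/
theorem sum_blk {Y : ℕ → ZMod 2} {L w t₀ : ℕ} {v : Bool} (h1 : w * L ≤ t₀)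
    (h : ∀ t, w * L ≤ t → t < (w + 1) * L → Y t = if v = true ∧ t = t₀ then 1 else 0) (t : ℕ)
    (ht : w * L ≤ t) (ht' : t ≤ (w + 1) * L) :
    ∑ s ∈ Finset.range t, Y s =
      ∑ s ∈ Finset.range (w * L), Y s + if v = true ∧ t₀ < t then 1 else 0 := by
  induction t, ht using Nat.le_induction with
  | base =>
    rw [if_neg (by omega), add_zero]
  | succ t ht ih =>
    rw [Finset.sum_range_succ, ih (by omega), h t ht (by omega), add_assoc]
    congr 1
    by_cases hv : v = true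
    · rcases lt_trichotomy t t₀ with h2 | h2 | h2
      · rw [if_neg (by omega), if_neg (by omega), if_neg (by omega), add_zero]
      · rw [if_neg (by omega), if_pos ⟨hv, h2⟩, if_pos ⟨hv, by omega⟩, zero_add]
      · rw [if_pos ⟨hv, h2⟩, if_neg (by omega), if_pos ⟨hv, by omega⟩, add_zero]
    · simp [hv]

theorem sum_blk_end {Y : ℕ → ZMod 2} {L w : ℕ} {v : Bool} (h : Blk Y L w v) :
    ∑ s ∈ Finset.range ((w + 1) * L), Y s =
      ∑ s ∈ Finset.range (w * L), Y s + if v = true then 1 else 0 := by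
  obtain ⟨t₀, h1, h2, h3⟩ := h
  rw [sum_blk h1 h3 _ (by nlinarith) le_rfl]
  congr 1
  by_cases hv : v = true
  · rw [if_pos ⟨hv, h2⟩, if_pos hv]
  · rw [if_neg (by tauto), if_neg hv]

theorem sum_four {Y : ℕ → ZMod 2} {L : ℕ} {V : ℕ → Bool} (h : ∀ w, Blk Y L w (V w))
    (h2 : ∀ w, V (4 * w + 2) = V (4 * w)) (h3 : ∀ w, V (4 * w + 3) = V (4 * w + 1)) (w : ℕ) :
    ∑ s ∈ Finset.range (4 * w * L), Y s = 0 := by
  induction w with
  | zero => simp
  | succ w ih =>
    rw [show 4 * (w + 1) * L = (4 * w + 3 + 1) * L by ring, sum_blk_end (h _),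
      show 4 * w + 3 = 4 * w + 2 + 1 by ring, sum_blk_end (h _),
      show 4 * w + 2 = 4 * w + 1 + 1 by ring, sum_blk_end (h _), sum_blk_end (h _), ih,
      show 4 * w + 1 + 1 = 4 * w + 2 by ring, show 4 * w + 2 + 1 = 4 * w + 3 by ring, h2, h3,
      zero_add]
    cases V (4 * w) <;> cases V (4 * w + 1) <;> simp
    · exact CharTwo.add_self_eq_zero _
    · exact CharTwo.add_self_eq_zero _
    · have := CharTwo.add_self_eq_zero (1 : ZMod 2)
      rw [this, zero_add, this]

/-- The two low bits of the block number of a time. -/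
theorem blk_cases {L w t : ℕ} (h1 : w * (4 * L) ≤ t) (h2 : t < (w + 1) * (4 * L)) :
    ∃ j < 4, (4 * w + j) * L ≤ t ∧ t < (4 * w + j + 1) * L := by
  have hL : 0 < L := by
    rcases Nat.eq_zero_or_pos L with h | h
    · subst h
      omega
    · exact h
  have hd := Nat.div_mul_le_self t L
  have hm := (Nat.div_lt_iff_lt_mul hL).1 (Nat.lt_succ_self (t / L))
  have h3 : 4 * w ≤ t / L := by
    rw [Nat.le_div_iff_mul_le hL]
    nlinarith
  have h4 : t / L < 4 * w + 4 := by
    rw [Nat.div_lt_iff_lt_mul hL]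
    nlinarith
  refine ⟨t / L - 4 * w, by omega, ?_, ?_⟩
  · rw [show 4 * w + (t / L - 4 * w) = t / L by omega]
    exact hd
  · rw [show 4 * w + (t / L - 4 * w) + 1 = t / L + 1 by omega]
    exact hm

/-- One quantifier. -/
theorem blk_step {Y Y' : ℕ → ZMod 2} {L : ℕ} {V : ℕ → Bool} (h : ∀ w, Blk Y L w (V w))
    (h2 : ∀ w, V (4 * w + 2) = V (4 * w)) (h3 : ∀ w, V (4 * w + 3) = V (4 * w + 1)) (q : Bool)
    (hY : ∀ w, ∀ j < 4, ∀ t, (4 * w + j) * L ≤ t → t < (4 * w + j + 1) * L → Y' t =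
      if j = 0 then (if q = true then 0 else Y t)
      else if j = 1 then (if q = true then Y t * ∑ s ∈ Finset.range t, Y s
        else Y t + Y t * ∑ s ∈ Finset.range t, Y s)
      else 0) (w : ℕ) :
    Blk Y' (4 * L) w (bif q then V (4 * w) && V (4 * w + 1) else V (4 * w) || V (4 * w + 1)) := by
  obtain ⟨a, ha1, ha2, ha3⟩ := h (4 * w)
  obtain ⟨b, hb1, hb2, hb3⟩ := h (4 * w + 1)
  have hz := sum_four h h2 h3 w
  have hX0 : ∑ s ∈ Finset.range ((4 * w + 1) * L), Y s = if V (4 * w) = true then 1 else 0 := by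
    rw [sum_blk_end (h _), hz, zero_add]
  have hX : ∀ t, (4 * w + 1) * L ≤ t → t < (4 * w + 1 + 1) * L →
      ∑ s ∈ Finset.range t, Y s = (if V (4 * w) = true then 1 else 0) +
        if V (4 * w + 1) = true ∧ b < t then 1 else 0 := by
    intro t h4 h5
    rw [sum_blk hb1 hb3 t h4 (by omega), hX0]
  have e0 : w * (4 * L) = 4 * w * L := by ring
  have e1 : (w + 1) * (4 * L) = (4 * w + 1 + 1 + 1 + 1) * L := by ring
  have m1 : 4 * w * L ≤ (4 * w + 1) * L := Nat.mul_le_mul_right _ (by omega)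
  have m2 : (4 * w + 1) * L ≤ (4 * w + 1 + 1) * L := Nat.mul_le_mul_right _ (by omega)
  have m3 : (4 * w + 1 + 1) * L ≤ (4 * w + 1 + 1 + 1) * L := Nat.mul_le_mul_right _ (by omega)
  have m4 : (4 * w + 1 + 1 + 1) * L ≤ (4 * w + 1 + 1 + 1 + 1) * L :=
    Nat.mul_le_mul_right _ (by omega)
  refine ⟨if V (4 * w) = true ∧ q = false then a else b, ?_, ?_, ?_⟩
  · split_ifs <;> omega
  · split_ifs <;> omega
  · intro t h4 h5
    obtain ⟨j, hj, h6, h7⟩ := blk_cases h4 h5
    rw [hY w j hj t h6 h7]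
    rcases (by omega : j = 0 ∨ j = 1 ∨ 2 ≤ j) with rfl | rfl | h8
    · rw [add_zero] at h6 h7
      rw [if_pos rfl, ha3 t h6 h7]
      have hb : t ≠ b := by omega
      cases q <;> cases V (4 * w) <;> cases V (4 * w + 1) <;> simp [hb]
    · rw [if_neg (by omega), if_pos rfl, hX t h6 h7, hb3 t h6 h7]
      have ha : t ≠ a := by omega
      by_cases hb : t = b
      · subst hb
        cases q <;> cases V (4 * w) <;> cases V (4 * w + 1) <;> simp [ha]
        exact CharTwo.add_self_eq_zero _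
      · cases q <;> cases V (4 * w) <;> cases V (4 * w + 1) <;> simp [ha, hb]
    · have m5 : (4 * w + 1 + 1) * L ≤ (4 * w + j) * L := Nat.mul_le_mul_right _ (by omega)
      have ha : t ≠ a := by omega
      have hb : t ≠ b := by omega
      rw [if_neg (by omega), if_neg (by omega)]
      cases q <;> cases V (4 * w) <;> cases V (4 * w + 1) <;> simp [ha, hb]

end Pool.Agent.V7H82.QI
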