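import Pool.Agent.V7H82.QI.Defs

/-!
# Programs with addition, multiplication and discrete integration, and their simulation by
quadratic triangular systems
-/

set_option autoImplicit false

namespace Pool.Agent.V7H82.QI

/-! ### The value of a program -/

/-- The program `g` assigns to the line `n` an operation and two operands: `0` the constant one,
`1` the sum, `2` the product, otherwise the discrete integral of the first operand. -/
noncomputable def ev (g : ℕ → ℕ × ℕ × ℕ) (n : ℕ) (t : ℕ) : ZMod 2 :=
  if (g n).1 = 0 then 1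
  else if (g n).1 = 1 then
    (if _h : (g n).2.1 < n then ev g (g n).2.1 t else 0) +
      (if _h : (g n).2.2 < n then ev g (g n).2.2 t else 0)
  else if (g n).1 = 2 then
    (if _h : (g n).2.1 < n then ev g (g n).2.1 t else 0) *
      (if _h : (g n).2.2 < n then ev g (g n).2.2 t else 0)
  else ∑ s ∈ Finset.range t, (if _h : (g n).2.1 < n then ev g (g n).2.1 s else 0)
termination_by n

/-- The operands of each line are earlier lines. -/
def Ok (g : ℕ → ℕ × ℕ × ℕ) (n : ℕ) : Prop :=
  (g n).1 ≠ 0 → (g n).2.1 < n ∧ (g n).2.2 < n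

variable {g : ℕ → ℕ × ℕ × ℕ} {n : ℕ}

theorem ev_one (h : (g n).1 = 0) (t : ℕ) : ev g n t = 1 := by
  rw [ev, if_pos h]

theorem ev_add (h : (g n).1 = 1) (ho : Ok g n) (t : ℕ) :
    ev g n t = ev g (g n).2.1 t + ev g (g n).2.2 t := by
  have h1 := ho (by omega)
  rw [ev, if_neg (by omega), if_pos h, dif_pos h1.1, dif_pos h1.2]

theorem ev_mul (h : (g n).1 = 2) (ho : Ok g n) (t : ℕ) :
    ev g n t = ev g (g n).2.1 t * ev g (g n).2.2 t := by
  have h1 := ho (by omega)
  rw [ev, if_neg (by omega), if_neg (by omega), if_pos h, dif_pos h1.1, dif_pos h1.2]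

theorem ev_int (h : 3 ≤ (g n).1) (ho : Ok g n) (t : ℕ) :
    ev g n t = ∑ s ∈ Finset.range t, ev g (g n).2.1 s := by
  have h1 := ho (by omega)
  rw [ev, if_neg (by omega), if_neg (by omega), if_neg (by omega)]
  refine Finset.sum_congr rfl fun s _ => ?_
  rw [dif_pos h1.1]

/-! ### Pulses -/

/-- Bitwise inclusion. -/
def sup (p k : ℕ) : Bool := p.bits.zipIdx.all fun a => !a.1 || k.bits.getD a.2 false

theorem bits_getD (k i : ℕ) : k.bits.getD i false = k.testBit i := by
  rw [Nat.testBit_eq_inth, List.getI_eq_getElem?_getD, List.getD_eq_getElem?_getD]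
  rfl

theorem sup_iff (p k : ℕ) : sup p k = true ↔ ∀ i, p.testBit i = true → k.testBit i = true := by
  unfold sup
  rw [List.all_eq_true]
  constructor
  · intro h i hi
    have h1 : p.bits.getD i false = true := by rw [bits_getD]; exact hi
    have h2 : i < p.bits.length := by
      by_contra h3
      rw [List.getD_eq_default _ _ (by omega)] at h1
      exact absurd h1 (by simp)
    have h3 : (p.bits[i], i) ∈ p.bits.zipIdx := by
      rw [List.mk_mem_zipIdx_iff_getElem?]
      exact List.getElem?_eq_getElem h2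
    have h4 := h _ h3
    have h5 : p.bits[i] = true := by
      rw [← h1, List.getD_eq_getElem _ _ h2]
    simp only [h5, Bool.not_true, Bool.false_or] at h4
    rw [← bits_getD]
    exact h4
  · rintro h ⟨b, i⟩ hi
    rw [List.mk_mem_zipIdx_iff_getElem?] at hi
    cases b with
    | false => rfl
    | true =>
      have h1 : p.testBit i = true := by
        rw [← bits_getD, List.getD_eq_getElem?_getD, hi]
        rfl
      simp only [Bool.not_true, Bool.false_or]
      rw [bits_getD]
      exact h i h1

theorem sup_zero (k : ℕ) : sup 0 k = true := by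
  rw [sup_iff]
  intro i hi
  simp at hi

theorem sup_succ (p k b : ℕ) (hb : b < 2) :
    sup p (2 * k + b) = (sup (p / 2) k && decide (p % 2 ≤ b)) := by
  rw [Bool.eq_iff_iff, Bool.and_eq_true, sup_iff, sup_iff, decide_eq_true_eq]
  constructor
  · intro h
    refine ⟨fun i hi => ?_, ?_⟩
    · have h1 := h (i + 1) (by rw [Nat.testBit_succ]; exact hi)
      rw [Nat.testBit_succ] at h1
      rwa [show (2 * k + b) / 2 = k by omega] at h1
    · have h1 := h 0
      simp only [Nat.testBit_zero, decide_eq_true_eq] at h1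
      omega
  · rintro ⟨h1, h2⟩ i hi
    cases i with
    | zero =>
      simp only [Nat.testBit_zero, decide_eq_true_eq] at hi ⊢
      omega
    | succ i =>
      rw [Nat.testBit_succ] at hi ⊢
      rw [show (2 * k + b) / 2 = k by omega]
      exact h1 i hi

theorem sum_range_double (h : ℕ → ZMod 2) (n : ℕ) :
    ∑ k ∈ Finset.range (2 * n), h k = ∑ k ∈ Finset.range n, (h (2 * k) + h (2 * k + 1)) := by
  induction n with
  | zero => simp
  | succ n ih =>
    rw [show 2 * (n + 1) = 2 * n + 1 + 1 by ring, Finset.sum_range_succ, Finset.sum_range_succ, ih,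
      Finset.sum_range_succ]
    ring

theorem choose_two (s k b : ℕ) (hb : b < 2) :
    ((Nat.choose s (2 * k + b) : ℕ) : ZMod 2) =
      (Nat.choose (s / 2) k : ℕ) * (Nat.choose (s % 2) b : ℕ) := by
  have : Fact (Nat.Prime 2) := ⟨Nat.prime_two⟩
  have h := Choose.choose_modEq_choose_mod_mul_choose_div_nat (n := s) (k := 2 * k + b) (p := 2)
  rw [show (2 * k + b) % 2 = b by omega, show (2 * k + b) / 2 = k by omega] at h
  have h1 := (ZMod.natCast_eq_natCast_iff _ _ _).2 h
  rw [h1]
  push_cast
  ring

theorem pulse_sum (r : ℕ) : ∀ p < 2 ^ r, ∀ s, ∑ k ∈ Finset.range (2 ^ r),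
    (if sup p k = true then ((Nat.choose s k : ℕ) : ZMod 2) else 0) =
      if s % 2 ^ r = p then 1 else 0 := by
  induction r with
  | zero =>
    intro p hp s
    have hp0 : p = 0 := by simpa using hp
    subst hp0
    simp [sup_zero, Nat.mod_one]
  | succ r ih =>
    intro p hp s
    rw [pow_succ, mul_comm, sum_range_double]
    have h1 : ∀ k ∈ Finset.range (2 ^ r),
        ((if sup p (2 * k) = true then ((Nat.choose s (2 * k) : ℕ) : ZMod 2) else 0) +
          (if sup p (2 * k + 1) = true then ((Nat.choose s (2 * k + 1) : ℕ) : ZMod 2) else 0)) =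
        (if sup (p / 2) k = true then ((Nat.choose (s / 2) k : ℕ) : ZMod 2) else 0) *
          (if s % 2 = p % 2 then 1 else 0) := by
      intro k _
      have e0 := sup_succ p k 0 (by omega)
      have e1 := sup_succ p k 1 (by omega)
      have c0 := choose_two s k 0 (by omega)
      have c1 := choose_two s k 1 (by omega)
      rw [add_zero] at e0 c0
      rw [e0, e1, c0, c1]
      have hp2 : p % 2 = 0 ∨ p % 2 = 1 := by omega
      have hs2 : s % 2 = 0 ∨ s % 2 = 1 := by omega
      cases hk : sup (p / 2) k
      · simp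
      · rcases hp2 with h2 | h2 <;> rcases hs2 with h3 | h3 <;> rw [h2, h3] <;> simp
        exact CharTwo.add_self_eq_zero _
    rw [Finset.sum_congr rfl h1, ← Finset.sum_mul, ih (p / 2) (by
      rw [pow_succ] at hp
      omega)]
    have h2 : (s % (2 * 2 ^ r) = p) ↔ (s / 2 % 2 ^ r = p / 2 ∧ s % 2 = p % 2) := by
      have h3 : s % (2 * 2 ^ r) = 2 * (s / 2 % 2 ^ r) + s % 2 := by
        rw [Nat.mod_mul]
        ring
      rw [h3]
      omega
    by_cases h4 : s / 2 % 2 ^ r = p / 2 <;> by_cases h5 : s % 2 = p % 2 <;> simp [h2, h4, h5]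

end Pool.Agent.V7H82.QI
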