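import Pool.Agent.H623R2.PS.Defs
import Pool.Agent.NPC.Classes

/-!
# Iteration of quadratic triangular maps over the field with two elements: definitions
-/

set_option autoImplicit false

namespace Pool.Agent.V7H82.QI

/-- A finite list of triples of natural numbers (written in binary). The triple `(i, j, k)` stands
for the monomial `x_j x_k` in the polynomial `q_i`. -/
abbrev Sys := List (ℕ × ℕ × ℕ)

/-- The polynomial `q_i(x) = ∑ x_j x_k` over `F_2`, the sum over the triples `(i, j, k)` of `S`. -/
def quad (S : Sys) (i : ℕ) (x : ℕ → ZMod 2) : ZMod 2 :=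
  (S.map fun p => if p.1 = i then x p.2.1 * x p.2.2 else 0).sum

/-- The map `x_i ↦ x_i + q_i(x)`. -/
def step (S : Sys) (x : ℕ → ZMod 2) : ℕ → ZMod 2 := fun i => x i + quad S i x

/-- The system is triangular: `q_i` depends on the variables below `x_i` only. So `q_0 = 0` and
`x_0` never changes. -/
def Triangular (S : Sys) : Prop := ∀ p ∈ S, p.2.1 < p.1 ∧ p.2.2 < p.1

/-- The point with `x_0 = 1` and with `x_i = 1` for the indices `i` of the list, and all other
coordinates `0`. -/
def start (l : List ℕ) : ℕ → ZMod 2 := fun i => if i = 0 ∨ i ∈ l then 1 else 0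

/-- Instances: the system `S`, the start `l`, the time `t` and the index `i`, the numbers written
in binary. -/
abbrev QInst := Sys × List ℕ × ℕ × ℕ

/-- The iteration problem: `S` is triangular, and after `t` steps from the point `start l` the
coordinate `i` is `1`. -/
def QIter (I : QInst) : Prop :=
  Triangular I.1 ∧ (step I.1)^[I.2.2.1] (start I.2.1) I.2.2.2 = 1

end Pool.Agent.V7H82.QI
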