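import Pool.Agent.V7H82.QI.Prog

/-!
# The quantifiers
-/

set_option autoImplicit false

namespace Pool.Agent.V7H82.QI

open Pool.Agent.H656R2.AK Pool.Agent.H623R2.PS

theorem asg_succ (k w j : ℕ) (hj : j < 4) :
    asg (k + 1) (4 * w + j) = asg k w ++ [decide (j % 2 = 1)] := by
  unfold asg
  rw [List.range_succ, List.map_append]
  congr 1
  · refine List.map_congr_left fun v hv => ?_
    have hv := List.mem_range.1 hv
    rw [show 2 * (k + 1 - 1 - v) = 2 * (k - 1 - v) + 1 + 1 by omega, Nat.testBit_succ,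
      Nat.testBit_succ, show (4 * w + j) / 2 / 2 = w by omega]
  · simp only [List.map_cons, List.map_nil]
    rw [show 2 * (k + 1 - 1 - k) = 0 by omega, Nat.testBit_zero,
      show (4 * w + j) % 2 = j % 2 by omega]

section Lev

variable (Q : QF)

/-- The value of the subformula of the level `l` for the outer variables given by `w`. -/
def Vl (l w : ℕ) : Bool :=
  evq (Q.1.drop (Q.1.length - l)) fun u => evc (asg (Q.1.length - l) w ++ u) Q.2

theorem Vl_succ {l : ℕ} (hl : l < Q.1.length) (w : ℕ) : Vl Q (l + 1) w =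
    bif Q.1.getD (Q.1.length - 1 - l) false then Vl Q l (4 * w) && Vl Q l (4 * w + 1)
      else Vl Q l (4 * w) || Vl Q l (4 * w + 1) := by
  unfold Vl
  have e : Q.1.length - l = (Q.1.length - (l + 1)) + 1 := by omega
  have a0 := asg_succ (Q.1.length - (l + 1)) w 0 (by omega)
  have a1 := asg_succ (Q.1.length - (l + 1)) w 1 (by omega)
  rw [add_zero] at a0
  rw [e, a0, a1, List.drop_eq_getElem_cons (i := Q.1.length - (l + 1)) (by omega), evq,
    List.getD_eq_getElem _ _ (by omega)]
  simp only [List.append_assoc, List.cons_append, List.nil_append,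
    show Q.1.length - 1 - l = Q.1.length - (l + 1) by omega]
  rfl

theorem Vl_two {l : ℕ} (hl : l < Q.1.length) (w : ℕ) : Vl Q l (4 * w + 2) = Vl Q l (4 * w) := by
  unfold Vl
  have e : Q.1.length - l = (Q.1.length - (l + 1)) + 1 := by omega
  have a0 := asg_succ (Q.1.length - (l + 1)) w 0 (by omega)
  have a1 := asg_succ (Q.1.length - (l + 1)) w 2 (by omega)
  rw [add_zero] at a0
  rw [e, a0, a1]

theorem Vl_three {l : ℕ} (hl : l < Q.1.length) (w : ℕ) :
    Vl Q l (4 * w + 3) = Vl Q l (4 * w + 1) := by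
  unfold Vl
  have e : Q.1.length - l = (Q.1.length - (l + 1)) + 1 := by omega
  rw [e, asg_succ (Q.1.length - (l + 1)) w 1 (by omega),
    asg_succ (Q.1.length - (l + 1)) w 3 (by omega)]

/-- The value of the level `l`. -/
noncomputable def Yl (l t : ℕ) : ZMod 2 := ev (prog Q) (b1 Q + 6 * l - 1) t

theorem ev_X {l : ℕ} (hl : l ≤ Q.1.length) (t : ℕ) :
    ev (prog Q) (b1 Q + 6 * l) t = ∑ s ∈ Finset.range t, Yl Q l s := by
  have hnl : numLines Q = b1 Q + 6 * Q.1.length + 1 := rfl
  have p0 := prog_lev Q (l := l) (o := 0) (by omega)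
  rw [add_zero] at p0
  have q0 : prog Q (b1 Q + 6 * l) = (3, b1 Q + 6 * l - 1, 0) := by
    rw [p0]
    simp [levLine]
  rw [ev_int (by rw [q0]) (prog_ok Q _ (by omega)), q0]
  rfl

/-- one level -/
theorem Yl_succ {l : ℕ} (hl : l < Q.1.length) (t : ℕ) : Yl Q (l + 1) t =
    if Q.1.getD (Q.1.length - 1 - l) false = true then
      Yl Q l t * (if t.testBit (2 * l + 1) = true then 0 else 1) *
        (if t.testBit (2 * l) = true then 1 else 0) * ∑ s ∈ Finset.range t, Yl Q l s
    else
      Yl Q l t * (if t.testBit (2 * l + 1) = true then 0 else 1) +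
      Yl Q l t * (if t.testBit (2 * l + 1) = true then 0 else 1) *
        (if t.testBit (2 * l) = true then 1 else 0) * ∑ s ∈ Finset.range t, Yl Q l s := by
  have hok := prog_ok Q
  have hb : b0 Q = 4 * Q.1.length + 4 := rfl
  have hb1 : b1 Q = b0 Q + 3 * (toks Q).length := rfl
  have hnl : numLines Q = b1 Q + 6 * Q.1.length + 1 := rfl
  have h1 : ev (prog Q) 0 t = 1 := ev_one (by rw [prog_zero]) t
  have t0 := ev_bit Q (i := 2 * l) (by omega) t
  have t1 := ev_bit Q (i := 2 * l + 1) (by omega) t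
  rw [show 2 * (2 * l) + 1 = 4 * l + 1 by ring] at t0
  rw [show 2 * (2 * l + 1) + 1 = 4 * l + 3 by ring] at t1
  have p1 := prog_lev Q (l := l) (o := 1) (by omega)
  have p2 := prog_lev Q (l := l) (o := 2) (by omega)
  have p3 := prog_lev Q (l := l) (o := 3) (by omega)
  have p4 := prog_lev Q (l := l) (o := 4) (by omega)
  have p5 := prog_lev Q (l := l) (o := 5) (by omega)
  have eX := ev_X Q (l := l) (by omega) t
  obtain ⟨B, hB⟩ : ∃ B, B = b1 Q + 6 * l := ⟨_, rfl⟩
  have hY : ev (prog Q) (B - 1) t = Yl Q l t := by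
    rw [hB]
    rfl
  have hY' : Yl Q (l + 1) t = ev (prog Q) (B + 5) t := by
    unfold Yl
    rw [show b1 Q + 6 * (l + 1) - 1 = B + 5 by omega]
  rw [← hB] at p1 p2 p3 p4 p5 eX
  rw [hY']
  have q1 : prog Q (B + 1) = (1, 4 * l + 3, 0) := by
    rw [p1]
    simp [levLine]
  have q2 : prog Q (B + 2) = (2, B - 1, B + 1) := by
    rw [p2]
    simp [levLine]
  have q3 : prog Q (B + 3) = (2, B + 2, 4 * l + 1) := by
    rw [p3]
    simp [levLine]
  have q4 : prog Q (B + 4) = (2, B + 3, B) := by
    rw [p4]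
    simp [levLine]
  have e1 : ev (prog Q) (B + 1) t = if t.testBit (2 * l + 1) = true then 0 else 1 := by
    rw [ev_add (by rw [q1]) (hok _ (by omega)), q1, t1, h1]
    split_ifs
    · exact CharTwo.add_self_eq_zero _
    · rw [zero_add]
  have e2 : ev (prog Q) (B + 2) t =
      Yl Q l t * if t.testBit (2 * l + 1) = true then 0 else 1 := by
    rw [ev_mul (by rw [q2]) (hok _ (by omega)), q2, hY, e1]
  have e3 : ev (prog Q) (B + 3) t =
      Yl Q l t * (if t.testBit (2 * l + 1) = true then 0 else 1) *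
        (if t.testBit (2 * l) = true then 1 else 0) := by
    rw [ev_mul (by rw [q3]) (hok _ (by omega)), q3, e2, t0]
  have e4 : ev (prog Q) (B + 4) t =
      Yl Q l t * (if t.testBit (2 * l + 1) = true then 0 else 1) *
        (if t.testBit (2 * l) = true then 1 else 0) * ∑ s ∈ Finset.range t, Yl Q l s := by
    rw [ev_mul (by rw [q4]) (hok _ (by omega)), q4, e3, eX]
  by_cases hq : Q.1.getD (Q.1.length - 1 - l) false = true
  · have q5 : prog Q (B + 5) = (2, B + 4, 0) := by
      rw [p5, hq]
      simp [levLine]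
    rw [if_pos hq, ev_mul (by rw [q5]) (hok _ (by omega)), q5, e4, h1, mul_one]
  · have q5 : prog Q (B + 5) = (1, B + 2, B + 4) := by
      rw [p5]
      unfold levLine
      rw [if_neg (by omega), if_neg (by omega), if_neg (by omega), if_neg (by omega),
        if_neg (by omega), if_neg hq]
    rw [if_neg hq, ev_add (by rw [q5]) (hok _ (by omega)), q5, e2, e4]

theorem Yl_blk (hwf : QFwf Q) : ∀ l ≤ Q.1.length, ∀ w, Blk (Yl Q l) (4 ^ l) w (Vl Q l w) := by
  intro l
  induction l with
  | zero =>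
    intro _ w
    refine ⟨w, by simp, by simp, ?_⟩
    intro t h1 h2
    have ht : t = w := by
      simp at h1 h2
      omega
    subst ht
    unfold Yl Vl
    rw [mul_zero, add_zero, ev_cnf Q hwf t, Nat.sub_zero, List.drop_length, evq, List.append_nil]
    unfold toZ
    by_cases h : evc (asg Q.1.length t) Q.2 = true
    · rw [if_pos h, if_pos ⟨h, rfl⟩]
    · rw [if_neg h, if_neg (by tauto)]
  | succ l ih =>
    intro hl w
    rw [Vl_succ Q (by omega), pow_succ, mul_comm (4 ^ l) 4]
    refine blk_step (ih (by omega)) (Vl_two Q (by omega)) (Vl_three Q (by omega)) _ ?_ w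
    intro w j hj t h1 h2
    have hd : t / 4 ^ l = 4 * w + j := by
      refine Nat.div_eq_of_lt_le h1 h2
    have h4 : (4 : ℕ) ^ l = 2 ^ (2 * l) := by
      rw [pow_mul]
      norm_num
    have b0 : t.testBit (2 * l) = decide (j % 2 = 1) := by
      rw [Nat.testBit_eq_decide_div_mod_eq, ← h4, hd, show (4 * w + j) % 2 = j % 2 by omega]
    have b1 : t.testBit (2 * l + 1) = decide (2 ≤ j) := by
      rw [Nat.testBit_eq_decide_div_mod_eq, pow_succ, ← h4, ← Nat.div_div_eq_div_mul, hd,
        decide_eq_decide]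
      omega
    rw [Yl_succ Q (by omega), b0, b1]
    generalize Q.1.getD (Q.1.length - 1 - l) false = q
    interval_cases j <;> cases q <;> simp

/-- The program computes the value of the quantified formula. -/
theorem ev_prog (hwf : QFwf Q) : ev (prog Q) (b1 Q + 6 * Q.1.length) (4 ^ Q.1.length) =
    if evq Q.1 (fun v => evc v Q.2) = true then 1 else 0 := by
  have h := sum_blk_end (Yl_blk Q hwf Q.1.length le_rfl 0)
  rw [zero_add, one_mul, zero_mul, Finset.sum_range_zero, zero_add] at h
  rw [ev_X Q le_rfl, h]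
  unfold Vl
  rw [Nat.sub_self, List.drop_zero]
  rfl

end Lev

end Pool.Agent.V7H82.QI
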