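import Pool.Agent.V7H82.QI.Defs
import Pool.Agent.H623R2.PS.Quant

/-!
# Membership in polynomial space
-/

set_option autoImplicit false

namespace Pool.Agent.V7H82.QI

open Pool.Agent.H623R2.PS Pool.Agent.NPC

/-- The point with the coordinates of the list equal to `1`. -/
def val (c : List ℕ) : ℕ → ZMod 2 := fun i => if i ∈ c then 1 else 0

/-- The coordinates that can be `1`. -/
def base (I : QInst) : List ℕ := 0 :: (I.2.1 ++ I.1.map fun p => p.1)

/-- The parity of the number of the monomials of `q_i` with value `1`. -/
def par (S : Sys) (c : List ℕ) (i : ℕ) : Bool :=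
  decide ((S.filter fun p => decide (p.1 = i) && (decide (p.2.1 ∈ c) &&
    decide (p.2.2 ∈ c))).length % 2 = 1)

/-- One step on lists. -/
def newc (I : QInst) (c : List ℕ) : List ℕ :=
  (base I).filter fun i => (decide (i ∈ c) ^^ par I.1 c i)

theorem par_eq (S : Sys) (c : List ℕ) (i : ℕ) :
    quad S i (val c) = if par S c i = true then 1 else 0 := by
  have key : quad S i (val c) = (((S.filter fun p => decide (p.1 = i) && (decide (p.2.1 ∈ c) &&
      decide (p.2.2 ∈ c))).length : ℕ) : ZMod 2) := by
    induction S with
    | nil => simp [quad]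
    | cons p S ih =>
      have h : quad (p :: S) i (val c) =
          (if p.1 = i then val c p.2.1 * val c p.2.2 else 0) + quad S i (val c) := by
        simp [quad]
      rw [h, ih, List.filter_cons]
      unfold val
      by_cases h1 : p.1 = i <;> by_cases h2 : p.2.1 ∈ c <;> by_cases h3 : p.2.2 ∈ c <;>
        simp [h1, h2, h3, add_comm]
  rw [key]
  unfold par
  generalize (S.filter fun p => decide (p.1 = i) && (decide (p.2.1 ∈ c) &&
      decide (p.2.2 ∈ c))).length = n
  rw [← ZMod.natCast_mod]
  rcases (by omega : n % 2 = 0 ∨ n % 2 = 1) with h | h <;> simp [h]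

theorem quad_zero {S : Sys} {i : ℕ} (h : ∀ p ∈ S, p.1 ≠ i) (x : ℕ → ZMod 2) :
    quad S i x = 0 := by
  induction S with
  | nil => simp [quad]
  | cons p S ih =>
    have h1 : quad (p :: S) i x = (if p.1 = i then x p.2.1 * x p.2.2 else 0) + quad S i x := by
      simp [quad]
    rw [h1, if_neg (h p (by simp)), ih fun q hq => h q (by simp [hq]), add_zero]

theorem step_val (I : QInst) (c : List ℕ) (hc : ∀ i ∈ c, i ∈ base I) :
    step I.1 (val c) = val (newc I c) := by
  funext i
  unfold step
  by_cases hi : i ∈ base I
  · rw [par_eq]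
    have h : i ∈ newc I c ↔ (decide (i ∈ c) ^^ par I.1 c i) = true := by
      unfold newc
      rw [List.mem_filter]
      exact ⟨fun h => h.2, fun h => ⟨hi, h⟩⟩
    unfold val
    by_cases h1 : i ∈ c <;> cases h2 : par I.1 c i
    · rw [if_pos h1, if_neg (by simp), if_pos (h.2 (by simp [h1, h2])), add_zero]
    · rw [if_pos h1, if_pos rfl, if_neg (fun h3 => by simpa [h1, h2] using h.1 h3)]
      exact CharTwo.add_self_eq_zero _
    · rw [if_neg h1, if_neg (by simp), if_neg (fun h3 => by simpa [h1, h2] using h.1 h3), add_zero]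
    · rw [if_neg h1, if_pos rfl, if_pos (h.2 (by simp [h1, h2])), zero_add]
  · have h1 : i ∉ c := fun h => hi (hc i h)
    have h2 : i ∉ newc I c := fun h => hi (List.mem_filter.1 h).1
    rw [quad_zero (i := i)]
    · unfold val
      rw [if_neg h1, if_neg h2, add_zero]
    · intro p hp hpi
      apply hi
      unfold base
      simp only [List.mem_cons, List.mem_append, List.mem_map]
      exact Or.inr (Or.inr ⟨p, hp, hpi⟩)

/-- The list after `t` steps. -/
def lst (I : QInst) (t : ℕ) : List ℕ := (newc I)^[t] (0 :: I.2.1)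

theorem lst_sub (I : QInst) (t : ℕ) : ∀ i ∈ lst I t, i ∈ base I := by
  cases t with
  | zero =>
    intro i hi
    unfold lst at hi
    rw [Function.iterate_zero, id_eq] at hi
    unfold base
    simp only [List.mem_cons, List.mem_append] at hi ⊢
    tauto
  | succ t =>
    intro i hi
    unfold lst at hi
    rw [Function.iterate_succ_apply'] at hi
    exact (List.mem_filter.1 hi).1

theorem iter_lst (I : QInst) (t : ℕ) : (step I.1)^[t] (start I.2.1) = val (lst I t) := by
  induction t with
  | zero =>
    funext i
    unfold start val lst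
    rw [Function.iterate_zero, Function.iterate_zero, id_eq, id_eq]
    simp
  | succ t ih =>
    rw [Function.iterate_succ_apply', ih, step_val I _ (lst_sub I t)]
    congr 1
    unfold lst
    rw [Function.iterate_succ_apply']

/-- The test for triangularity. -/
def tri (S : Sys) : Bool := S.all fun p => decide (p.2.1 < p.1) && decide (p.2.2 < p.1)

theorem tri_iff (S : Sys) : tri S = true ↔ Triangular S := by
  simp [tri, Triangular]

/-- One step of the machine. -/
def pstep (b : QInst × List ℕ × ℕ) : Bool × (QInst × List ℕ × ℕ) :=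
  (decide (b.2.2 = 0), if b.2.2 = 0 then b else (b.1, newc b.1 b.2.1, b.2.2 - 1))

theorem pstep_iter (I : QInst) (s : ℕ) : ∀ k ≤ s,
    (fun b => (pstep b).2)^[k] (I, 0 :: I.2.1, s) = (I, lst I k, s - k) := by
  intro k
  induction k with
  | zero => intro _; rfl
  | succ k ih =>
    intro hk
    rw [Function.iterate_succ_apply', ih (by omega)]
    simp only [pstep]
    rw [if_neg (by omega)]
    unfold lst
    rw [Function.iterate_succ_apply', Nat.sub_sub]

/-- the answer -/
def outb (b : QInst × List ℕ × ℕ) : Bool := tri b.1.1 && decide (b.1.2.2.2 ∈ b.2.1)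

theorem poly_newc : NPC.Poly (fun p : QInst × List ℕ => newc p.1 p.2) := by
  unfold newc base par
  fun_prop

theorem poly_pstep : NPC.Poly pstep := by
  have h : NPC.Poly (fun b : QInst × List ℕ × ℕ => newc b.1 b.2.1) :=
    poly_newc.comp (f := fun b : QInst × List ℕ × ℕ => (b.1, b.2.1)) (by fun_prop)
  have h1 : NPC.Poly (fun b : QInst × List ℕ × ℕ => (decide (b.2.2 = 0),
      if b.2.2 = 0 then b else (b.1, newc b.1 b.2.1, b.2.2 - 1))) := by
    fun_prop
  exact h1

theorem poly_outb : NPC.Poly outb := by
  have h1 : NPC.Poly (fun b : QInst × List ℕ × ℕ =>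
      (b.1.1.all fun p => decide (p.2.1 < p.1) && decide (p.2.2 < p.1)) &&
        decide (b.1.2.2.2 ∈ b.2.1)) := by
    fun_prop
  exact h1

theorem sz_filter_le' {α : Type} [TEnc α] (l : List α) (p : α → Bool) :
    sz (l.filter p) ≤ sz l := by
  induction l with
  | nil => simp
  | cons a l ih =>
    rw [List.filter_cons]
    split_ifs
    · rw [sz_list_cons, sz_list_cons]
      omega
    · rw [sz_list_cons]
      omega

theorem sz_map_fst (S : Sys) : sz (S.map fun p => p.1) ≤ sz S := by
  induction S with
  | nil => simp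
  | cons p S ih =>
    obtain ⟨i, j, k⟩ := p
    rw [List.map_cons, sz_list_cons, sz_list_cons, sz_pair]
    simp only
    omega

theorem sz_base (I : QInst) : sz (base I) ≤ sz I + sz I + 3 := by
  obtain ⟨S, l, t, i⟩ := I
  have h1 := sz_append l (S.map fun p => p.1)
  have h2 := sz_map_fst S
  have h0 : sz (0 : ℕ) = 1 := by
    rw [sz_nat]
    simp
  unfold base
  rw [sz_list_cons]
  simp only [sz_pair]
  omega

/-- Iteration problems are in `PSPACE`. -/
theorem mem_of {L : Set (List Bool)} {J : List Bool → QInst} (hI : NPC.Poly J)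
    (hmem : ∀ x, x ∈ L ↔ QIter (J x)) : InPSPACE L := by
  have hsz : ∀ x : List Bool, sz x ≤ 4 * x.length + 1 := fun x => sz_listBool_le x
  obtain ⟨r, hr'⟩ := hI.sz_le
  refine inPSPACE_of_process (β := QInst × List ℕ × ℕ)
    (init := fun x => (J x, 0 :: (J x).2.1, (J x).2.2.1)) (by fun_prop) poly_pstep poly_outb
    ((r + 2 * r + 2 * r + 20).comp (4 * Polynomial.X + 1)) (fun x => (J x).2.2.1) ?_ ?_ ?_ ?_
  · intro x i hi
    rw [pstep_iter _ _ _ hi.le]
    simp only [pstep]
    rw [decide_eq_false_iff_not]
    omega
  · intro x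
    rw [pstep_iter _ _ _ le_rfl]
    simp only [pstep]
    rw [decide_eq_true_eq]
    omega
  · intro x k _
    have hc : ∀ k ≤ (J x).2.2.1, sz (J x, lst (J x) k, (J x).2.2.1 - k) ≤
        sz (J x) + 2 * sz (J x) + 2 * sz (J x) + 5 := by
      intro k _
      have e1 : sz (J x, lst (J x) k, (J x).2.2.1 - k) =
          sz (J x) + sz (lst (J x) k, (J x).2.2.1 - k) + 1 := sz_pair _ _
      have e2 : sz (lst (J x) k, (J x).2.2.1 - k) =
          sz (lst (J x) k) + sz ((J x).2.2.1 - k) + 1 := sz_pair _ _
      have h1 : sz (lst (J x) k) ≤ sz (J x) + sz (J x) + 3 := by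
        cases k with
        | zero =>
          unfold lst
          rw [Function.iterate_zero, id_eq]
          have h0 : sz (0 : ℕ) = 1 := by
            rw [sz_nat]
            simp
          generalize J x = I
          obtain ⟨S, l, t, i⟩ := I
          rw [sz_list_cons]
          simp only [sz_pair]
          omega
        | succ k =>
          unfold lst
          rw [Function.iterate_succ_apply']
          exact (sz_filter_le' _ _).trans (sz_base _)
      have h2 : sz ((J x).2.2.1 - k) ≤ 2 * sz (J x).2.2.1 := sz_nat_mono_le (Nat.sub_le _ _)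
      have h3 : sz (J x).2.2.1 + 1 ≤ sz (J x) := by
        generalize J x = I
        obtain ⟨S, l, t, i⟩ := I
        simp only [sz_pair]
        omega
      omega
    have hb : sz ((fun b => (pstep b).2)^[k] (J x, 0 :: (J x).2.1, (J x).2.2.1)) ≤
        sz (J x) + 2 * sz (J x) + 2 * sz (J x) + 5 := by
      by_cases hk : k ≤ (J x).2.2.1
      · rw [pstep_iter _ _ _ hk]
        exact hc k hk
      · have hfix : ∀ m, (fun b => (pstep b).2)^[m] (J x, lst (J x) (J x).2.2.1, 0) =
            (J x, lst (J x) (J x).2.2.1, 0) := by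
          intro m
          induction m with
          | zero => rfl
          | succ m ih => rw [Function.iterate_succ_apply', ih]; rfl
        have h4 := pstep_iter (J x) (J x).2.2.1 (J x).2.2.1 le_rfl
        rw [Nat.sub_self] at h4
        rw [show k = (k - (J x).2.2.1) + (J x).2.2.1 by omega, Function.iterate_add_apply, h4, hfix]
        have := hc _ le_rfl
        rw [Nat.sub_self] at this
        exact this
    have h5 := hr' x
    have h6 : r.eval (sz x) ≤ r.eval (4 * x.length + 1) := eval_mono r (hsz x)
    simp only [Polynomial.eval_add, Polynomial.eval_mul, Polynomial.eval_X, Polynomial.eval_ofNat,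
      Polynomial.eval_comp, Polynomial.eval_one]
    omega
  · intro x
    rw [hmem, Function.iterate_succ_apply', pstep_iter _ _ _ le_rfl, Nat.sub_self]
    have h7 : (pstep (J x, lst (J x) (J x).2.2.1, 0)).2 = (J x, lst (J x) (J x).2.2.1, 0) := rfl
    rw [h7]
    unfold outb QIter
    rw [Bool.and_eq_true, tri_iff, decide_eq_true_eq, iter_lst]
    unfold val
    simp

/-- The iteration problem is in `PSPACE`. -/
theorem qiter_mem : InPSPACE (lang QIter) := by
  have hI : NPC.Poly (fun x : List Bool => (unbits QInst x).getD ([(0, 0, 0)], [], 0, 0)) :=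
    NPC.Poly.optGetD poly_unbits (NPC.Poly.const _)
  refine mem_of hI fun x => ?_
  rw [mem_lang_iff]
  cases hx : unbits QInst x with
  | none =>
    simp only [reduceCtorEq, false_and, exists_false, Option.getD_none, false_iff]
    intro h
    have := h.1 (0, 0, 0) (by simp)
    simp at this
  | some a => simp

end Pool.Agent.V7H82.QI
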