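import Pool.Agent.V7H82.QI.Compile
import Pool.Agent.V7H82.QI.Member

/-!
# Degree one: the iteration problem is in `P`
-/

set_option autoImplicit false

namespace Pool.Agent.V7H82.QI

open Pool.Agent.H623R2.PS Pool.Agent.NPC

/-- Binomial coefficients modulo two. -/
theorem choose_sup (k : ℕ) : ∀ s : ℕ, ((Nat.choose s k : ℕ) : ZMod 2) =
    if sup k s = true then 1 else 0 := by
  induction k using Nat.strong_induction_on with
  | _ k ih =>
    intro s
    rcases Nat.eq_zero_or_pos k with h | h
    · subst h
      rw [sup_zero, Nat.choose_zero_right]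
      simp
    · have h1 := choose_two s (k / 2) (k % 2) (Nat.mod_lt _ (by omega))
      have h2 := sup_succ k (s / 2) (s % 2) (Nat.mod_lt _ (by omega))
      rw [Nat.div_add_mod] at h1 h2
      rw [h1, h2, ih (k / 2) (by omega)]
      rcases (by omega : k % 2 = 0 ∨ k % 2 = 1) with h3 | h3 <;>
        rcases (by omega : s % 2 = 0 ∨ s % 2 = 1) with h4 | h4 <;>
        rw [h3, h4] <;> cases sup (k / 2) (s / 2) <;> simp

/-- The linear map of a system. -/
def lin (S : Sys) (x : ℕ → ZMod 2) : ℕ → ZMod 2 := fun i =>
  (S.map fun p => if p.1 = i then x p.2.1 else 0).sum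

theorem lin_cons (p : ℕ × ℕ × ℕ) (S : Sys) (x : ℕ → ZMod 2) (i : ℕ) :
    lin (p :: S) x i = (if p.1 = i then x p.2.1 else 0) + lin S x i := by
  simp [lin]

theorem lin_sum {ι : Type} (S : Sys) (s : Finset ι) (c : ι → ZMod 2) (z : ι → ℕ → ZMod 2)
    (i : ℕ) : lin S (fun j => ∑ k ∈ s, c k * z k j) i = ∑ k ∈ s, c k * lin S (z k) i := by
  induction S with
  | nil => simp [lin]
  | cons p S ih =>
    rw [lin_cons, ih]
    simp only [lin_cons, mul_add, Finset.sum_add_distrib]
    congr 1
    by_cases h : p.1 = i
    · simp [h]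
    · simp [h]

/-- The number of the distinct targets up to `i`. -/
def cnt (S : Sys) (i : ℕ) : ℕ := ((S.map fun p => p.1).toFinset.filter fun j => j ≤ i).card

theorem cnt_le (S : Sys) (i : ℕ) : cnt S i ≤ S.length := by
  unfold cnt
  refine (Finset.card_filter_le _ _).trans ?_
  have := List.toFinset_card_le (S.map fun p => p.1)
  rwa [List.length_map] at this

theorem lin_nil {S : Sys} (hS : Triangular S) (x : ℕ → ZMod 2) (k : ℕ) :
    ∀ i, cnt S i < k → (lin S)^[k] x i = 0 := by
  induction k with
  | zero => intro i hi; omega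
  | succ k ih =>
    intro i hi
    rw [Function.iterate_succ_apply']
    unfold lin
    refine List.sum_eq_zero fun y hy => ?_
    obtain ⟨p, hp, rfl⟩ := List.mem_map.1 hy
    by_cases h : p.1 = i
    · rw [if_pos h]
      refine ih _ ?_
      have h1 := (hS p hp).1
      have h2 : cnt S p.2.1 < cnt S i := by
        unfold cnt
        refine Finset.card_lt_card ⟨?_, ?_⟩
        · intro j hj
          rw [Finset.mem_filter] at hj ⊢
          exact ⟨hj.1, by omega⟩
        · intro h3
          have h4 : i ∈ (S.map fun p => p.1).toFinset.filter fun j => j ≤ i := by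
            rw [Finset.mem_filter, List.mem_toFinset, List.mem_map]
            exact ⟨⟨p, hp, h⟩, le_rfl⟩
          have h5 := h3 h4
          rw [Finset.mem_filter] at h5
          omega
      omega
    · rw [if_neg h]

theorem quad_lin {S : Sys} (hS : ∀ p ∈ S, p.2.2 = 0) {x : ℕ → ZMod 2} (hx : x 0 = 1) (i : ℕ) :
    quad S i x = lin S x i := by
  unfold quad lin
  congr 1
  refine List.map_congr_left fun p hp => ?_
  rw [hS p hp, hx, mul_one]

theorem iter_zero {S : Sys} (hS : Triangular S) {x : ℕ → ZMod 2} (hx : x 0 = 1) (t : ℕ) :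
    (step S)^[t] x 0 = 1 := by
  induction t with
  | zero => exact hx
  | succ t ih =>
    rw [Function.iterate_succ_apply']
    change (step S)^[t] x 0 + quad S 0 ((step S)^[t] x) = 1
    rw [ih, quad_zero, add_zero]
    intro p hp h
    have := hS p hp
    omega

/-- The iterates of an affine triangular map. -/
theorem iter_lin {S : Sys} (hS : Triangular S) (hl : ∀ p ∈ S, p.2.2 = 0) {x : ℕ → ZMod 2}
    (hx : x 0 = 1) (t : ℕ) : ∀ i, (step S)^[t] x i =
      ∑ k ∈ Finset.range (S.length + 1), ((Nat.choose t k : ℕ) : ZMod 2) * (lin S)^[k] x i := by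
  induction t with
  | zero =>
    intro i
    rw [Finset.sum_range_succ', Finset.sum_eq_zero]
    · simp
    · intro k _
      rw [Nat.choose_zero_succ]
      simp
  | succ t ih =>
    intro i
    rw [Function.iterate_succ_apply']
    change (step S)^[t] x i + quad S i ((step S)^[t] x) = _
    rw [quad_lin hl (iter_zero hS hx t)]
    have h1 : (step S)^[t] x = fun j => ∑ k ∈ Finset.range (S.length + 1),
        ((Nat.choose t k : ℕ) : ZMod 2) * (lin S)^[k] x j := funext ih
    rw [ih, h1, lin_sum]
    have h2 : ∀ k, lin S ((lin S)^[k] x) i = (lin S)^[k + 1] x i := by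
      intro k
      rw [Function.iterate_succ_apply']
    simp only [h2]
    rw [Finset.sum_range_succ _ S.length, Finset.sum_range_succ _ S.length,
      lin_nil hS x (S.length + 1) i (by have := cnt_le S i; omega), mul_zero, add_zero,
      ← Finset.sum_range_succ, Finset.sum_range_succ', Finset.sum_range_succ']
    simp only [Nat.choose_succ_succ, Nat.cast_add, add_mul, Finset.sum_add_distrib,
      Nat.choose_zero_right]
    ring

/-- The parity for a linear system. -/
def parL (S : Sys) (c : List ℕ) (i : ℕ) : Bool :=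
  decide ((S.filter fun p => decide (p.1 = i) && decide (p.2.1 ∈ c)).length % 2 = 1)

/-- One application of the linear map, on lists. -/
def newL (I : QInst) (c : List ℕ) : List ℕ := (base I).filter fun i => parL I.1 c i

theorem parL_eq (S : Sys) (c : List ℕ) (i : ℕ) :
    lin S (val c) i = if parL S c i = true then 1 else 0 := by
  have key : lin S (val c) i = (((S.filter fun p => decide (p.1 = i) &&
      decide (p.2.1 ∈ c)).length : ℕ) : ZMod 2) := by
    induction S with
    | nil => simp [lin]
    | cons p S ih =>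
      rw [lin_cons, ih, List.filter_cons]
      unfold val
      by_cases h1 : p.1 = i <;> by_cases h2 : p.2.1 ∈ c <;> simp [h1, h2, add_comm]
  rw [key]
  unfold parL
  generalize (S.filter fun p => decide (p.1 = i) && decide (p.2.1 ∈ c)).length = n
  rw [← ZMod.natCast_mod]
  rcases (by omega : n % 2 = 0 ∨ n % 2 = 1) with h | h <;> simp [h]

theorem lin_val (I : QInst) (c : List ℕ) : lin I.1 (val c) = val (newL I c) := by
  funext i
  rw [parL_eq]
  unfold val newL
  by_cases hi : i ∈ base I
  · simp [hi]
  · have h2 : parL I.1 c i = false := by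
      unfold parL
      rw [List.filter_eq_nil_iff.2]
      · simp
      · intro p hp
        have : p.1 ≠ i := by
          intro h
          apply hi
          unfold base
          simp only [List.mem_cons, List.mem_append, List.mem_map]
          exact Or.inr (Or.inr ⟨p, hp, h⟩)
        simp [this]
    simp [hi, h2]

/-- The algorithm: the number of steps, the current power, and the result so far. -/
def lstep (I : QInst) (b : ℕ × List ℕ × Bool) : ℕ × List ℕ × Bool :=
  (b.1 + 1, newL I b.2.1, (b.2.2 ^^ (sup b.1 I.2.2.1 && decide (I.2.2.2 ∈ b.2.1))))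

theorem lstep_iter (I : QInst) (k : ℕ) :
    ((lstep I)^[k] (0, 0 :: I.2.1, false)).1 = k ∧
    val ((lstep I)^[k] (0, 0 :: I.2.1, false)).2.1 = (lin I.1)^[k] (start I.2.1) ∧
    (if ((lstep I)^[k] (0, 0 :: I.2.1, false)).2.2 = true then (1 : ZMod 2) else 0) =
      ∑ j ∈ Finset.range k, ((Nat.choose I.2.2.1 j : ℕ) : ZMod 2) *
        (lin I.1)^[j] (start I.2.1) I.2.2.2 := by
  induction k with
  | zero =>
    refine ⟨rfl, ?_, by simp⟩
    funext i
    unfold val start
    simp
  | succ k ih =>
    obtain ⟨h1, h2, h3⟩ := ih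
    rw [Function.iterate_succ_apply', Function.iterate_succ_apply', Finset.sum_range_succ, ← h3]
    generalize (lstep I)^[k] (0, 0 :: I.2.1, false) = b at h1 h2
    rw [← h2]
    obtain ⟨k', c, r⟩ := b
    simp only at h1 h2
    subst h1
    refine ⟨rfl, (lin_val I c).symm, ?_⟩
    rw [choose_sup]
    unfold lstep val
    simp only
    cases r <;> cases sup k' I.2.2.1 <;> by_cases h4 : I.2.2.2 ∈ c <;> simp [h4]
    exact (CharTwo.add_self_eq_zero _).symm

attribute [local fun_prop] NPC.Poly.natBits

theorem poly_sup' {α : Type} [TEnc α] {p k : α → ℕ} (hp : NPC.Poly p) (hk : NPC.Poly k) :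
    NPC.Poly (fun a => sup (p a) (k a)) := by
  unfold sup
  fun_prop

theorem poly_lstep : NPC.Poly (fun p : QInst × ℕ × List ℕ × Bool => lstep p.1 p.2) := by
  have h1 : NPC.Poly (fun p : QInst × ℕ × List ℕ × Bool => newL p.1 p.2.2.1) := by
    unfold newL base parL
    fun_prop
  have h2 : NPC.Poly (fun p : QInst × ℕ × List ℕ × Bool => sup p.2.1 p.1.2.2.1) :=
    poly_sup' (by fun_prop) (by fun_prop)
  unfold lstep
  fun_prop

/-- The decision algorithm for degree one. -/
def linDec (I : QInst) : Bool :=
  (tri I.1 && I.1.all fun p => decide (p.2.2 = 0)) &&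
    ((lstep I)^[((0, 0, 0) :: I.1).length] (0, 0 :: I.2.1, false)).2.2

theorem poly_linDec : NPC.Poly linDec := by
  have h1 : NPC.Poly (fun I : QInst => (lstep I)^[((0, 0, 0) :: I.1).length]
      (0, 0 :: I.2.1, false)) := by
    refine NPC.Poly.iterLen (l := fun I : QInst => (0, 0, 0) :: I.1)
      (s := fun I : QInst => (0, 0 :: I.2.1, false)) (F := lstep) (by fun_prop) (by fun_prop)
      poly_lstep (10 * Polynomial.X + 20) ?_
    intro I k hk
    have h2 : ∀ k, sz ((lstep I)^[k] (0, 0 :: I.2.1, false)).2.1 ≤ sz I + sz I + 3 := by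
      intro k
      cases k with
      | zero =>
        rw [Function.iterate_zero, id_eq]
        have h0 : sz (0 : ℕ) = 1 := by
          rw [sz_nat]
          simp
        obtain ⟨S, l, t, i⟩ := I
        simp only
        rw [sz_list_cons]
        simp only [sz_pair]
        omega
      | succ k =>
        rw [Function.iterate_succ_apply']
        exact (sz_filter_le' _ _).trans (sz_base _)
    have h3 := h2 k
    obtain ⟨h4, -, -⟩ := lstep_iter I k
    have h5 := sz_bool_le ((lstep I)^[k] (0, 0 :: I.2.1, false)).2.2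
    have h6 : ((0, 0, 0) :: I.1).length ≤ sz I := by
      have := length_lt_sz I.1
      obtain ⟨S, l, t, i⟩ := I
      simp only [List.length_cons, sz_pair] at this ⊢
      omega
    have h7 := sz_nat_le k
    have h8 := Poly.size_le_self k
    generalize (lstep I)^[k] (0, 0 :: I.2.1, false) = b at h3 h4 h5
    obtain ⟨k', c, r⟩ := b
    simp only at h3 h4 h5
    subst h4
    rw [sz_pair, sz_pair]
    simp only [Polynomial.eval_add, Polynomial.eval_mul, Polynomial.eval_X, Polynomial.eval_ofNat]
    omega
  have h2 : NPC.Poly (fun I : QInst =>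
      ((I.1.all fun p => decide (p.2.1 < p.1) && decide (p.2.2 < p.1)) &&
        I.1.all fun p => decide (p.2.2 = 0)) &&
      ((lstep I)^[((0, 0, 0) :: I.1).length] (0, 0 :: I.2.1, false)).2.2) := by
    fun_prop
  exact h2

/-- The iteration problem for affine triangular maps is in `P`. -/
theorem linear_inP : InP (lang fun I : QInst => QIter I ∧ ∀ p ∈ I.1, p.2.2 = 0) := by
  refine inPP_of poly_linDec fun I => ?_
  obtain ⟨h1, h2, h3⟩ := lstep_iter I ((0, 0, 0) :: I.1).length
  unfold linDec QIter
  rw [Bool.and_eq_true, Bool.and_eq_true, tri_iff, List.all_eq_true]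
  constructor
  · rintro ⟨⟨h4, h5⟩, h6⟩
    refine ⟨⟨h4, fun p hp => by simpa using h6 p hp⟩, ?_⟩
    rw [iter_lin h4 h6 (by simp [start])] at h5
    rw [List.length_cons, h5] at h3
    by_contra h7
    rw [List.length_cons] at h7
    rw [if_neg h7] at h3
    exact absurd h3 (by decide)
  · rintro ⟨⟨h4, h6⟩, h5⟩
    have h6 : ∀ p ∈ I.1, p.2.2 = 0 := fun p hp => by simpa using h6 p hp
    refine ⟨⟨h4, ?_⟩, h6⟩
    rw [iter_lin h4 h6 (by simp [start])]
    rw [if_pos h5, List.length_cons] at h3
    exact h3.symm

end Pool.Agent.V7H82.QI
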