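import Pool.Agent.V7H82.QI.Reduce
import Pool.Agent.V7H82.QI.Member

/-!
# Completeness
-/

set_option autoImplicit false

namespace Pool.Agent.V7H82.QI

open Pool.Agent.H656R2.AK Pool.Agent.H623R2.PS Pool.Agent.NPC

/-- The instance of a quantified formula, with the time written out. -/
def instT (Q : QF) : QInst := ((instQ Q).1, [], 2 ^ (instQ Q).2.1, (instQ Q).2.2)

theorem poly_instT : NPC.Poly instT := by
  have h1 := poly_instQ
  have h2 : UPoly (fun Q : QF => rr Q + 2 * Q.1.length) :=
    upoly_rr.add ((UPoly.const 2).mul (UPoly.length (NPC.Poly.fst NPC.Poly.id)))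
  have h3 : NPC.Poly (fun Q : QF => 2 ^ (rr Q + 2 * Q.1.length)) := poly_two_pow h2
  exact (NPC.Poly.fst h1).pair ((NPC.Poly.const _).pair (h3.pair (NPC.Poly.snd (NPC.Poly.snd h1))))

/-- The reduction: the start is the zero point (with `x_0 = 1`) and the time is a power of two. -/
theorem qiter_hard0 : PSPACEHard (lang fun I : QInst => QIter I ∧ I.2.1 = [] ∧
    ∃ e, I.2.2.1 = 2 ^ e) := by
  intro L hL
  obtain ⟨f, hf, hwf, hf'⟩ := qbf_hard hL
  refine ⟨fun x => bits (instT (f x)), polyTime_bits (poly_instT.comp hf), fun x => ?_⟩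
  rw [bits_mem_lang]
  obtain ⟨h1, h2⟩ := instQ_spec (f x) (hwf x)
  have h3 : QIter (instT (f x)) ↔ evq (f x).1 (fun v => evc v (f x).2) = true := by
    unfold QIter instT
    simp only
    rw [h2]
    split_ifs with h <;> simp [h, h1]
  rw [h3, hf' x]
  exact ⟨fun h => ⟨h, rfl, _, rfl⟩, fun h => h.1⟩

theorem qiter_hard : PSPACEHard (lang QIter) := by
  intro L hL
  obtain ⟨f, hf, hwf, hf'⟩ := qbf_hard hL
  refine ⟨fun x => bits (instT (f x)), polyTime_bits (poly_instT.comp hf), fun x => ?_⟩
  rw [bits_mem_lang]
  obtain ⟨h1, h2⟩ := instQ_spec (f x) (hwf x)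
  have h3 : QIter (instT (f x)) ↔ evq (f x).1 (fun v => evc v (f x).2) = true := by
    unfold QIter instT
    simp only
    rw [h2]
    split_ifs with h <;> simp [h, h1]
  rw [h3, hf' x]

theorem qiter_complete : PSPACEComplete (lang QIter) := ⟨qiter_mem, qiter_hard⟩

theorem qiter_collapse : (∀ L, InPSPACE L → InP L) ↔ InP (lang QIter) :=
  ⟨fun h => h _ qiter_mem, fun h _ hL => InP.of_reduces (qiter_hard _ hL) h⟩

/-! ### The maps are permutations -/

theorem quad_congr {S : Sys} {i : ℕ} {x y : ℕ → ZMod 2}
    (h : ∀ p ∈ S, p.1 = i → x p.2.1 = y p.2.1 ∧ x p.2.2 = y p.2.2) : quad S i x = quad S i y := by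
  unfold quad
  congr 1
  refine List.map_congr_left fun p hp => ?_
  by_cases hi : p.1 = i
  · rw [if_pos hi, if_pos hi, (h p hp hi).1, (h p hp hi).2]
  · rw [if_neg hi, if_neg hi]

/-- The inverse map. -/
noncomputable def invS (S : Sys) (y : ℕ → ZMod 2) (i : ℕ) : ZMod 2 :=
  y i + quad S i fun j => if _h : j < i then invS S y j else 0
termination_by i

theorem step_bijective {S : Sys} (hS : Triangular S) : Function.Bijective (step S) := by
  constructor
  · intro x y hxy
    have h : ∀ i, x i = y i := by
      intro i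
      induction i using Nat.strong_induction_on with
      | _ i ih =>
        have h1 := congrFun hxy i
        unfold step at h1
        rw [quad_congr (y := y) fun p hp hi => ?_] at h1
        · exact add_right_cancel h1
        · have := hS p hp
          exact ⟨ih _ (by omega), ih _ (by omega)⟩
    exact funext h
  · intro y
    refine ⟨invS S y, funext fun i => ?_⟩
    have h2 : quad S i (invS S y) = quad S i fun j => if _h : j < i then invS S y j else 0 := by
      refine quad_congr fun p hp hi => ?_
      have := hS p hp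
      rw [dif_pos (by omega), dif_pos (by omega)]
      exact ⟨rfl, rfl⟩
    unfold step
    rw [h2]
    conv_lhs =>
      rw [invS]
    rw [add_assoc, CharTwo.add_self_eq_zero, add_zero]

end Pool.Agent.V7H82.QI
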