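import Pool.Agent.V7H82.QI.Blk
import Pool.Agent.H656R2.AK.QG

/-!
# The program of a quantified formula
-/

set_option autoImplicit false

namespace Pool.Agent.V7H82.QI

open Pool.Agent.H656R2.AK Pool.Agent.H623R2.PS

/-- The literals of the clauses, each clause followed by the token `(false, false, 0)`. -/
def toks (Q : QF) : List (Bool × Bool × ℕ) :=
  Q.2.flatMap fun c => c.map (fun l => (true, l.1, l.2)) ++ [(false, false, 0)]

/-- The first line of the tokens. -/
def b0 (Q : QF) : ℕ := 4 * Q.1.length + 4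

/-- The first line of the quantifiers. -/
def b1 (Q : QF) : ℕ := b0 Q + 3 * (toks Q).length

/-- The line `B + o` of the token `tk`, where `B` is its first line. -/
def tokLine (N B o : ℕ) (tk : Bool × Bool × ℕ) : ℕ × ℕ × ℕ :=
  if tk.1 = true then
    if o = 0 then (if tk.2.1 = true then (1, 4 * (N - 1 - tk.2.2) + 1, 0)
      else (2, 4 * (N - 1 - tk.2.2) + 1, 0))
    else if o = 1 then (2, B - 2, B) else (2, B - 1, 0)
  else if o = 0 then (1, B - 2, 0) else if o = 1 then (0, 0, 0) else (2, B - 1, B)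

/-- The line `B + o` of the level `l`, where `B` is its first line. -/
def levLine (q : Bool) (l B o : ℕ) : ℕ × ℕ × ℕ :=
  if o = 0 then (3, B - 1, 0)
  else if o = 1 then (1, 4 * l + 3, 0)
  else if o = 2 then (2, B - 1, B + 1)
  else if o = 3 then (2, B + 2, 4 * l + 1)
  else if o = 4 then (2, B + 3, B)
  else if q = true then (2, B + 4, 0) else (1, B + 2, B + 4)

/-- The program of a quantified formula. -/
def prog (Q : QF) (n : ℕ) : ℕ × ℕ × ℕ :=
  if n = 0 then (0, 0, 0)
  else if n < 4 * Q.1.length + 2 then (if n % 2 = 1 then (3, n - 1, 0) else (2, n - 2, n - 1))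
  else if n < b0 Q then (0, 0, 0)
  else if n < b1 Q then tokLine Q.1.length (n - (n - b0 Q) % 3) ((n - b0 Q) % 3)
    ((toks Q).getD ((n - b0 Q) / 3) (false, false, 0))
  else levLine (Q.1.getD (Q.1.length - 1 - (n - b1 Q) / 6) false) ((n - b1 Q) / 6)
    (n - (n - b1 Q) % 6) ((n - b1 Q) % 6)

/-- The number of lines. -/
def numLines (Q : QF) : ℕ := b1 Q + 6 * Q.1.length + 1

theorem tokLine_ok {N B o : ℕ} (hB : 4 * N + 4 ≤ B) (tk : Bool × Bool × ℕ) (n : ℕ)
    (hn : n = B + o) : (tokLine N B o tk).1 ≠ 0 →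
      (tokLine N B o tk).2.1 < n ∧ (tokLine N B o tk).2.2 < n := by
  unfold tokLine
  intro h
  split_ifs at h ⊢ <;> simp only at h ⊢ <;> omega

theorem levLine_ok {N l B o : ℕ} (q : Bool) (hB : 4 * N + 4 ≤ B) (hl : l ≤ N) (n : ℕ)
    (hn : n = B + o) : (levLine q l B o).1 ≠ 0 →
      (levLine q l B o).2.1 < n ∧ (levLine q l B o).2.2 < n := by
  unfold levLine
  intro h
  split_ifs at h ⊢ <;> simp only at h ⊢ <;> omega

theorem prog_ok (Q : QF) : ∀ n < numLines Q, Ok (prog Q) n := by
  intro n hn
  have h0 : b0 Q = 4 * Q.1.length + 4 := rfl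
  have h1 : b1 Q = b0 Q + 3 * (toks Q).length := rfl
  have h2 : numLines Q = b1 Q + 6 * Q.1.length + 1 := rfl
  unfold Ok prog
  by_cases c0 : n = 0
  · rw [if_pos c0]
    intro h
    exact absurd rfl h
  rw [if_neg c0]
  by_cases c1 : n < 4 * Q.1.length + 2
  · rw [if_pos c1]
    by_cases c2 : n % 2 = 1
    · rw [if_pos c2]
      intro _
      constructor <;> simp only <;> omega
    · rw [if_neg c2]
      intro _
      constructor <;> simp only <;> omega
  rw [if_neg c1]
  by_cases c3 : n < b0 Q
  · rw [if_pos c3]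
    intro h
    exact absurd rfl h
  rw [if_neg c3]
  by_cases c4 : n < b1 Q
  · rw [if_pos c4]
    exact tokLine_ok (by omega) _ _ (by omega)
  · rw [if_neg c4]
    exact levLine_ok (N := Q.1.length) _ (by omega) (by omega) _ (by omega)

/-! ### The lines -/

section Lines

variable (Q : QF)

theorem prog_zero : prog Q 0 = (0, 0, 0) := rfl

theorem prog_odd {i : ℕ} (hi : i ≤ 2 * Q.1.length) : prog Q (2 * i + 1) = (3, 2 * i, 0) := by
  unfold prog
  rw [if_neg (by omega), if_pos (by omega), if_pos (by omega)]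
  rfl

theorem prog_even {i : ℕ} (hi : i < 2 * Q.1.length) :
    prog Q (2 * (i + 1)) = (2, 2 * i, 2 * i + 1) := by
  unfold prog
  rw [if_neg (by omega), if_pos (by omega), if_neg (by omega),
    show 2 * (i + 1) - 2 = 2 * i by omega, show 2 * (i + 1) - 1 = 2 * i + 1 by omega]

theorem prog_one {n : ℕ} (h : 4 * Q.1.length + 2 ≤ n) (h' : n < b0 Q) : prog Q n = (0, 0, 0) := by
  unfold prog
  rw [if_neg (by omega), if_neg (by omega), if_pos h']

theorem prog_tok {m o : ℕ} (hm : m < (toks Q).length) (ho : o < 3) :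
    prog Q (b0 Q + 3 * m + o) = tokLine Q.1.length (b0 Q + 3 * m) o
      ((toks Q).getD m (false, false, 0)) := by
  have h0 : b0 Q = 4 * Q.1.length + 4 := rfl
  have h1 : b1 Q = b0 Q + 3 * (toks Q).length := rfl
  unfold prog
  rw [if_neg (by omega), if_neg (by omega), if_neg (by omega), if_pos (by omega),
    show (b0 Q + 3 * m + o - b0 Q) % 3 = o by omega, show (b0 Q + 3 * m + o - b0 Q) / 3 = m by omega,
    show b0 Q + 3 * m + o - o = b0 Q + 3 * m by omega]

theorem prog_lev {l o : ℕ} (ho : o < 6) :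
    prog Q (b1 Q + 6 * l + o) = levLine (Q.1.getD (Q.1.length - 1 - l) false) l
      (b1 Q + 6 * l) o := by
  have h0 : b0 Q = 4 * Q.1.length + 4 := rfl
  have h1 : b1 Q = b0 Q + 3 * (toks Q).length := rfl
  unfold prog
  rw [if_neg (by omega), if_neg (by omega), if_neg (by omega), if_neg (by omega),
    show (b1 Q + 6 * l + o - b1 Q) % 6 = o by omega, show (b1 Q + 6 * l + o - b1 Q) / 6 = l by omega,
    show b1 Q + 6 * l + o - o = b1 Q + 6 * l by omega]

/-! ### The bits of the time -/

theorem sum_div (L t : ℕ) (hL : 0 < L) :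
    ∑ s ∈ Finset.range t, (if s % L = L - 1 then (1 : ZMod 2) else 0) = ((t / L : ℕ) : ZMod 2) := by
  induction t with
  | zero => simp
  | succ t ih =>
    rw [Finset.sum_range_succ, ih, Nat.succ_div]
    have h := Nat.mod_lt t hL
    by_cases h1 : t % L = L - 1
    · rw [if_pos h1, if_pos ?_]
      · push_cast
        rfl
      · rw [Nat.dvd_iff_mod_eq_zero, Nat.add_mod, h1]
        rcases (by omega : L = 1 ∨ 2 ≤ L) with h2 | h2
        · subst h2
          rfl
        · rw [Nat.mod_eq_of_lt (by omega : 1 < L), show L - 1 + 1 = L by omega, Nat.mod_self]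
    · rw [if_neg h1, if_neg ?_]
      · simp
      · rw [Nat.dvd_iff_mod_eq_zero, ← Nat.mod_add_mod, Nat.mod_eq_of_lt (by omega)]
        omega

theorem ev_bits {i : ℕ} (hi : i ≤ 2 * Q.1.length) :
    (∀ t, ev (prog Q) (2 * i) t = if t % 2 ^ i = 2 ^ i - 1 then 1 else 0) ∧
    ∀ t, ev (prog Q) (2 * i + 1) t = ((t / 2 ^ i : ℕ) : ZMod 2) := by
  have hok := prog_ok Q
  have hnl : numLines Q = 4 * Q.1.length + 4 + 3 * (toks Q).length + 6 * Q.1.length + 1 := rfl
  have key : ∀ i ≤ 2 * Q.1.length,
      (∀ t, ev (prog Q) (2 * i) t = if t % 2 ^ i = 2 ^ i - 1 then 1 else 0) →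
      ∀ t, ev (prog Q) (2 * i + 1) t = ((t / 2 ^ i : ℕ) : ZMod 2) := by
    intro i hi h t
    have hp := prog_odd Q hi
    rw [ev_int (by rw [hp]) (hok _ (by omega)), hp]
    simp only [h]
    exact sum_div _ _ (by positivity)
  induction i with
  | zero =>
    have h1 : ∀ t, ev (prog Q) (2 * 0) t = if t % 2 ^ 0 = 2 ^ 0 - 1 then 1 else 0 := by
      intro t
      rw [if_pos (by simp [Nat.mod_one])]
      exact ev_one (by rw [mul_zero, prog_zero]) t
    exact ⟨h1, key 0 hi h1⟩
  | succ i ih =>
    obtain ⟨e1, e2⟩ := ih (by omega)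
    have hp := prog_even Q (i := i) (by omega)
    have h1 : ∀ t, ev (prog Q) (2 * (i + 1)) t =
        if t % 2 ^ (i + 1) = 2 ^ (i + 1) - 1 then 1 else 0 := by
      intro t
      rw [ev_mul (by rw [hp]) (hok _ (by omega)), hp]
      simp only [e1, e2]
      have h3 : t % 2 ^ (i + 1) = t % 2 ^ i + 2 ^ i * (t / 2 ^ i % 2) := by
        rw [pow_succ, Nat.mod_mul]
      have h4 : t % 2 ^ i < 2 ^ i := Nat.mod_lt _ (by positivity)
      have h5 : ((t / 2 ^ i : ℕ) : ZMod 2) = ((t / 2 ^ i % 2 : ℕ) : ZMod 2) := by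
        rw [ZMod.natCast_mod]
      rw [h5, h3, pow_succ]
      generalize t % 2 ^ i = a at h4 ⊢
      have h6 : t / 2 ^ i % 2 = 0 ∨ t / 2 ^ i % 2 = 1 := by omega
      generalize t / 2 ^ i % 2 = c at h6 ⊢
      generalize 2 ^ i = L at h4 ⊢
      rcases h6 with rfl | rfl
      · rw [if_neg (by omega : ¬ a + L * 0 = L * 2 - 1)]
        simp
      · by_cases h7 : a = L - 1
        · rw [if_pos h7, if_pos (by omega)]
          simp
        · rw [if_neg h7, if_neg (by omega)]
          simp
    exact ⟨h1, key _ hi h1⟩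

/-- The line of the bit `i` of the time. -/
theorem ev_bit {i : ℕ} (hi : i ≤ 2 * Q.1.length) (t : ℕ) :
    ev (prog Q) (2 * i + 1) t = if t.testBit i = true then 1 else 0 := by
  rw [(ev_bits Q hi).2 t, ← ZMod.natCast_mod]
  have h := Nat.testBit_eq_decide_div_mod_eq (x := t) (i := i)
  by_cases h1 : t / 2 ^ i % 2 = 1
  · rw [h1, if_pos (by rw [h]; simpa using h1)]
    simp
  · rw [show t / 2 ^ i % 2 = 0 by omega, if_neg (by rw [h]; simpa using h1)]
    simp

/-! ### The clauses -/

/-- The state of the evaluation of the clauses after one token. -/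
def sem (N t : ℕ) (s : Bool × Bool) (tk : Bool × Bool × ℕ) : Bool × Bool :=
  if tk.1 = true then (s.1 && !(t.testBit (2 * (N - 1 - tk.2.2)) == tk.2.1), s.2)
  else (true, s.2 && !s.1)

/-- From booleans to the field. -/
def toZ (b : Bool) : ZMod 2 := if b = true then 1 else 0

theorem toZ_and (a b : Bool) : toZ (a && b) = toZ a * toZ b := by
  cases a <;> cases b <;> simp [toZ]

theorem toZ_not (a : Bool) : toZ (!a) = toZ a + 1 := by
  cases a
  · simp [toZ]
  · exact (CharTwo.add_self_eq_zero (1 : ZMod 2)).symm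

theorem ev_tok (t : ℕ) : ∀ m ≤ (toks Q).length,
    ev (prog Q) (b0 Q + 3 * m - 2) t =
        toZ (((toks Q).take m).foldl (sem Q.1.length t) (true, true)).1 ∧
      ev (prog Q) (b0 Q + 3 * m - 1) t =
        toZ (((toks Q).take m).foldl (sem Q.1.length t) (true, true)).2 := by
  have hok := prog_ok Q
  have hb : b0 Q = 4 * Q.1.length + 4 := rfl
  have hnl : numLines Q = b0 Q + 3 * (toks Q).length + 6 * Q.1.length + 1 := rfl
  have h1 : ev (prog Q) 0 t = 1 := ev_one (by rw [prog_zero]) t
  intro m
  induction m with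
  | zero =>
    intro _
    rw [mul_zero, add_zero, List.take_zero, List.foldl_nil]
    exact ⟨ev_one (by rw [prog_one Q (by omega) (by omega)]) t,
      ev_one (by rw [prog_one Q (by omega) (by omega)]) t⟩
  | succ m ih =>
    intro hm
    obtain ⟨eA, eD⟩ := ih (by omega)
    obtain ⟨s, hs⟩ : ∃ s, s = ((toks Q).take m).foldl (sem Q.1.length t) (true, true) := ⟨_, rfl⟩
    rw [← hs] at eA eD
    have hl : (toks Q).take (m + 1) = (toks Q).take m ++ [(toks Q).getD m (false, false, 0)] := by
      rw [List.getD_eq_getElem _ _ (by omega), List.take_append_getElem (by omega)]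
    rw [hl, List.foldl_append, ← hs, List.foldl_cons, List.foldl_nil]
    have p0 := prog_tok Q (m := m) (o := 0) (by omega) (by omega)
    have p1 := prog_tok Q (m := m) (o := 1) (by omega) (by omega)
    have p2 := prog_tok Q (m := m) (o := 2) (by omega) (by omega)
    rw [add_zero] at p0
    generalize (toks Q).getD m (false, false, 0) = tk at p0 p1 p2 ⊢
    rw [show b0 Q + 3 * (m + 1) - 2 = b0 Q + 3 * m + 1 by omega,
      show b0 Q + 3 * (m + 1) - 1 = b0 Q + 3 * m + 2 by omega]
    obtain ⟨k, b, v⟩ := tk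
    cases k with
    | true =>
      have hbit := ev_bit Q (i := 2 * (Q.1.length - 1 - v)) (by omega) t
      rw [show 2 * (2 * (Q.1.length - 1 - v)) + 1 = 4 * (Q.1.length - 1 - v) + 1 by ring] at hbit
      have q1 : prog Q (b0 Q + 3 * m + 1) = (2, b0 Q + 3 * m - 2, b0 Q + 3 * m) := by
        rw [p1]
        simp [tokLine]
      have q2 : prog Q (b0 Q + 3 * m + 2) = (2, b0 Q + 3 * m - 1, 0) := by
        rw [p2]
        simp [tokLine]
      have e0 : ev (prog Q) (b0 Q + 3 * m) t =
          toZ (!(t.testBit (2 * (Q.1.length - 1 - v)) == b)) := by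
        cases b with
        | true =>
          have q0 : prog Q (b0 Q + 3 * m) = (1, 4 * (Q.1.length - 1 - v) + 1, 0) := by
            rw [p0]
            simp [tokLine]
          rw [ev_add (by rw [q0]) (hok _ (by omega)), q0, hbit, h1, toZ_not, beq_true]
          rfl
        | false =>
          have q0 : prog Q (b0 Q + 3 * m) = (2, 4 * (Q.1.length - 1 - v) + 1, 0) := by
            rw [p0]
            simp [tokLine]
          rw [ev_mul (by rw [q0]) (hok _ (by omega)), q0, hbit, h1, beq_false, Bool.not_not,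
            mul_one]
          rfl
      constructor
      · rw [ev_mul (by rw [q1]) (hok _ (by omega)), q1, eA, e0, ← toZ_and]
        rfl
      · rw [ev_mul (by rw [q2]) (hok _ (by omega)), q2, eD, h1, mul_one]
        rfl
    | false =>
      have q0 : prog Q (b0 Q + 3 * m) = (1, b0 Q + 3 * m - 2, 0) := by
        rw [p0]
        simp [tokLine]
      have q1 : prog Q (b0 Q + 3 * m + 1) = (0, 0, 0) := by
        rw [p1]
        simp [tokLine]
      have q2 : prog Q (b0 Q + 3 * m + 2) = (2, b0 Q + 3 * m - 1, b0 Q + 3 * m) := by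
        rw [p2]
        simp [tokLine]
      have e0 : ev (prog Q) (b0 Q + 3 * m) t = toZ (!s.1) := by
        rw [ev_add (by rw [q0]) (hok _ (by omega)), q0, eA, h1, toZ_not]
      constructor
      · rw [ev_one (by rw [q1])]
        rfl
      · rw [ev_mul (by rw [q2]) (hok _ (by omega)), q2, eD, e0, ← toZ_and]
        rfl

/-- The variables at a time. -/
def asg (N t : ℕ) : List Bool := (List.range N).map fun v => t.testBit (2 * (N - 1 - v))

theorem asg_getD {N t v : ℕ} (hv : v < N) :
    (asg N t).getD v false = t.testBit (2 * (N - 1 - v)) := by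
  unfold asg
  rw [List.getD_eq_getElem _ _ (by simpa using hv)]
  simp

theorem sem_clause (N t : ℕ) (c : List (Bool × ℕ)) (hc : ∀ l ∈ c, l.2 < N) (A D : Bool) :
    (c.map fun l => (true, l.1, l.2)).foldl (sem N t) (A, D) =
      (A && !(c.any fun l => (asg N t).getD l.2 false == l.1), D) := by
  induction c generalizing A with
  | nil => simp
  | cons l c ih =>
    rw [List.map_cons, List.foldl_cons]
    have h : sem N t (A, D) (true, l.1, l.2) =
        (A && !((asg N t).getD l.2 false == l.1), D) := by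
      unfold sem
      rw [if_pos rfl, asg_getD (hc l (by simp))]
    rw [h, ih (fun l' hl' => hc l' (by simp [hl'])), List.any_cons]
    simp [Bool.and_assoc]

theorem sem_toks (N t : ℕ) (C : List (List (Bool × ℕ))) (hC : ∀ c ∈ C, ∀ l ∈ c, l.2 < N)
    (D : Bool) :
    (C.flatMap fun c => c.map (fun l => (true, l.1, l.2)) ++ [(false, false, 0)]).foldl (sem N t)
      (true, D) = (true, D && evc (asg N t) C) := by
  induction C generalizing D with
  | nil => simp [evc]
  | cons c C ih =>
    rw [List.flatMap_cons, List.foldl_append, List.foldl_append,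
      sem_clause N t c (hC c (by simp)), List.foldl_cons, List.foldl_nil]
    have h : ∀ x, sem N t (true && !x, D) (false, false, 0) = (true, D && x) := by
      intro x
      simp [sem]
    rw [h, ih (fun c' hc' => hC c' (by simp [hc']))]
    simp [evc, Bool.and_assoc]

theorem ev_cnf (hwf : QFwf Q) (t : ℕ) :
    ev (prog Q) (b1 Q - 1) t = toZ (evc (asg Q.1.length t) Q.2) := by
  have h := (ev_tok Q t (toks Q).length le_rfl).2
  rw [List.take_length] at h
  have h2 : toks Q = Q.2.flatMap fun c => c.map (fun l => (true, l.1, l.2)) ++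
    [(false, false, 0)] := rfl
  rw [show b1 Q - 1 = b0 Q + 3 * (toks Q).length - 1 from rfl, h, h2, sem_toks _ _ _ hwf]
  simp

end Lines

end Pool.Agent.V7H82.QI
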