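import Pool.Agent.V7H82.QI.Compile

/-!
# The simulation
-/

set_option autoImplicit false

namespace Pool.Agent.V7H82.QI

/-- The clock variables whose sum is `1` exactly at the times which are `p` modulo `R`. -/
def ph (R p : ℕ) : List ℕ := (List.range R).filter fun k => sup p k

/-- The clock: `x_k` is the binomial coefficient of the time and `k`. -/
def clock (R : ℕ) : Sys := (List.range (R - 1)).map fun k => (k + 1, k, 0)

/-- The variables `R + 2 n` and `R + 2 n + 1` of the line `n`. -/
def lineSys (R n : ℕ) (c : ℕ × ℕ × ℕ) : Sys :=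
  if c.1 = 0 then (ph R (2 * n + 1) ++ ph R (R - 1 - 2 * n)).map fun k => (R + 2 * n + 1, k, 0)
  else if c.1 = 1 then
    (ph R (2 * n + 1) ++ ph R (R - 1 - 2 * n)).map
        (fun k => (R + 2 * n + 1, k, R + 2 * c.2.1 + 1)) ++
      (ph R (2 * n + 1) ++ ph R (R - 1 - 2 * n)).map
        (fun k => (R + 2 * n + 1, k, R + 2 * c.2.2 + 1))
  else if c.1 = 2 then
    (R + 2 * n + 1, R + 2 * n, R + 2 * c.2.2 + 1) ::
      ((ph R (2 * n) ++ ph R (2 * n + 1)) ++ (ph R (R - 2 - 2 * n) ++ ph R (R - 1 - 2 * n))).map
        (fun k => (R + 2 * n, k, R + 2 * c.2.1 + 1))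
  else (ph R (R - 1 - 2 * n)).map fun k => (R + 2 * n + 1, k, R + 2 * c.2.1 + 1)

/-- The system of the program `g` with `K` lines. -/
def comp (R K : ℕ) (g : ℕ → ℕ × ℕ × ℕ) : Sys :=
  clock R ++ (List.range K).flatMap fun n => lineSys R n (g n)

theorem quad_append (S T : Sys) (i : ℕ) (x : ℕ → ZMod 2) :
    quad (S ++ T) i x = quad S i x + quad T i x := by
  simp [quad]

theorem quad_flatMap (f : ℕ → Sys) (i : ℕ) (x : ℕ → ZMod 2) (K : ℕ) :
    quad ((List.range K).flatMap f) i x = ∑ n ∈ Finset.range K, quad (f n) i x := by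
  induction K with
  | zero => simp [quad]
  | succ K ih =>
    rw [List.range_succ, List.flatMap_append, quad_append, ih, Finset.sum_range_succ]
    simp

theorem quad_map (L : List ℕ) (a b i : ℕ) (x : ℕ → ZMod 2) :
    quad (L.map fun k => (a, k, b)) i x = if i = a then (L.map x).sum * x b else 0 := by
  induction L with
  | nil => simp [quad]
  | cons k L ih =>
    have h : quad ((k :: L).map fun k => (a, k, b)) i x =
      (if a = i then x k * x b else 0) + quad (L.map fun k => (a, k, b)) i x := by
      simp [quad]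
    rw [h, ih]
    by_cases h1 : i = a
    · subst h1
      simp
      ring
    · simp [h1, Ne.symm h1]

theorem quad_cons (p : ℕ × ℕ × ℕ) (S : Sys) (i : ℕ) (x : ℕ → ZMod 2) :
    quad (p :: S) i x = (if p.1 = i then x p.2.1 * x p.2.2 else 0) + quad S i x := by
  simp [quad]

theorem quad_clock (R i : ℕ) (x : ℕ → ZMod 2) :
    quad (clock R) i x = if 0 < i ∧ i < R then x (i - 1) * x 0 else 0 := by
  have key : ∀ m, quad ((List.range m).map fun k => (k + 1, k, 0)) i x =
      if 0 < i ∧ i < m + 1 then x (i - 1) * x 0 else 0 := by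
    intro m
    induction m with
    | zero =>
      rw [if_neg (by omega)]
      simp [quad]
    | succ m ih =>
      rw [List.range_succ, List.map_append, quad_append, ih]
      simp only [List.map_cons, List.map_nil]
      rw [quad_cons]
      have h0 : quad [] i x = 0 := by simp [quad]
      rw [h0, add_zero]
      by_cases h1 : m + 1 = i
      · subst h1
        simp
      · simp only [h1, if_false, add_zero]
        by_cases h2 : 0 < i ∧ i < m + 1
        · rw [if_pos h2, if_pos (by omega)]
        · rw [if_neg h2, if_neg (by omega)]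
  unfold clock
  rw [key]
  by_cases h : 0 < i ∧ i < R
  · rw [if_pos h, if_pos (by omega)]
  · rw [if_neg h]
    by_cases h2 : 0 < i ∧ i < R - 1 + 1
    · exfalso
      omega
    · rw [if_neg h2]

/-- The pulse at the phase `p`. -/
def pl (R p s : ℕ) : ZMod 2 := if s % R = p then 1 else 0

theorem ph_sum {R r : ℕ} (hR : R = 2 ^ r) {p s : ℕ} (hp : p < R) {x : ℕ → ZMod 2}
    (hx : ∀ k < R, x k = (Nat.choose s k : ℕ)) : ((ph R p).map x).sum = pl R p s := by
  have key : ∀ m, (((List.range m).filter fun k => sup p k).map x).sum =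
      ∑ k ∈ Finset.range m, if sup p k = true then x k else 0 := by
    intro m
    induction m with
    | zero => simp
    | succ m ih =>
      rw [List.range_succ, List.filter_append, List.map_append, List.sum_append, ih,
        Finset.sum_range_succ]
      cases h : sup p m <;> simp [h]
  unfold ph pl
  rw [key, hR, ← pulse_sum r p (by omega) s]
  refine Finset.sum_congr rfl fun k hk => ?_
  rw [hx k (by rw [hR]; exact Finset.mem_range.1 hk)]

section Line

variable {R r s n : ℕ} (hR : R = 2 ^ r) (hn : 2 * n + 2 < R) {x : ℕ → ZMod 2}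
  (hx : ∀ k < R, x k = (Nat.choose s k : ℕ))

include hR hn hx

theorem x0_eq : x 0 = 1 := by
  rw [hx 0 (by omega)]
  simp

theorem quad_line_X (c : ℕ × ℕ × ℕ) : quad (lineSys R n c) (R + 2 * n + 1) x =
    if c.1 = 0 then pl R (2 * n + 1) s + pl R (R - 1 - 2 * n) s
    else if c.1 = 1 then (pl R (2 * n + 1) s + pl R (R - 1 - 2 * n) s) *
      (x (R + 2 * c.2.1 + 1) + x (R + 2 * c.2.2 + 1))
    else if c.1 = 2 then x (R + 2 * n) * x (R + 2 * c.2.2 + 1)
    else pl R (R - 1 - 2 * n) s * x (R + 2 * c.2.1 + 1) := by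
  have h0 := x0_eq hR hn hx
  have e1 := ph_sum hR (p := 2 * n + 1) (by omega) hx
  have e2 := ph_sum hR (p := R - 1 - 2 * n) (by omega) hx
  unfold lineSys
  split_ifs with h1 h2 h3
  · rw [quad_map, if_pos rfl, List.map_append, List.sum_append, e1, e2, h0, mul_one]
  · rw [quad_append, quad_map, quad_map, if_pos rfl, if_pos rfl, List.map_append, List.sum_append,
      e1, e2]
    ring
  · rw [quad_cons, if_pos rfl, quad_map, if_neg (by omega), add_zero]
  · rw [quad_map, if_pos rfl, e2]

theorem quad_line_B (c : ℕ × ℕ × ℕ) : quad (lineSys R n c) (R + 2 * n) x =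
    if c.1 = 2 then (pl R (2 * n) s + pl R (2 * n + 1) s + (pl R (R - 2 - 2 * n) s +
      pl R (R - 1 - 2 * n) s)) * x (R + 2 * c.2.1 + 1) else 0 := by
  have e1 := ph_sum hR (p := 2 * n + 1) (by omega) hx
  have e2 := ph_sum hR (p := R - 1 - 2 * n) (by omega) hx
  have e3 := ph_sum hR (p := 2 * n) (by omega) hx
  have e4 := ph_sum hR (p := R - 2 - 2 * n) (by omega) hx
  unfold lineSys
  split_ifs with h1 h2 h3 h4
  · omega
  · rw [quad_map, if_neg (by omega)]
  · omega
  · rw [quad_append, quad_map, quad_map, if_neg (by omega), if_neg (by omega), add_zero]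
  · rw [quad_cons, if_neg (by simp only; omega), quad_map, if_pos rfl, List.map_append,
      List.map_append, List.map_append, List.sum_append, List.sum_append, List.sum_append,
      e1, e2, e3, e4, zero_add]
  · rw [quad_map, if_neg (by omega)]

end Line

theorem quad_line_ne {R n i : ℕ} (c : ℕ × ℕ × ℕ) (x : ℕ → ZMod 2) (h : i ≠ R + 2 * n)
    (h' : i ≠ R + 2 * n + 1) : quad (lineSys R n c) i x = 0 := by
  unfold lineSys
  split_ifs
  · rw [quad_map, if_neg h']
  · rw [quad_append, quad_map, quad_map, if_neg h', if_neg h', add_zero]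
  · rw [quad_cons, if_neg (by simp only; omega), quad_map, if_neg h, add_zero]
  · rw [quad_map, if_neg h']

/-! ### The states -/

section Sim

variable (g : ℕ → ℕ × ℕ × ℕ) (R K : ℕ)

/-- The value of the variable `R + 2 n + 1` at the phase `p` of the logical time `t`. -/
noncomputable def Xl (n t p : ℕ) : ZMod 2 :=
  if 3 ≤ (g n).1 then (if p ≤ R - 1 - 2 * n then ev g n t else ev g n (t + 1))
  else if 2 * n + 1 < p ∧ p ≤ R - 1 - 2 * n then ev g n t else 0

/-- The value of the variable `R + 2 n`. -/
noncomputable def Bl (n t p : ℕ) : ZMod 2 :=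
  if (g n).1 = 2 ∧ (p = 2 * n + 1 ∨ p = R - 1 - 2 * n) then ev g (g n).2.1 t else 0

/-- The state at the time `s`. -/
noncomputable def Ex (s i : ℕ) : ZMod 2 :=
  if i < R then (Nat.choose s i : ℕ)
  else if K ≤ (i - R) / 2 then 0
  else if (i - R) % 2 = 1 then Xl g R ((i - R) / 2) (s / R) (s % R)
  else Bl g R ((i - R) / 2) (s / R) (s % R)

variable {g R K}

theorem Ex_X {n s : ℕ} (hn : n < K) : Ex g R K s (R + 2 * n + 1) = Xl g R n (s / R) (s % R) := by
  unfold Ex
  rw [if_neg (by omega), if_neg (by omega), if_pos (by omega),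
    show (R + 2 * n + 1 - R) / 2 = n by omega]

theorem Ex_B {n s : ℕ} (hn : n < K) : Ex g R K s (R + 2 * n) = Bl g R n (s / R) (s % R) := by
  unfold Ex
  rw [if_neg (by omega), if_neg (by omega), if_neg (by omega),
    show (R + 2 * n - R) / 2 = n by omega]

/-- the state at the end of the last phase is the state at the beginning of the next one -/
theorem Xl_wrap {n t : ℕ} (hn : 4 * n + 4 ≤ R) : Xl g R n t R = Xl g R n (t + 1) 0 := by
  unfold Xl
  by_cases h : 3 ≤ (g n).1
  · rw [if_pos h, if_pos h, if_neg (by omega), if_pos (by omega)]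
  · rw [if_neg h, if_neg h, if_neg (by omega), if_neg (by omega)]

theorem Bl_wrap {n t : ℕ} (hn : 4 * n + 4 ≤ R) : Bl g R n t R = Bl g R n (t + 1) 0 := by
  unfold Bl
  rw [if_neg (by omega), if_neg (by omega)]

theorem Xl_next {n s : ℕ} (hn : 4 * n + 4 ≤ R) :
    Xl g R n ((s + 1) / R) ((s + 1) % R) = Xl g R n (s / R) (s % R + 1) := by
  have hR : 0 < R := by omega
  by_cases h : s % R + 1 = R
  · have h2 : (s + 1) % R = 0 := by
      rw [← Nat.mod_add_mod, h, Nat.mod_self]
    have h1 : (s + 1) / R = s / R + 1 := by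
      rw [Nat.succ_div, if_pos (by rw [Nat.dvd_iff_mod_eq_zero, h2])]
    rw [h1, h2, h, Xl_wrap hn]
  · have h0 := Nat.mod_lt s hR
    have h2 : (s + 1) % R = s % R + 1 := by
      rw [← Nat.mod_add_mod, Nat.mod_eq_of_lt (by omega)]
    have h1 : (s + 1) / R = s / R := by
      rw [Nat.succ_div, if_neg (by
        rw [Nat.dvd_iff_mod_eq_zero, h2]
        omega), add_zero]
    rw [h1, h2]

theorem Bl_next {n s : ℕ} (hn : 4 * n + 4 ≤ R) :
    Bl g R n ((s + 1) / R) ((s + 1) % R) = Bl g R n (s / R) (s % R + 1) := by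
  have hR : 0 < R := by omega
  by_cases h : s % R + 1 = R
  · have h2 : (s + 1) % R = 0 := by
      rw [← Nat.mod_add_mod, h, Nat.mod_self]
    have h1 : (s + 1) / R = s / R + 1 := by
      rw [Nat.succ_div, if_pos (by rw [Nat.dvd_iff_mod_eq_zero, h2])]
    rw [h1, h2, h, Bl_wrap hn]
  · have h0 := Nat.mod_lt s hR
    have h2 : (s + 1) % R = s % R + 1 := by
      rw [← Nat.mod_add_mod, Nat.mod_eq_of_lt (by omega)]
    have h1 : (s + 1) / R = s / R := by
      rw [Nat.succ_div, if_neg (by
        rw [Nat.dvd_iff_mod_eq_zero, h2]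
        omega), add_zero]
    rw [h1, h2]

/-- an operand is ready at the phases of the later lines -/
theorem Xl_ready {j t p : ℕ} (h1 : 2 * j + 1 < p) (h2 : p ≤ R - 1 - 2 * j) :
    Xl g R j t p = ev g j t := by
  unfold Xl
  by_cases h : 3 ≤ (g j).1
  · rw [if_pos h, if_pos h2]
  · rw [if_neg h, if_pos ⟨h1, h2⟩]

theorem win {a b p : ℕ} (hab : a < b) (v : ZMod 2) :
    (if a < p + 1 ∧ p + 1 ≤ b then v else 0) =
      (if a < p ∧ p ≤ b then v else 0) +
        ((if p = a then 1 else 0) + (if p = b then 1 else 0)) * v := by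
  rcases lt_trichotomy p a with h | h | h
  · rw [if_neg (by omega), if_neg (by omega), if_neg (by omega), if_neg (by omega)]
    ring
  · rw [if_pos (by omega), if_neg (by omega), if_pos h, if_neg (by omega)]
    ring
  · rcases lt_trichotomy p b with h' | h' | h'
    · rw [if_pos (by omega), if_pos (by omega), if_neg (by omega), if_neg (by omega)]
      ring
    · rw [if_neg (by omega), if_pos (by omega), if_neg (by omega), if_pos h', zero_add, one_mul]
      exact (CharTwo.add_self_eq_zero v).symm
    · rw [if_neg (by omega), if_neg (by omega), if_neg (by omega), if_neg (by omega)]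
      ring

theorem Xl_win {n t p : ℕ} (h : ¬ 3 ≤ (g n).1) :
    Xl g R n t p = if 2 * n + 1 < p ∧ p ≤ R - 1 - 2 * n then ev g n t else 0 := by
  unfold Xl
  rw [if_neg h]

theorem stepX {n s : ℕ} (hn : 4 * n + 4 ≤ R) (ho : Ok g n) :
    Xl g R n (s / R) (s % R + 1) = Xl g R n (s / R) (s % R) +
      (if (g n).1 = 0 then pl R (2 * n + 1) s + pl R (R - 1 - 2 * n) s
      else if (g n).1 = 1 then (pl R (2 * n + 1) s + pl R (R - 1 - 2 * n) s) *
        (Xl g R (g n).2.1 (s / R) (s % R) + Xl g R (g n).2.2 (s / R) (s % R))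
      else if (g n).1 = 2 then Bl g R n (s / R) (s % R) * Xl g R (g n).2.2 (s / R) (s % R)
      else pl R (R - 1 - 2 * n) s * Xl g R (g n).2.1 (s / R) (s % R)) := by
  generalize ht : s / R = t
  unfold pl
  generalize hp : s % R = p
  by_cases h0 : (g n).1 = 0
  · have h3 : ¬ 3 ≤ (g n).1 := by omega
    rw [if_pos h0, Xl_win h3, Xl_win h3, win (by omega), ev_one h0, mul_one]
  have h12 := ho h0
  rw [if_neg h0]
  by_cases h1 : (g n).1 = 1
  · rw [if_pos h1]
    have e : ((if p = 2 * n + 1 then (1 : ZMod 2) else 0) + (if p = R - 1 - 2 * n then 1 else 0)) *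
        (Xl g R (g n).2.1 t p + Xl g R (g n).2.2 t p) =
        ((if p = 2 * n + 1 then (1 : ZMod 2) else 0) + (if p = R - 1 - 2 * n then 1 else 0)) *
        ev g n t := by
      by_cases h2 : p = 2 * n + 1 ∨ p = R - 1 - 2 * n
      · rw [Xl_ready (by omega) (by omega), Xl_ready (by omega) (by omega), ← ev_add h1 ho]
      · rw [if_neg (by omega), if_neg (by omega)]
        ring
    have h3 : ¬ 3 ≤ (g n).1 := by omega
    rw [e, Xl_win h3, Xl_win h3, win (by omega)]
  rw [if_neg h1]
  by_cases h2 : (g n).1 = 2
  · rw [if_pos h2]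
    have e : Bl g R n t p * Xl g R (g n).2.2 t p =
        ((if p = 2 * n + 1 then (1 : ZMod 2) else 0) + (if p = R - 1 - 2 * n then 1 else 0)) *
        ev g n t := by
      unfold Bl
      by_cases h3 : p = 2 * n + 1
      · rw [if_pos ⟨h2, Or.inl h3⟩, if_pos h3, if_neg (by omega), Xl_ready (by omega) (by omega),
          ← ev_mul h2 ho]
        ring
      · by_cases h4 : p = R - 1 - 2 * n
        · rw [if_pos ⟨h2, Or.inr h4⟩, if_neg h3, if_pos h4, Xl_ready (by omega) (by omega),
            ← ev_mul h2 ho]
          ring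
        · rw [if_neg (by omega), if_neg h3, if_neg h4]
          ring
    have h3 : ¬ 3 ≤ (g n).1 := by omega
    rw [e, Xl_win h3, Xl_win h3, win (by omega)]
  rw [if_neg h2]
  have h3 : 3 ≤ (g n).1 := by omega
  have e : (if p = R - 1 - 2 * n then (1 : ZMod 2) else 0) * Xl g R (g n).2.1 t p =
      if p = R - 1 - 2 * n then ev g (g n).2.1 t else 0 := by
    by_cases h4 : p = R - 1 - 2 * n
    · rw [if_pos h4, if_pos h4, Xl_ready (by omega) (by omega), one_mul]
    · rw [if_neg h4, if_neg h4, zero_mul]
  rw [e]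
  unfold Xl
  rw [if_pos h3, if_pos h3]
  rcases lt_trichotomy p (R - 1 - 2 * n) with h4 | h4 | h4
  · rw [if_pos (by omega), if_pos (by omega), if_neg (by omega), add_zero]
  · rw [if_neg (by omega), if_pos (by omega), if_pos h4, ev_int h3 ho, ev_int h3 ho,
      Finset.sum_range_succ]
  · rw [if_neg (by omega), if_neg (by omega), if_neg (by omega), add_zero]

theorem stepB {n s : ℕ} (hn : 4 * n + 4 ≤ R) (hR : Even R) (ho : Ok g n) :
    Bl g R n (s / R) (s % R + 1) = Bl g R n (s / R) (s % R) +
      (if (g n).1 = 2 then (pl R (2 * n) s + pl R (2 * n + 1) s + (pl R (R - 2 - 2 * n) s +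
        pl R (R - 1 - 2 * n) s)) * Xl g R (g n).2.1 (s / R) (s % R) else 0) := by
  generalize ht : s / R = t
  unfold pl
  generalize hp : s % R = p
  obtain ⟨m, hm⟩ := hR
  by_cases h2 : (g n).1 = 2
  swap
  · unfold Bl
    rw [if_neg (by omega), if_neg (by omega), if_neg h2, add_zero]
  have h12 := ho (by omega)
  rw [if_pos h2]
  unfold Bl
  by_cases h3 : p = 2 * n
  · rw [if_pos ⟨h2, by omega⟩, if_neg (by omega), if_pos h3, if_neg (by omega), if_neg (by omega),
      if_neg (by omega), Xl_ready (by omega) (by omega)]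
    ring
  by_cases h4 : p = 2 * n + 1
  · rw [if_neg (by omega), if_pos ⟨h2, by omega⟩, if_neg (by omega), if_pos h4, if_neg (by omega),
      if_neg (by omega), Xl_ready (by omega) (by omega)]
    ring_nf
    rw [← CharTwo.add_self_eq_zero (ev g (g n).2.1 t)]
    ring
  by_cases h5 : p = R - 2 - 2 * n
  · rw [if_pos ⟨h2, by omega⟩, if_neg (by omega), if_neg (by omega), if_neg (by omega), if_pos h5,
      if_neg (by omega), Xl_ready (by omega) (by omega)]
    ring
  by_cases h6 : p = R - 1 - 2 * n
  · rw [if_neg (by omega), if_pos ⟨h2, by omega⟩, if_neg (by omega), if_neg (by omega),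
      if_neg (by omega), if_pos h6, Xl_ready (by omega) (by omega)]
    ring_nf
    rw [← CharTwo.add_self_eq_zero (ev g (g n).2.1 t)]
    ring
  rw [if_neg (by omega), if_neg (by omega), if_neg (by omega), if_neg (by omega),
    if_neg (by omega), if_neg (by omega)]
  ring

theorem quad_comp (s i : ℕ) :
    quad (comp R K g) i (Ex g R K s) =
      (if 0 < i ∧ i < R then Ex g R K s (i - 1) * Ex g R K s 0 else 0) +
      (if R ≤ i ∧ (i - R) / 2 < K then quad (lineSys R ((i - R) / 2) (g ((i - R) / 2))) i
        (Ex g R K s) else 0) := by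
  unfold comp
  rw [quad_append, quad_clock, quad_flatMap]
  congr 1
  by_cases h : R ≤ i ∧ (i - R) / 2 < K
  · rw [if_pos h, Finset.sum_eq_single ((i - R) / 2)]
    · intro b _ hb
      exact quad_line_ne _ _ (by omega) (by omega)
    · intro h1
      exact absurd (Finset.mem_range.2 h.2) h1
  · rw [if_neg h]
    refine Finset.sum_eq_zero fun n hn => ?_
    have := Finset.mem_range.1 hn
    exact quad_line_ne _ _ (by omega) (by omega)

/-- The system simulates the program. -/
theorem iterate_eq {r : ℕ} (hR : R = 2 ^ r) (hK : 4 * K + 4 ≤ R) (ho : ∀ n < K, Ok g n) (s : ℕ) :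
    (step (comp R K g))^[s] (start []) = Ex g R K s := by
  have hev : Even R := by
    rw [hR]
    refine (Nat.even_pow.2 ⟨even_two, ?_⟩)
    rintro rfl
    rw [pow_zero] at hR
    omega
  induction s with
  | zero =>
    funext i
    rw [Function.iterate_zero, id_eq]
    unfold start Ex
    by_cases h1 : i < R
    · rw [if_pos h1]
      by_cases h2 : i = 0
      · subst h2
        simp
      · rw [if_neg (by simp [h2]), Nat.choose_eq_zero_of_lt (by omega)]
        simp
    · rw [if_neg h1, if_neg (by simp; omega)]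
      split_ifs with h2 h3
      · rfl
      · unfold Xl
        rw [Nat.zero_div, Nat.zero_mod]
        by_cases h4 : 3 ≤ (g ((i - R) / 2)).1
        · rw [if_pos h4, if_pos (by omega), ev_int h4 (ho _ (by omega)), Finset.sum_range_zero]
        · rw [if_neg h4, if_neg (by omega)]
      · unfold Bl
        rw [Nat.zero_div, Nat.zero_mod, if_neg (by omega)]
  | succ s ih =>
    rw [Function.iterate_succ_apply', ih]
    funext i
    unfold step
    rw [quad_comp]
    by_cases h1 : i < R
    · rw [if_neg (by omega : ¬ (R ≤ i ∧ (i - R) / 2 < K)), add_zero]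
      have hE : ∀ s i, i < R → Ex g R K s i = (Nat.choose s i : ℕ) := by
        intro s i hi
        unfold Ex
        rw [if_pos hi]
      rw [hE _ _ h1, hE _ _ h1, hE _ 0 (by omega)]
      cases i with
      | zero => simp
      | succ i =>
        rw [if_pos (by omega), hE _ _ (by omega), Nat.choose_succ_succ]
        simp
        ring
    · rw [if_neg (by omega : ¬ (0 < i ∧ i < R)), zero_add]
      by_cases h2 : (i - R) / 2 < K
      · rw [if_pos ⟨by omega, h2⟩]
        have hx : ∀ k < R, Ex g R K s k = (Nat.choose s k : ℕ) := by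
          intro k hk
          unfold Ex
          rw [if_pos hk]
        obtain ⟨n, hn⟩ : ∃ n, n = (i - R) / 2 := ⟨_, rfl⟩
        rw [← hn] at h2 ⊢
        by_cases h3 : (i - R) % 2 = 1
        · have hi : i = R + 2 * n + 1 := by omega
          subst hi
          rw [Ex_X h2, Ex_X h2, quad_line_X hR (by omega) hx, Xl_next (by omega),
            stepX (by omega) (ho n h2)]
          congr 1
          by_cases h4 : (g n).1 = 0
          · rw [if_pos h4, if_pos h4]
          have h5 := ho n h2 h4
          rw [if_neg h4, if_neg h4, Ex_X (by omega), Ex_X (by omega), Ex_B h2]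
        · have hi : i = R + 2 * n := by omega
          subst hi
          rw [Ex_B h2, Ex_B h2, quad_line_B hR (by omega) hx, Bl_next (by omega),
            stepB (by omega) hev (ho n h2)]
          congr 1
          by_cases h4 : (g n).1 = 2
          · have h5 := ho n h2 (by omega)
            rw [if_pos h4, if_pos h4, Ex_X (by omega)]
          · rw [if_neg h4, if_neg h4]
      · rw [if_neg (by omega), add_zero]
        unfold Ex
        rw [if_neg h1, if_neg h1, if_pos (by omega), if_pos (by omega)]

/-- The value of an integral at the beginning of a logical time. -/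
theorem iterate_out {r : ℕ} (hR : R = 2 ^ r) (hK : 4 * K + 4 ≤ R) (ho : ∀ n < K, Ok g n)
    {n : ℕ} (hn : n < K) (hi : 3 ≤ (g n).1) (t : ℕ) :
    (step (comp R K g))^[R * t] (start []) (R + 2 * n + 1) = ev g n t := by
  rw [iterate_eq hR hK ho, Ex_X hn, Nat.mul_div_cancel_left _ (by omega), Nat.mul_mod_right]
  unfold Xl
  rw [if_pos hi, if_pos (by omega)]

end Sim

/-- The system is triangular. -/
theorem comp_triangular {g : ℕ → ℕ × ℕ × ℕ} {R K : ℕ} (hR : 0 < R) (ho : ∀ n < K, Ok g n) :
    Triangular (comp R K g) := by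
  have hph : ∀ {k p : ℕ}, k ∈ ph R p → k < R := by
    intro k p hk
    unfold ph at hk
    exact List.mem_range.1 (List.mem_filter.1 hk).1
  intro p hp
  unfold comp clock at hp
  rw [List.mem_append, List.mem_map, List.mem_flatMap] at hp
  rcases hp with ⟨k, _, rfl⟩ | ⟨n, hn, hp⟩
  · simp
  · have hn := List.mem_range.1 hn
    unfold lineSys at hp
    split_ifs at hp with h0 h1 h2
    · obtain ⟨k, hk, rfl⟩ := List.mem_map.1 hp
      have hk : k < R := by
        rcases List.mem_append.1 hk with hk | hk <;> exact hph hk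
      simp only
      omega
    · have h12 := ho n hn h0
      rcases List.mem_append.1 hp with hp | hp <;>
      · obtain ⟨k, hk, rfl⟩ := List.mem_map.1 hp
        have hk : k < R := by
          rcases List.mem_append.1 hk with hk | hk <;> exact hph hk
        simp only
        omega
    · have h12 := ho n hn h0
      rcases List.mem_cons.1 hp with rfl | hp
      · simp only
        omega
      · obtain ⟨k, hk, rfl⟩ := List.mem_map.1 hp
        have hk : k < R := by
          rcases List.mem_append.1 hk with hk | hk <;>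
            rcases List.mem_append.1 hk with hk | hk <;> exact hph hk
        simp only
        omega
    · have h12 := ho n hn h0
      obtain ⟨k, hk, rfl⟩ := List.mem_map.1 hp
      have hk : k < R := hph hk
      simp only
      omega

end Pool.Agent.V7H82.QI
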