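import Pool.Agent.V7H82.QI.Lev
import Pool.Agent.V7H82.QI.Sim
import Pool.Agent.H656R2.AK.TQPoly

/-!
# The reduction
-/

set_option autoImplicit false

namespace Pool.Agent.V7H82.QI

open Pool.Agent.H656R2.AK Pool.Agent.H623R2.PS Pool.Agent.NPC

attribute [local fun_prop] NPC.Poly.natBits

section Poly

variable {α : Type} [TEnc α]

theorem poly_sup {p k : α → ℕ} (hp : NPC.Poly p) (hk : NPC.Poly k) :
    NPC.Poly (fun a => sup (p a) (k a)) := by
  unfold sup
  fun_prop

theorem poly_ph {R p : α → ℕ} (hR : UPoly R) (hp : NPC.Poly p) :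
    NPC.Poly (fun a => ph (R a) (p a)) := by
  unfold ph
  refine NPC.Poly.filter (l := fun a => List.range (R a)) (p := fun a k => sup (p a) k) hR.range ?_
  exact poly_sup (hp.comp (NPC.Poly.fst NPC.Poly.id)) (NPC.Poly.snd NPC.Poly.id)

theorem poly_clock {R : α → ℕ} (hR : UPoly R) : NPC.Poly (fun a => clock (R a)) := by
  have h : UPoly (fun a => R a - 1) :=
    UPoly.of_le (NPC.Poly.sub hR.toPoly (NPC.Poly.const 1)) hR fun a => Nat.sub_le _ _
  have h1 := h.range
  unfold clock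
  fun_prop

theorem poly_lineSys {R n : α → ℕ} {c : α → ℕ × ℕ × ℕ} (hR : UPoly R) (hn : NPC.Poly n)
    (hc : NPC.Poly c) : NPC.Poly (fun a => lineSys (R a) (n a) (c a)) := by
  have hR' := hR.toPoly
  have h1 : NPC.Poly (fun a => ph (R a) (2 * n a + 1)) := poly_ph hR (by fun_prop)
  have h2 : NPC.Poly (fun a => ph (R a) (R a - 1 - 2 * n a)) := poly_ph hR (by fun_prop)
  have h3 : NPC.Poly (fun a => ph (R a) (2 * n a)) := poly_ph hR (by fun_prop)
  have h4 : NPC.Poly (fun a => ph (R a) (R a - 2 - 2 * n a)) := poly_ph hR (by fun_prop)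
  unfold lineSys
  fun_prop

theorem poly_comp {R K : α → ℕ} {g : α → ℕ → ℕ × ℕ × ℕ} (hR : UPoly R) (hK : UPoly K)
    (hg : NPC.Poly (fun p : α × ℕ => g p.1 p.2)) :
    NPC.Poly (fun a => comp (R a) (K a) (g a)) := by
  have h1 := hK.range
  have h2 : NPC.Poly (fun p : α × ℕ => lineSys (R p.1) p.2 (g p.1 p.2)) :=
    poly_lineSys (R := fun p : α × ℕ => R p.1) (hR.comp (NPC.Poly.fst NPC.Poly.id))
      (NPC.Poly.snd NPC.Poly.id) hg
  exact NPC.Poly.append (poly_clock hR) (NPC.Poly.flatMap (l := fun a => List.range (K a))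
    (F := fun a n => lineSys (R a) n (g a n)) h1 h2)

theorem poly_toks : NPC.Poly toks := by
  have h : NPC.Poly (fun Q : QF => Q.2.flatMap fun c => c.map (fun l => (true, l.1, l.2)) ++
      [(false, false, 0)]) := by
    fun_prop
  exact h

theorem upoly_b0 : UPoly b0 :=
  ((UPoly.const 4).mul (UPoly.length (NPC.Poly.fst NPC.Poly.id))).add (UPoly.const 4)

theorem upoly_b1 : UPoly b1 :=
  upoly_b0.add ((UPoly.const 3).mul (UPoly.length poly_toks))

theorem upoly_numLines : UPoly numLines :=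
  (upoly_b1.add ((UPoly.const 6).mul (UPoly.length (NPC.Poly.fst NPC.Poly.id)))).add
    (UPoly.const 1)

theorem poly_tokLine {N B o : α → ℕ} {tk : α → Bool × Bool × ℕ} (hN : NPC.Poly N)
    (hB : NPC.Poly B) (ho : NPC.Poly o) (htk : NPC.Poly tk) :
    NPC.Poly (fun a => tokLine (N a) (B a) (o a) (tk a)) := by
  unfold tokLine
  fun_prop

theorem poly_levLine {q : α → Bool} {l B o : α → ℕ} (hq : NPC.Poly q) (hl : NPC.Poly l)
    (hB : NPC.Poly B) (ho : NPC.Poly o) :
    NPC.Poly (fun a => levLine (q a) (l a) (B a) (o a)) := by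
  unfold levLine
  fun_prop

theorem poly_prog : NPC.Poly (fun p : QF × ℕ => prog p.1 p.2) := by
  have h0 : NPC.Poly (fun p : QF × ℕ => b0 p.1) := upoly_b0.toPoly.comp (NPC.Poly.fst NPC.Poly.id)
  have h1 : NPC.Poly (fun p : QF × ℕ => b1 p.1) := upoly_b1.toPoly.comp (NPC.Poly.fst NPC.Poly.id)
  have ht : NPC.Poly (fun p : QF × ℕ => toks p.1) := poly_toks.comp (NPC.Poly.fst NPC.Poly.id)
  have h2 : NPC.Poly (fun p : QF × ℕ => tokLine p.1.1.length (p.2 - (p.2 - b0 p.1) % 3)
      ((p.2 - b0 p.1) % 3) ((toks p.1).getD ((p.2 - b0 p.1) / 3) (false, false, 0))) :=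
    poly_tokLine (by fun_prop) (by fun_prop) (by fun_prop) (by fun_prop)
  have h3 : NPC.Poly (fun p : QF × ℕ =>
      levLine (p.1.1.getD (p.1.1.length - 1 - (p.2 - b1 p.1) / 6) false) ((p.2 - b1 p.1) / 6)
        (p.2 - (p.2 - b1 p.1) % 6) ((p.2 - b1 p.1) % 6)) :=
    poly_levLine (by fun_prop) (by fun_prop) (by fun_prop) (by fun_prop)
  unfold prog
  fun_prop

/-- The exponent of the length of a round. -/
def rr (Q : QF) : ℕ := (4 * numLines Q + 4).size

/-- powers of two -/
theorem poly_two_pow {w : α → ℕ} (hw : UPoly w) : NPC.Poly (fun a => 2 ^ w a) := by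
  have h := poly_replicate hw false
  have h2 : NPC.Poly (fun a => valB (List.replicate (w a) false ++ [true])) :=
    NPC.Poly.valBits (by fun_prop)
  refine h2.congr fun a => ?_
  rw [valB_replicate_false]
  simp

theorem upoly_rr : UPoly rr := by
  have h : NPC.Poly (fun Q => 4 * numLines Q + 4) :=
    (((UPoly.const 4).mul upoly_numLines).add (UPoly.const 4)).toPoly
  have h1 := UPoly.length h.natBits
  refine h1.congr fun Q => ?_
  change List.replicate (4 * numLines Q + 4).bits.length () = _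
  rw [Nat.size_eq_bits_len]
  rfl

theorem two_pow_size_le (n : ℕ) (hn : 0 < n) : 2 ^ n.size ≤ 2 * n := by
  have h1 : n.size - 1 < n.size := by
    have := Nat.size_pos.2 hn
    omega
  have h2 := Nat.lt_size.1 h1
  have h3 : n.size = n.size - 1 + 1 := by omega
  rw [h3, pow_succ]
  omega

theorem upoly_RR : UPoly (fun Q => 2 ^ rr Q) := by
  refine UPoly.of_le (poly_two_pow upoly_rr)
    ((UPoly.const 2).mul (((UPoly.const 4).mul upoly_numLines).add (UPoly.const 4))) fun Q => ?_
  exact two_pow_size_le _ (by omega)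

end Poly

/-- The instance of a quantified formula. -/
def instQ (Q : QF) : Sys × ℕ × ℕ :=
  (comp (2 ^ rr Q) (numLines Q) (prog Q), rr Q + 2 * Q.1.length,
    2 ^ rr Q + 2 * (b1 Q + 6 * Q.1.length) + 1)

theorem poly_instQ : NPC.Poly instQ := by
  have h1 := upoly_RR.toPoly
  have h2 := upoly_rr.toPoly
  have h3 := upoly_b1.toPoly
  have h4 : NPC.Poly (fun Q => comp (2 ^ rr Q) (numLines Q) (prog Q)) :=
    poly_comp upoly_RR upoly_numLines poly_prog
  have h5 : NPC.Poly (fun Q : QF => (comp (2 ^ rr Q) (numLines Q) (prog Q),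
      rr Q + 2 * Q.1.length, 2 ^ rr Q + 2 * (b1 Q + 6 * Q.1.length) + 1)) := by
    fun_prop
  exact h5

theorem instQ_spec (Q : QF) (hwf : QFwf Q) : Triangular (instQ Q).1 ∧
    (step (instQ Q).1)^[2 ^ (instQ Q).2.1] (start []) (instQ Q).2.2 =
      if evq Q.1 (fun v => evc v Q.2) = true then 1 else 0 := by
  have hok := prog_ok Q
  have hR : 4 * numLines Q + 4 ≤ 2 ^ rr Q := (Nat.lt_size_self _).le
  have hnl : numLines Q = b1 Q + 6 * Q.1.length + 1 := rfl
  refine ⟨comp_triangular (by positivity) hok, ?_⟩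
  have hp : prog Q (b1 Q + 6 * Q.1.length) = (3, b1 Q + 6 * Q.1.length - 1, 0) := by
    have p0 := prog_lev Q (l := Q.1.length) (o := 0) (by omega)
    rw [add_zero] at p0
    rw [p0]
    simp [levLine]
  have h := iterate_out (g := prog Q) (R := 2 ^ rr Q) (K := numLines Q) rfl hR hok
    (n := b1 Q + 6 * Q.1.length) (by omega) (by rw [hp]) (4 ^ Q.1.length)
  rw [ev_prog Q hwf] at h
  rw [← h]
  have h4 : (2 : ℕ) ^ (rr Q + 2 * Q.1.length) = 2 ^ rr Q * 4 ^ Q.1.length := by
    rw [pow_add, pow_mul]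
    norm_num
  unfold instQ
  simp only
  rw [h4]

end Pool.Agent.V7H82.QI
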