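import Pool.Agent.V7H82.QI.Lin

/-!
# Clocks with one monomial per variable

The variable with the mask `M` has at the time `s` the value `binom(s + c, M)` modulo two, that is,
it is `1` if and only if all bits of `M` occur in `s + c`.
-/

set_option autoImplicit false

namespace Pool.Agent.V7H82.QI

/-- Binomial coefficients modulo two. -/
def bc (s k : ℕ) : ZMod 2 := (Nat.choose s k : ℕ)

theorem bc_zero (s : ℕ) : bc s 0 = 1 := by
  unfold bc
  simp

theorem bc_two (s k b : ℕ) (hb : b < 2) : bc s (2 * k + b) = bc (s / 2) k * bc (s % 2) b :=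
  choose_two s k b hb

theorem bc_even (s k : ℕ) : bc s (2 * k) = bc (s / 2) k := by
  have h := bc_two s k 0 (by omega)
  rw [add_zero, bc_zero, mul_one] at h
  exact h

theorem bc_odd (s k : ℕ) : bc s (2 * k + 1) = bc (s / 2) k * (if s % 2 = 1 then 1 else 0) := by
  rw [bc_two s k 1 (by omega)]
  congr 1
  rcases (by omega : s % 2 = 0 ∨ s % 2 = 1) with h | h <;> rw [h] <;> simp [bc]

theorem bc_split (m : ℕ) : ∀ s Y, bc s (2 ^ m - 1 + 2 ^ (m + 1) * Y) =
    bc s (2 ^ m - 1) * bc s (2 ^ (m + 1) * Y) := by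
  induction m with
  | zero =>
    intro s Y
    simp only [pow_zero, Nat.sub_self, zero_add, bc_zero, one_mul]
  | succ m ih =>
    intro s Y
    have hp : 0 < 2 ^ m := by positivity
    have e1 : 2 ^ (m + 1) - 1 + 2 ^ (m + 1 + 1) * Y =
        2 * (2 ^ m - 1 + 2 ^ (m + 1) * Y) + 1 := by
      have : 2 ^ (m + 1 + 1) * Y = 2 * (2 ^ (m + 1) * Y) := by ring
      rw [this, pow_succ]
      omega
    have e2 : 2 ^ (m + 1) - 1 = 2 * (2 ^ m - 1) + 1 := by
      rw [pow_succ]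
      omega
    have e3 : 2 ^ (m + 1 + 1) * Y = 2 * (2 ^ (m + 1) * Y) := by ring
    rw [e1, bc_odd, ih, e2, bc_odd, e3, bc_even]
    ring

/-- The recursion of the clock variables. -/
theorem bc_rec (s m Y : ℕ) : bc (s + 1) (2 ^ m + 2 ^ (m + 1) * Y) =
    bc s (2 ^ m + 2 ^ (m + 1) * Y) + bc s (2 ^ m - 1) * bc s (2 ^ (m + 1) * Y) := by
  have hp : 0 < 2 ^ m := by positivity
  have e : 2 ^ m + 2 ^ (m + 1) * Y = (2 ^ m - 1 + 2 ^ (m + 1) * Y) + 1 := by omega
  rw [← bc_split, e]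
  unfold bc
  rw [Nat.choose_succ_succ, Nat.cast_add, add_comm]

theorem bc_all (r : ℕ) : ∀ s, bc s (2 ^ r - 1) = if s % 2 ^ r = 2 ^ r - 1 then 1 else 0 := by
  induction r with
  | zero =>
    intro s
    rw [pow_zero, Nat.mod_one, Nat.sub_self, if_pos rfl]
    exact bc_zero s
  | succ r ih =>
    intro s
    have hp : 0 < 2 ^ r := by positivity
    have e2 : 2 ^ (r + 1) - 1 = 2 * (2 ^ r - 1) + 1 := by
      rw [pow_succ]
      omega
    have e3 : s % 2 ^ (r + 1) = s % 2 + 2 * (s / 2 % 2 ^ r) := by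
      rw [pow_succ', Nat.mod_mul]
    rw [e2, bc_odd, ih, e3]
    have h4 : s / 2 % 2 ^ r < 2 ^ r := Nat.mod_lt _ hp
    generalize s / 2 % 2 ^ r = a at h4 ⊢
    by_cases h5 : a = 2 ^ r - 1 <;> by_cases h6 : s % 2 = 1
    · rw [if_pos h5, if_pos h6, if_pos (by omega), mul_one]
    · rw [if_neg h6, mul_zero, if_neg (by omega)]
    · rw [if_neg h5, zero_mul, if_neg (by omega)]
    · rw [if_neg h5, zero_mul, if_neg (by omega)]

theorem bc_gap (r : ℕ) : ∀ g < r, ∀ s, bc s (2 ^ r - 1 - 2 ^ g) =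
    if s % 2 ^ r = 2 ^ r - 1 ∨ s % 2 ^ r + 2 ^ g = 2 ^ r - 1 then 1 else 0 := by
  induction r with
  | zero => intro g hg; omega
  | succ r ih =>
    intro g hg s
    have hp : 0 < 2 ^ r := by positivity
    have e3 : s % 2 ^ (r + 1) = s % 2 + 2 * (s / 2 % 2 ^ r) := by
      rw [pow_succ', Nat.mod_mul]
    have h4 : s / 2 % 2 ^ r < 2 ^ r := Nat.mod_lt _ hp
    rw [e3]
    cases g with
    | zero =>
      have e2 : 2 ^ (r + 1) - 1 - 2 ^ 0 = 2 * (2 ^ r - 1) := by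
        rw [pow_succ, pow_zero]
        omega
      rw [e2, bc_even, bc_all, pow_zero, pow_succ]
      generalize s / 2 % 2 ^ r = a at h4 ⊢
      by_cases h5 : a = 2 ^ r - 1
      · rw [if_pos h5, if_pos (by omega)]
      · rw [if_neg h5, if_neg (by omega)]
    | succ g =>
      have hg' : 2 ^ g < 2 ^ r := Nat.pow_lt_pow_right (by omega) (by omega)
      have e2 : 2 ^ (r + 1) - 1 - 2 ^ (g + 1) = 2 * (2 ^ r - 1 - 2 ^ g) + 1 := by
        rw [pow_succ, pow_succ]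
        omega
      rw [e2, bc_odd, ih g (by omega), pow_succ, pow_succ]
      generalize s / 2 % 2 ^ r = a at h4 ⊢
      generalize 2 ^ g = G at hg' ⊢
      generalize 2 ^ r = R at h4 hp hg' ⊢
      by_cases h6 : s % 2 = 1
      · rw [if_pos h6, mul_one]
        by_cases h5 : a = R - 1 ∨ a + G = R - 1
        · rw [if_pos h5, if_pos (by omega)]
        · rw [if_neg h5, if_neg (by omega)]
      · rw [if_neg h6, mul_zero, if_neg (by omega)]

theorem bc_gap2 {r g : ℕ} (hg : g + 1 < r) (s : ℕ) : bc s (2 ^ r - 2 - 2 ^ (g + 1)) =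
    if s % 2 ^ r = 2 ^ r - 1 ∨ s % 2 ^ r = 2 ^ r - 2 ∨ s % 2 ^ r + 2 ^ (g + 1) = 2 ^ r - 1 ∨
      s % 2 ^ r + 2 ^ (g + 1) = 2 ^ r - 2 then 1 else 0 := by
  obtain ⟨r, rfl⟩ : ∃ r', r = r' + 1 := ⟨r - 1, by omega⟩
  have hp : 0 < 2 ^ r := by positivity
  have e3 : s % 2 ^ (r + 1) = s % 2 + 2 * (s / 2 % 2 ^ r) := by
    rw [pow_succ', Nat.mod_mul]
  have h4 : s / 2 % 2 ^ r < 2 ^ r := Nat.mod_lt _ hp
  have hg' : 2 ^ g < 2 ^ r := Nat.pow_lt_pow_right (by omega) (by omega)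
  have e2 : 2 ^ (r + 1) - 2 - 2 ^ (g + 1) = 2 * (2 ^ r - 1 - 2 ^ g) := by
    rw [pow_succ, pow_succ]
    omega
  rw [e3, e2, bc_even, bc_gap r g (by omega), pow_succ, pow_succ]
  generalize s / 2 % 2 ^ r = a at h4 ⊢
  generalize 2 ^ g = G at hg' ⊢
  generalize 2 ^ r = R at h4 hp hg' ⊢
  by_cases h5 : a = R - 1 ∨ a + G = R - 1
  · rw [if_pos h5, if_pos (by omega)]
  · rw [if_neg h5, if_neg (by omega)]

end Pool.Agent.V7H82.QI
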