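import Pool.Agent.V7H82.QI.TSim

/-!
# The simulation of programs with data
-/

set_option autoImplicit false

namespace Pool.Agent.V7H82.QI

theorem next_time {R : ℕ} (hR : 0 < R) (f : ℕ → ℕ → ZMod 2) (hf : ∀ t, f t R = f (t + 1) 0)
    (s : ℕ) : f ((s + 1) / R) ((s + 1) % R) = f (s / R) (s % R + 1) := by
  by_cases h : s % R + 1 = R
  · have h2 : (s + 1) % R = 0 := by
      rw [← Nat.mod_add_mod, h, Nat.mod_self]
    have h1 : (s + 1) / R = s / R + 1 := by
      rw [Nat.succ_div, if_pos (by rw [Nat.dvd_iff_mod_eq_zero, h2])]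
    rw [h1, h2, h, hf]
  · have h0 := Nat.mod_lt s hR
    have h2 : (s + 1) % R = s % R + 1 := by
      rw [← Nat.mod_add_mod, Nat.mod_eq_of_lt (by omega)]
    have h1 : (s + 1) / R = s / R := by
      rw [Nat.succ_div, if_neg (by
        rw [Nat.dvd_iff_mod_eq_zero, h2]
        omega), add_zero]
    rw [h1, h2]

section Inv

variable (g : ℕ → ℕ × ℕ × ℕ) (inp : ℕ → Bool) (K : ℕ)

/-- The value of the wire `xw K n` at the phase `p` of the logical time `t`. -/
noncomputable def Xt (n t p : ℕ) : ZMod 2 :=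
  if (g n).1 = 0 then (if inp n = true then 1 else 0)
  else if 3 ≤ (g n).1 then (if p ≤ bb K n then tv g inp n t else tv g inp n (t + 1))
  else if 2 * n + 1 < p ∧ p ≤ bb K n then tv g inp n t else 0

/-- The value of the wire `bw K n`. -/
noncomputable def Bt (n t p : ℕ) : ZMod 2 :=
  (if (g n).1 = 1 then 1 else 0) +
    (if p = 2 * n + 1 ∨ p = bb K n then tv g inp (g n).2.1 t else 0)

/-- The state of the system after `s` steps. -/
structure Inv (s : ℕ) (x : ℕ → ZMod 2) : Prop where
  clk : ∀ n < K, ∀ u d, Valid K n u d → x (cw K n u d) = bc (s + cc K n) (mask K n u d)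
  X : ∀ n < K, x (xw K n) = Xt g inp K n (s / 2 ^ (K + 4)) (s % 2 ^ (K + 4))
  B : ∀ n < K, (g n).1 ≠ 0 → (g n).1 ≤ 2 →
    x (bw K n) = Bt g inp K n (s / 2 ^ (K + 4)) (s % 2 ^ (K + 4))

variable {g inp K}

/-- an operand is ready at the phases of the later lines -/
theorem Xt_ready {j n t p : ℕ} (hn : n < K) (hj : j < n) (h1 : 2 * n ≤ p) (h2 : p ≤ bb K n) :
    Xt g inp K j t p = tv g inp j t := by
  have h3 := bb_anti hj hn
  unfold Xt
  by_cases h0 : (g j).1 = 0
  · rw [if_pos h0, tv_data h0]
  · rw [if_neg h0]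
    by_cases h : 3 ≤ (g j).1
    · rw [if_pos h, if_pos (by omega)]
    · rw [if_neg h, if_pos (by omega)]

theorem Xt_wrap {n : ℕ} (hn : n < K) (t : ℕ) :
    Xt g inp K n t (2 ^ (K + 4)) = Xt g inp K n (t + 1) 0 := by
  have h1 := bb_le hn
  unfold Xt
  by_cases h0 : (g n).1 = 0
  · rw [if_pos h0, if_pos h0]
  · rw [if_neg h0, if_neg h0]
    by_cases h : 3 ≤ (g n).1
    · rw [if_pos h, if_pos h, if_neg (by omega), if_pos (by omega)]
    · rw [if_neg h, if_neg h, if_neg (by omega), if_neg (by omega)]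

theorem Bt_wrap {n : ℕ} (hn : n < K) (t : ℕ) :
    Bt g inp K n t (2 ^ (K + 4)) = Bt g inp K n (t + 1) 0 := by
  have h1 := bb_le hn
  have h2 := bb_ge hn
  have e1 : (if 2 ^ (K + 4) = 2 * n + 1 ∨ 2 ^ (K + 4) = bb K n then tv g inp (g n).2.1 t else 0) =
      0 := if_neg (by omega)
  have e2 : (if 0 = 2 * n + 1 ∨ 0 = bb K n then tv g inp (g n).2.1 (t + 1) else 0) = 0 :=
    if_neg (by omega)
  unfold Bt
  rw [e1, e2]

theorem Xt_win {n t p : ℕ} (h0 : (g n).1 ≠ 0) (h : ¬ 3 ≤ (g n).1) :
    Xt g inp K n t p = if 2 * n + 1 < p ∧ p ≤ bb K n then tv g inp n t else 0 := by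
  unfold Xt
  rw [if_neg h0, if_neg h]

theorem step_X {n t p : ℕ} (hn : n < K) (ho : Ok g n) (h0 : (g n).1 ≠ 0) :
    Xt g inp K n t (p + 1) = Xt g inp K n t p +
      (if (g n).1 = 1 then (if p = 2 * n + 1 ∨ p = bb K n then 1 else 0) * Bt g inp K n t p
      else if (g n).1 = 2 then Bt g inp K n t p * Xt g inp K (g n).2.2 t p
      else (if p = bb K n then 1 else 0) * Xt g inp K (g n).2.1 t p) := by
  have h12 := ho h0
  have h9 := bb_ge hn
  by_cases h1 : (g n).1 = 1
  · rw [if_pos h1, Xt_win h0 (by omega), Xt_win h0 (by omega), win (by omega)]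
    congr 1
    unfold Bt
    rw [if_pos h1]
    by_cases h3 : p = 2 * n + 1
    · rw [if_pos h3, if_neg (by omega), if_pos (Or.inl h3), if_pos (Or.inl h3), tv_not h1 ho]
      ring
    · by_cases h4 : p = bb K n
      · rw [if_neg h3, if_pos h4, if_pos (Or.inr h4), if_pos (Or.inr h4), tv_not h1 ho]
        ring
      · rw [if_neg h3, if_neg h4, if_neg (by omega)]
        ring
  rw [if_neg h1]
  by_cases h2 : (g n).1 = 2
  · rw [if_pos h2, Xt_win h0 (by omega), Xt_win h0 (by omega), win (by omega)]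
    congr 1
    unfold Bt
    rw [if_neg h1]
    by_cases h3 : p = 2 * n + 1
    · rw [if_pos h3, if_neg (by omega), if_pos (Or.inl h3), Xt_ready hn h12.2 (by omega) (by omega),
        tv_mul h2 ho]
      ring
    · by_cases h4 : p = bb K n
      · rw [if_neg h3, if_pos h4, if_pos (Or.inr h4), Xt_ready hn h12.2 (by omega) (by omega),
          tv_mul h2 ho]
        ring
      · rw [if_neg h3, if_neg h4, if_neg (by omega)]
        ring
  rw [if_neg h2]
  have h3 : 3 ≤ (g n).1 := by omega
  unfold Xt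
  rw [if_neg h0, if_pos h3, if_neg h0, if_pos h3]
  rcases lt_trichotomy p (bb K n) with h4 | h4 | h4
  · rw [if_pos (by omega), if_pos (by omega), if_neg (by omega), zero_mul, add_zero]
  · have h5 : Xt g inp K (g n).2.1 t p = tv g inp (g n).2.1 t :=
      Xt_ready hn h12.1 (by omega) (by omega)
    unfold Xt at h5
    rw [if_neg (by omega), if_pos (by omega), if_pos h4, h5, tv_int h3 ho, tv_int h3 ho,
      Finset.sum_range_succ, one_mul]
  · rw [if_neg (by omega), if_neg (by omega), if_neg (by omega), zero_mul, add_zero]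

theorem step_B {n t p : ℕ} (hn : n < K) (ho : Ok g n) (h0 : (g n).1 ≠ 0) :
    Bt g inp K n t (p + 1) = Bt g inp K n t p +
      (if p = 2 * n ∨ p = 2 * n + 1 ∨ p + 1 = bb K n ∨ p = bb K n then 1 else 0) *
        Xt g inp K (g n).2.1 t p := by
  have h12 := ho h0
  have h9 := bb_ge hn
  unfold Bt
  rw [add_assoc]
  congr 1
  by_cases h3 : p = 2 * n
  · rw [if_pos (by omega), if_neg (by omega), if_pos (by omega),
      Xt_ready hn h12.1 (by omega) (by omega)]
    ring
  by_cases h4 : p = 2 * n + 1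
  · rw [if_neg (by omega), if_pos (by omega), if_pos (by omega),
      Xt_ready hn h12.1 (by omega) (by omega), one_mul]
    exact (CharTwo.add_self_eq_zero _).symm
  by_cases h5 : p + 1 = bb K n
  · rw [if_pos (by omega), if_neg (by omega), if_pos (by omega),
      Xt_ready hn h12.1 (by omega) (by omega)]
    ring
  by_cases h6 : p = bb K n
  · rw [if_neg (by omega), if_pos (by omega), if_pos (by omega),
      Xt_ready hn h12.1 (by omega) (by omega), one_mul]
    exact (CharTwo.add_self_eq_zero _).symm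
  rw [if_neg (by omega), if_neg (by omega), if_neg (by omega)]
  ring

theorem Inv.step {s : ℕ} {x : ℕ → ZMod 2} (ho : ∀ n < K, Ok g n) (h : Inv g inp K s x) :
    Inv g inp K (s + 1) (step (sysT K g) x) := by
  have hR : 0 < 2 ^ (K + 4) := by positivity
  constructor
  · intro n hn u d hv
    have hl := hv.le
    have h1 := cw_lt hn hl.1 hl.2
    have h2 : QI.step (sysT K g) x (cw K n u d) = x (cw K n u d) +
        (if (gateC K n u d).1 = 1 then x (gateC K n u d).2.1 * x (gateC K n u d).2.2 else 0) := by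
      unfold QI.step
      rw [quad_sysT, gate_cw g hn hl.1 hl.2]
      congr 1
      by_cases h3 : (gateC K n u d).1 = 1
      · rw [if_pos ⟨by omega, h3⟩, if_pos h3]
      · rw [if_neg (by tauto), if_neg h3]
    rw [h2, h.clk n hn u d hv, Nat.add_right_comm s 1]
    rcases clock_step hn hv (s + cc K n) with ⟨h3, h4⟩ | ⟨u₁, d₁, u₂, d₂, h3, h4, h5, h6⟩
    · rw [if_neg h4, h3, add_zero]
    · rw [h5, if_pos rfl, h6, h.clk n hn _ _ h3, h.clk n hn _ _ h4]
  · intro n hn
    have h2 : QI.step (sysT K g) x (xw K n) = x (xw K n) +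
        (if (gateV K (g n) n 1).1 = 1 then
          x (gateV K (g n) n 1).2.1 * x (gateV K (g n) n 1).2.2 else 0) := by
      unfold QI.step
      rw [quad_sysT, gate_xw]
      congr 1
      by_cases h3 : (gateV K (g n) n 1).1 = 1
      · rw [if_pos ⟨by unfold xw; omega, h3⟩, if_pos h3]
      · rw [if_neg (by tauto), if_neg h3]
    rw [h2, next_time hR (Xt g inp K n) (Xt_wrap hn), h.X n hn]
    have hsg : sg K n ≤ K + 2 := by unfold sg; omega
    by_cases h0 : (g n).1 = 0
    · have h3 : gateV K (g n) n 1 = (0, 0, 0) := by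
        unfold gateV
        rw [if_pos h0]
      rw [h3, if_neg (by simp), add_zero]
      unfold Xt
      rw [if_pos h0, if_pos h0]
    rw [step_X hn (ho n hn) h0]
    congr 1
    have h12 := ho n hn h0
    unfold gateV
    rw [if_neg h0, if_pos rfl]
    by_cases h1 : (g n).1 = 1
    · rw [if_pos h1, if_pos h1]
      simp only [if_true]
      rw [h.B n hn h0 (by omega), h.clk n hn _ _ (Or.inr ⟨rfl, le_rfl⟩), pulse_D hn]
    rw [if_neg h1, if_neg h1]
    by_cases h3 : (g n).1 = 2
    · rw [if_pos h3, if_pos h3]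
      simp only [if_true]
      rw [h.B n hn h0 (by omega), h.X _ (by omega)]
    · rw [if_neg h3, if_neg h3]
      simp only [if_true]
      rw [h.X _ (by omega), h.clk n hn _ _ (Or.inl ⟨le_rfl, le_rfl⟩), pulse_G hn]
  · intro n hn h0 h3
    have hg : gateV K (g n) n 0 = (1, cw K n (K + 5) (sg K n - 1), xw K (g n).2.1) := by
      unfold gateV
      rw [if_neg h0, if_neg (by omega), if_pos h3]
    have h2 : QI.step (sysT K g) x (bw K n) = x (bw K n) +
        x (cw K n (K + 5) (sg K n - 1)) * x (xw K (g n).2.1) := by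
      unfold QI.step
      rw [quad_sysT, gate_bw, hg, if_pos ⟨by unfold bw; omega, rfl⟩]
    have h12 := ho n hn h0
    rw [h2, next_time hR (Bt g inp K n) (Bt_wrap hn), h.B n hn h0 h3, step_B hn (ho n hn) h0,
      h.X _ (by omega), h.clk n hn _ _ (Or.inr ⟨rfl, by omega⟩), pulse_E hn]

/-- The simulation. -/
theorem Inv.iterate {x : ℕ → ZMod 2} (ho : ∀ n < K, Ok g n) (h : Inv g inp K 0 x) (s : ℕ) :
    Inv g inp K s ((QI.step (sysT K g))^[s] x) := by
  induction s with
  | zero => exact h
  | succ s ih =>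
    rw [Function.iterate_succ_apply']
    exact ih.step ho

/-- The value of an integral at the beginning of a logical time. -/
theorem Inv.out {x : ℕ → ZMod 2} (ho : ∀ n < K, Ok g n) (h : Inv g inp K 0 x) {n : ℕ}
    (hn : n < K) (hi : 3 ≤ (g n).1) (t : ℕ) :
    (QI.step (sysT K g))^[2 ^ (K + 4) * t] x (xw K n) = tv g inp n t := by
  rw [(h.iterate ho _).X n hn, Nat.mul_div_cancel_left _ (by positivity), Nat.mul_mod_right]
  unfold Xt
  rw [if_neg (by omega), if_pos hi, if_pos (by omega)]

/-- The initial value of a wire. -/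
def ini (K : ℕ) (g : ℕ → ℕ × ℕ × ℕ) (inp : ℕ → Bool) (i : ℕ) : Bool :=
  if i = 0 then true
  else if i < vb K then
    sup (mask K ((i - 1) / ll K) ((i - 1) % ll K / (K + 5)) ((i - 1) % ll K % (K + 5)))
      (cc K ((i - 1) / ll K))
  else if (i - vb K) % 2 = 1 then
    decide ((g ((i - vb K) / 2)).1 = 0) && inp ((i - vb K) / 2)
  else decide ((g ((i - vb K) / 2)).1 = 1)

/-- The initial point. -/
def iniL (K : ℕ) (g : ℕ → ℕ × ℕ × ℕ) (inp : ℕ → Bool) : List ℕ :=
  (List.range (vb K + 2 * K)).filter (ini K g inp)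

theorem start_iniL {i : ℕ} (hi : i < vb K + 2 * K) :
    start (iniL K g inp) i = if ini K g inp i = true then 1 else 0 := by
  unfold start iniL
  by_cases h : i = 0
  · subst h
    simp [ini]
  · simp [h, hi]

theorem ini_cw {n u d : ℕ} (hn : n < K) (hu : u ≤ K + 5) (hd : d ≤ K + 4) :
    ini K g inp (cw K n u d) = sup (mask K n u d) (cc K n) := by
  have h1 := cw_lt hn hu hd
  obtain ⟨h2, h3, h4⟩ := cw_dec (K := K) (n := n) hu hd
  have h0 : cw K n u d ≠ 0 := by unfold cw; omega
  unfold ini
  rw [if_neg h0, if_pos h1, h2, h3, h4]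

theorem ini_xw (n : ℕ) : ini K g inp (xw K n) = (decide ((g n).1 = 0) && inp n) := by
  have h0 : 0 < vb K := by unfold vb; omega
  have h1 : xw K n ≠ 0 := by unfold xw; omega
  have h2 : ¬ xw K n < vb K := by unfold xw; omega
  have h3 : (xw K n - vb K) % 2 = 1 := by unfold xw; omega
  have h4 : (xw K n - vb K) / 2 = n := by unfold xw; omega
  unfold ini
  rw [if_neg h1, if_neg h2, if_pos h3, h4]

theorem ini_bw (n : ℕ) : ini K g inp (bw K n) = decide ((g n).1 = 1) := by
  have h0 : 0 < vb K := by unfold vb; omega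
  have h1 : bw K n ≠ 0 := by unfold bw; omega
  have h2 : ¬ bw K n < vb K := by unfold bw; omega
  have h3 : ¬ (bw K n - vb K) % 2 = 1 := by unfold bw; omega
  have h4 : (bw K n - vb K) / 2 = n := by unfold bw; omega
  unfold ini
  rw [if_neg h1, if_neg h2, if_neg h3, h4]

theorem Inv.init (ho : ∀ n < K, Ok g n) : Inv g inp K 0 (start (iniL K g inp)) := by
  constructor
  · intro n hn u d hv
    have hl := hv.le
    have h1 := cw_lt hn hl.1 hl.2
    rw [start_iniL (by omega), zero_add, ini_cw hn hl.1 hl.2]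
    unfold bc
    rw [choose_sup]
  · intro n hn
    rw [start_iniL (by unfold xw; omega), Nat.zero_div, Nat.zero_mod, ini_xw]
    unfold Xt
    by_cases h1 : (g n).1 = 0
    · rw [if_pos h1]
      simp [h1]
    · have h3 : ¬ (decide ((g n).1 = 0) && inp n) = true := by simp [h1]
      rw [if_neg h1, if_neg h3]
      by_cases h2 : 3 ≤ (g n).1
      · rw [if_pos h2, if_pos (Nat.zero_le _), tv_int h2 (ho n hn), Finset.sum_range_zero]
      · have h4 : ¬ (2 * n + 1 < 0 ∧ 0 ≤ bb K n) := by omega
        rw [if_neg h2, if_neg h4]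
  · intro n hn h0 h3
    have h9 := bb_ge hn
    rw [start_iniL (by unfold bw; omega), Nat.zero_div, Nat.zero_mod, ini_bw]
    unfold Bt
    have e2 : (if 0 = 2 * n + 1 ∨ 0 = bb K n then tv g inp (g n).2.1 0 else 0) = 0 :=
      if_neg (by omega)
    rw [e2, add_zero]
    simp

end Inv

/-! ### The shape of the system -/

theorem sysT_nodup (K : ℕ) (g : ℕ → ℕ × ℕ × ℕ) : ((sysT K g).map fun p => p.1).Nodup := by
  have h : (sysT K g).map (fun p => p.1) =
      (List.range (vb K + 2 * K)).filter fun i => decide ((gate K g i).1 = 1) := by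
    unfold sysT
    induction (List.range (vb K + 2 * K)) with
    | nil => rfl
    | cons i l ih =>
      rw [List.flatMap_cons, List.map_append, ih, List.filter_cons]
      by_cases h1 : (gate K g i).1 = 1 <;> simp [h1]
  rw [h]
  exact List.nodup_range.filter _

theorem cw_le {K n u d u' d' : ℕ} (h : u < u') (hd : d ≤ K + 4) : cw K n u d < cw K n u' d' := by
  have h1 : (u + 1) * (K + 5) ≤ u' * (K + 5) := Nat.mul_le_mul_right _ h
  unfold cw
  nlinarith

theorem sysT_triangular {K : ℕ} {g : ℕ → ℕ × ℕ × ℕ} (ho : ∀ n < K, Ok g n) :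
    Triangular (sysT K g) := by
  intro p hp
  unfold sysT at hp
  rw [List.mem_flatMap] at hp
  obtain ⟨i, hi, hp⟩ := hp
  have hi := List.mem_range.1 hi
  by_cases h1 : (gate K g i).1 = 1
  swap
  · rw [if_neg h1] at hp
    simp at hp
  rw [if_pos h1, List.mem_singleton] at hp
  subst hp
  simp only
  unfold gate at h1 ⊢
  by_cases h0 : i = 0
  · rw [if_pos h0] at h1
    simp at h1
  rw [if_neg h0] at h1 ⊢
  by_cases h2 : i < vb K
  · rw [if_pos h2] at h1 ⊢
    have hL : 0 < ll K := by unfold ll; positivity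
    obtain ⟨n, hn⟩ : ∃ n, n = (i - 1) / ll K := ⟨_, rfl⟩
    obtain ⟨u, hu⟩ : ∃ u, u = (i - 1) % ll K / (K + 5) := ⟨_, rfl⟩
    obtain ⟨d, hd⟩ : ∃ d, d = (i - 1) % ll K % (K + 5) := ⟨_, rfl⟩
    have hi' : i = cw K n u d := by
      have e1 := Nat.div_add_mod (i - 1) (ll K)
      have e2 := Nat.div_add_mod ((i - 1) % ll K) (K + 5)
      rw [← hn] at e1
      rw [← hu, ← hd] at e2
      unfold cw
      rw [mul_comm n, mul_comm u]
      omega
    have hd' : d < K + 5 := by
      rw [hd]
      exact Nat.mod_lt _ (by omega)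
    have hnK : n < K := by
      rw [hn, Nat.div_lt_iff_lt_mul hL]
      unfold vb at h2
      omega
    rw [← hn, ← hu, ← hd] at h1 ⊢
    rw [hi']
    clear hn
    have hu5 : u ≤ K + 5 := by
      have h3 : (i - 1) % ll K < (K + 6) * (K + 5) := Nat.mod_lt _ hL
      have h4 : u < K + 6 := by
        rw [hu, Nat.div_lt_iff_lt_mul (by omega)]
        exact h3
      omega
    clear hu hd
    have hsg : sg K n = K + 2 - n := rfl
    unfold gateC at h1 ⊢
    by_cases h3 : u ≤ K + 4
    · rw [if_pos h3] at h1 ⊢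
      by_cases h4 : 1 ≤ d ∧ d ≤ u
      · rw [if_pos h4]
        refine ⟨cw_le (by omega) (by omega), ?_⟩
        unfold cw
        simp only
        omega
      · rw [if_neg h4] at h1
        simp at h1
    · rw [if_neg h3] at h1 ⊢
      by_cases h4 : d = 0
      · rw [if_pos h4]
        exact ⟨cw_le (by omega) (by omega), cw_le (by omega) (by omega)⟩
      · rw [if_neg h4] at h1 ⊢
        by_cases h5 : d ≤ sg K n
        · rw [if_pos h5]
          refine ⟨cw_le (by omega) (by omega), ?_⟩
          have hu6 : u = K + 5 := by omega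
          subst hu6
          unfold cw
          simp only
          omega
        · rw [if_neg h5] at h1
          simp at h1
  · rw [if_neg h2] at h1 ⊢
    obtain ⟨n, hn⟩ : ∃ n, n = (i - vb K) / 2 := ⟨_, rfl⟩
    obtain ⟨o, hoo⟩ : ∃ o, o = (i - vb K) % 2 := ⟨_, rfl⟩
    rw [← hn, ← hoo] at h1 ⊢
    have hnK : n < K := by omega
    have hi' : i = vb K + 2 * n + o := by omega
    have ho2 : o < 2 := by omega
    clear hn hoo
    have h12 := ho n hnK
    unfold Ok at h12
    have hc : ∀ u d, u ≤ K + 5 → d ≤ K + 4 → cw K n u d < i := by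
      intro u d hu hd
      have := cw_lt hnK hu hd
      omega
    have hsg : sg K n ≤ K + 2 := by unfold sg; omega
    generalize g n = c at h1 h12 ⊢
    unfold gateV at h1 ⊢
    by_cases h3 : c.1 = 0
    · rw [if_pos h3] at h1
      simp at h1
    have h12 := h12 h3
    rw [if_neg h3] at h1 ⊢
    by_cases h4 : o = 1
    · rw [if_pos h4] at h1 ⊢
      by_cases h5 : c.1 = 1
      · rw [if_pos h5]
        refine ⟨hc _ _ (by omega) (by omega), ?_⟩
        unfold bw
        simp only
        omega
      · rw [if_neg h5] at h1 ⊢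
        by_cases h6 : c.1 = 2
        · rw [if_pos h6]
          unfold bw xw
          simp only
          omega
        · rw [if_neg h6]
          refine ⟨hc _ _ (by omega) (by omega), ?_⟩
          unfold xw
          simp only
          omega
    · rw [if_neg h4] at h1 ⊢
      by_cases h5 : c.1 ≤ 2
      · rw [if_pos h5]
        refine ⟨hc _ _ (by omega) (by omega), ?_⟩
        unfold xw
        simp only
        omega
      · rw [if_neg h5] at h1
        simp at h1

end Pool.Agent.V7H82.QI
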