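import Pool.Agent.V7H82.QI.TClock
import Pool.Agent.V7H82.QI.Sim

/-!
# Simulation of programs by systems with one monomial per variable
-/

set_option autoImplicit false

namespace Pool.Agent.V7H82.QI

/-! ### Programs with data -/

/-- The program `g` assigns to the line `n` an operation and two operands: `0` a data bit, `1` the
negation, `2` the product, otherwise the discrete integral of the first operand. -/
noncomputable def tv (g : ℕ → ℕ × ℕ × ℕ) (inp : ℕ → Bool) (n : ℕ) (t : ℕ) : ZMod 2 :=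
  if (g n).1 = 0 then (if inp n = true then 1 else 0)
  else if (g n).1 = 1 then 1 + (if _h : (g n).2.1 < n then tv g inp (g n).2.1 t else 0)
  else if (g n).1 = 2 then
    (if _h : (g n).2.1 < n then tv g inp (g n).2.1 t else 0) *
      (if _h : (g n).2.2 < n then tv g inp (g n).2.2 t else 0)
  else ∑ s ∈ Finset.range t, (if _h : (g n).2.1 < n then tv g inp (g n).2.1 s else 0)
termination_by n

section tv

variable {g : ℕ → ℕ × ℕ × ℕ} {inp : ℕ → Bool} {n : ℕ}

theorem tv_data (h : (g n).1 = 0) (t : ℕ) : tv g inp n t = if inp n = true then 1 else 0 := by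
  rw [tv, if_pos h]

theorem tv_not (h : (g n).1 = 1) (ho : Ok g n) (t : ℕ) :
    tv g inp n t = 1 + tv g inp (g n).2.1 t := by
  have h1 := ho (by omega)
  rw [tv, if_neg (by omega), if_pos h, dif_pos h1.1]

theorem tv_mul (h : (g n).1 = 2) (ho : Ok g n) (t : ℕ) :
    tv g inp n t = tv g inp (g n).2.1 t * tv g inp (g n).2.2 t := by
  have h1 := ho (by omega)
  rw [tv, if_neg (by omega), if_neg (by omega), if_pos h, dif_pos h1.1, dif_pos h1.2]

theorem tv_int (h : 3 ≤ (g n).1) (ho : Ok g n) (t : ℕ) :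
    tv g inp n t = ∑ s ∈ Finset.range t, tv g inp (g n).2.1 s := by
  have h1 := ho (by omega)
  rw [tv, if_neg (by omega), if_neg (by omega), if_neg (by omega)]
  refine Finset.sum_congr rfl fun s _ => ?_
  rw [dif_pos h1.1]

end tv

/-! ### The wires and the gates -/

/-- The exponent of the length of the window of the line `n`. -/
def sg (K n : ℕ) : ℕ := K + 2 - n

/-- The end of the window of the line `n`; it begins at `2 n + 1`. -/
def bb (K n : ℕ) : ℕ := 2 * n + 1 + 2 ^ sg K n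

/-- The shift of the clock of the line `n`. -/
def cc (K n : ℕ) : ℕ := 2 ^ (K + 4) - 1 - bb K n

/-- The number of the wires of the clock of one line. -/
def ll (K : ℕ) : ℕ := (K + 6) * (K + 5)

/-- The wire in row `u` and column `d` of the clock of the line `n`. -/
def cw (K n u d : ℕ) : ℕ := 1 + n * ll K + u * (K + 5) + d

/-- The first wire of the lines. -/
def vb (K : ℕ) : ℕ := 1 + K * ll K

/-- The wire with the value of the line `n`. -/
def xw (K n : ℕ) : ℕ := vb K + 2 * n + 1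

/-- The auxiliary wire of the line `n`. -/
def bw (K n : ℕ) : ℕ := vb K + 2 * n

/-- The gates of the clocks. -/
def gateC (K n u d : ℕ) : ℕ × ℕ × ℕ :=
  if u ≤ K + 4 then
    (if 1 ≤ d ∧ d ≤ u then (1, cw K n (u - d) (u - d), cw K n u (d - 1)) else (0, 0, 0))
  else if d = 0 then (1, cw K n (sg K n + 1) (sg K n + 1), cw K n (K + 4) n)
  else if d ≤ sg K n then (1, cw K n (sg K n - d) (sg K n - d), cw K n (K + 5) (d - 1))
  else (0, 0, 0)

/-- The gates of the line `n` with the instruction `c`. -/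
def gateV (K : ℕ) (c : ℕ × ℕ × ℕ) (n o : ℕ) : ℕ × ℕ × ℕ :=
  if c.1 = 0 then (0, 0, 0)
  else if o = 1 then
    (if c.1 = 1 then (1, cw K n (K + 5) (sg K n), bw K n)
    else if c.1 = 2 then (1, bw K n, xw K c.2.2)
    else (1, cw K n (K + 4) (K + 4), xw K c.2.1))
  else if c.1 ≤ 2 then (1, cw K n (K + 5) (sg K n - 1), xw K c.2.1) else (0, 0, 0)

/-- The gate with the target `i`: `(1, j, k)` for the gate `x_i ↦ x_i + x_j x_k`, and `(0, 0, 0)` if
there is none. -/
def gate (K : ℕ) (g : ℕ → ℕ × ℕ × ℕ) (i : ℕ) : ℕ × ℕ × ℕ :=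
  if i = 0 then (0, 0, 0)
  else if i < vb K then
    gateC K ((i - 1) / ll K) ((i - 1) % ll K / (K + 5)) ((i - 1) % ll K % (K + 5))
  else gateV K (g ((i - vb K) / 2)) ((i - vb K) / 2) ((i - vb K) % 2)

/-- The system. -/
def sysT (K : ℕ) (g : ℕ → ℕ × ℕ × ℕ) : Sys :=
  (List.range (vb K + 2 * K)).flatMap fun i =>
    if (gate K g i).1 = 1 then [(i, (gate K g i).2.1, (gate K g i).2.2)] else []

theorem quad_sysT (K : ℕ) (g : ℕ → ℕ × ℕ × ℕ) (i : ℕ) (x : ℕ → ZMod 2) :
    quad (sysT K g) i x = if i < vb K + 2 * K ∧ (gate K g i).1 = 1 then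
      x (gate K g i).2.1 * x (gate K g i).2.2 else 0 := by
  unfold sysT
  rw [quad_flatMap]
  have h : ∀ n, quad (if (gate K g n).1 = 1 then [(n, (gate K g n).2.1, (gate K g n).2.2)] else [])
      i x = if n = i then (if (gate K g i).1 = 1 then x (gate K g i).2.1 * x (gate K g i).2.2
        else 0) else 0 := by
    intro n
    by_cases h1 : n = i
    · subst h1
      rw [if_pos rfl]
      split_ifs
      · simp [quad]
      · simp [quad]
    · rw [if_neg h1]
      split_ifs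
      · simp [quad, h1]
      · simp [quad]
  simp only [h]
  rw [Finset.sum_ite_eq']
  simp only [Finset.mem_range]
  by_cases h1 : i < vb K + 2 * K <;> by_cases h2 : (gate K g i).1 = 1 <;> simp [h1, h2]

/-! ### Arithmetic of the wires -/

theorem cw_lt {K n u d : ℕ} (hn : n < K) (hu : u ≤ K + 5) (hd : d ≤ K + 4) : cw K n u d < vb K := by
  have h1 : u * (K + 5) + d < ll K := by
    unfold ll
    nlinarith
  have h2 : (n + 1) * ll K ≤ K * ll K := Nat.mul_le_mul_right _ hn
  unfold cw vb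
  nlinarith

theorem cw_dec {K n u d : ℕ} (hu : u ≤ K + 5) (hd : d ≤ K + 4) :
    (cw K n u d - 1) / ll K = n ∧ (cw K n u d - 1) % ll K / (K + 5) = u ∧
      (cw K n u d - 1) % ll K % (K + 5) = d := by
  have h1 : u * (K + 5) + d < ll K := by
    unfold ll
    nlinarith
  have h0 : cw K n u d - 1 = ll K * n + (u * (K + 5) + d) := by
    unfold cw
    rw [mul_comm n]
    omega
  have h2 : (cw K n u d - 1) % ll K = u * (K + 5) + d := by
    rw [h0, Nat.mul_add_mod, Nat.mod_eq_of_lt h1]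
  refine ⟨?_, ?_, ?_⟩
  · rw [h0, Nat.mul_add_div (by omega), Nat.div_eq_of_lt h1, add_zero]
  · rw [h2, mul_comm, Nat.mul_add_div (by omega), Nat.div_eq_of_lt (by omega), add_zero]
  · rw [h2, mul_comm, Nat.mul_add_mod, Nat.mod_eq_of_lt (by omega)]

theorem gate_cw {K n u d : ℕ} (g : ℕ → ℕ × ℕ × ℕ) (hn : n < K) (hu : u ≤ K + 5) (hd : d ≤ K + 4) :
    gate K g (cw K n u d) = gateC K n u d := by
  have h1 := cw_lt hn hu hd
  obtain ⟨h2, h3, h4⟩ := cw_dec (n := n) hu hd
  unfold gate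
  rw [if_neg (by unfold cw; omega), if_pos h1, h2, h3, h4]

theorem gate_xw {K : ℕ} (g : ℕ → ℕ × ℕ × ℕ) (n : ℕ) : gate K g (xw K n) = gateV K (g n) n 1 := by
  have h0 : 0 < vb K := by unfold vb; omega
  unfold gate xw
  rw [if_neg (by omega), if_neg (by omega), show (vb K + 2 * n + 1 - vb K) / 2 = n by omega,
    show (vb K + 2 * n + 1 - vb K) % 2 = 1 by omega]

theorem gate_bw {K : ℕ} (g : ℕ → ℕ × ℕ × ℕ) (n : ℕ) : gate K g (bw K n) = gateV K (g n) n 0 := by
  have h0 : 0 < vb K := by unfold vb; omega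
  unfold gate bw
  rw [if_neg (by omega), if_neg (by omega), show (vb K + 2 * n - vb K) / 2 = n by omega,
    show (vb K + 2 * n - vb K) % 2 = 0 by omega]

/-! ### The windows -/

theorem bb_ge {K n : ℕ} (hn : n < K) : 2 * n + 9 ≤ bb K n := by
  have h : 2 ^ 3 ≤ 2 ^ sg K n := Nat.pow_le_pow_right (by omega) (by unfold sg; omega)
  unfold bb
  omega

theorem bb_le {K n : ℕ} (hn : n < K) : bb K n + 2 ≤ 2 ^ (K + 4) := by
  have h : 2 ^ sg K n ≤ 2 ^ (K + 2) := Nat.pow_le_pow_right (by omega) (by unfold sg; omega)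
  have h2 : K < 2 ^ K := Nat.lt_two_pow_self
  have h3 : 2 ^ (K + 2) = 4 * 2 ^ K := by ring
  have h4 : 2 ^ (K + 4) = 16 * 2 ^ K := by ring
  unfold bb
  omega

theorem bb_step {K n : ℕ} (hn : n + 1 < K) : bb K (n + 1) + 2 ≤ bb K n := by
  have h : 2 ^ 3 ≤ 2 ^ sg K (n + 1) := Nat.pow_le_pow_right (by omega) (by unfold sg; omega)
  have h2 : 2 ^ sg K n = 2 * 2 ^ sg K (n + 1) := by
    rw [show sg K n = sg K (n + 1) + 1 by unfold sg; omega, pow_succ]
    ring
  unfold bb
  omega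

theorem bb_anti {K j n : ℕ} (hj : j < n) (hn : n < K) : bb K n + 2 ≤ bb K j := by
  induction n, hj using Nat.le_induction with
  | base => exact bb_step hn
  | succ n hj ih =>
    have h1 := ih (by omega)
    have h2 := bb_step hn
    omega

/-! ### The clocks -/

/-- The mask of a wire of the clock. -/
def mask (K n u d : ℕ) : ℕ :=
  if u ≤ K + 4 then 2 ^ u - 2 ^ (u - d) else 2 ^ (K + 4) - 2 ^ sg K n - 2 ^ (sg K n - d)

/-- The wires of the clock which are used. -/
def Valid (K n u d : ℕ) : Prop := (u ≤ K + 4 ∧ d ≤ u) ∨ (u = K + 5 ∧ d ≤ sg K n)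

theorem Valid.le {K n u d : ℕ} (h : Valid K n u d) : u ≤ K + 5 ∧ d ≤ K + 4 := by
  have : sg K n ≤ K + 2 := by unfold sg; omega
  rcases h with h | h <;> omega

theorem bc_rec' {m Z : ℕ} (hZ : 2 ^ (m + 1) ∣ Z) (s : ℕ) :
    bc (s + 1) (2 ^ m + Z) = bc s (2 ^ m + Z) + bc s (2 ^ m - 1) * bc s Z := by
  obtain ⟨Y, rfl⟩ := hZ
  exact bc_rec s m Y

theorem mask_diag {K n m : ℕ} (hm : m ≤ K + 4) : mask K n m m = 2 ^ m - 1 := by
  unfold mask
  rw [if_pos hm, Nat.sub_self, pow_zero]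

theorem clock_step {K n u d : ℕ} (hn : n < K) (hv : Valid K n u d) (s : ℕ) :
    (bc (s + 1) (mask K n u d) = bc s (mask K n u d) ∧ (gateC K n u d).1 ≠ 1) ∨
    ∃ u₁ d₁ u₂ d₂, Valid K n u₁ d₁ ∧ Valid K n u₂ d₂ ∧
      gateC K n u d = (1, cw K n u₁ d₁, cw K n u₂ d₂) ∧
      bc (s + 1) (mask K n u d) = bc s (mask K n u d) +
        bc s (mask K n u₁ d₁) * bc s (mask K n u₂ d₂) := by
  have hsg : sg K n = K + 2 - n := rfl
  rcases hv with ⟨hu, hd⟩ | ⟨hu, hd⟩
  · by_cases hd0 : d = 0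
    · left
      subst hd0
      unfold mask gateC
      rw [if_pos hu, if_pos hu, Nat.sub_zero, Nat.sub_self, bc_zero, bc_zero, if_neg (by omega)]
      exact ⟨rfl, by simp⟩
    · right
      refine ⟨u - d, u - d, u, d - 1, Or.inl ⟨by omega, le_rfl⟩, Or.inl ⟨hu, by omega⟩, ?_, ?_⟩
      · unfold gateC
        rw [if_pos hu, if_pos ⟨by omega, hd⟩]
      · rw [mask_diag (by omega)]
        obtain ⟨m, hm⟩ : ∃ m, m = u - d := ⟨_, rfl⟩
        obtain ⟨e, he⟩ : ∃ e, d = e + 1 := ⟨d - 1, by omega⟩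
        have hue : u = m + 1 + e := by omega
        have h1 : mask K n u d = 2 ^ m + (2 ^ u - 2 ^ (m + 1)) := by
          have h2 : 2 ^ (m + 1) ≤ 2 ^ u := Nat.pow_le_pow_right (by omega) (by omega)
          unfold mask
          rw [if_pos hu, ← hm]
          rw [pow_succ] at h2 ⊢
          omega
        have h3 : mask K n u (d - 1) = 2 ^ u - 2 ^ (m + 1) := by
          unfold mask
          rw [if_pos hu, show u - (d - 1) = m + 1 by omega]
        rw [h1, h3, ← hm]
        refine bc_rec' (Nat.dvd_sub ?_ (dvd_refl _)) s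
        exact pow_dvd_pow _ (by omega)
  · right
    subst hu
    by_cases hd0 : d = 0
    · subst hd0
      refine ⟨sg K n + 1, sg K n + 1, K + 4, n, Or.inl ⟨by omega, le_rfl⟩,
        Or.inl ⟨le_rfl, by omega⟩, ?_, ?_⟩
      · unfold gateC
        rw [if_neg (by omega), if_pos rfl]
      · rw [mask_diag (by omega)]
        have h3 : mask K n (K + 4) n = 2 ^ (K + 4) - 2 ^ (sg K n + 1 + 1) := by
          unfold mask
          rw [if_pos le_rfl, show K + 4 - n = sg K n + 1 + 1 by omega]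
        have h1 : mask K n (K + 5) 0 = 2 ^ (sg K n + 1) + (2 ^ (K + 4) - 2 ^ (sg K n + 1 + 1)) := by
          have h2 : 2 ^ (sg K n + 1 + 1) ≤ 2 ^ (K + 4) :=
            Nat.pow_le_pow_right (by omega) (by omega)
          have p1 : 2 ^ (sg K n + 1 + 1) = 2 * 2 ^ (sg K n + 1) := by ring
          have p2 : 2 ^ (sg K n + 1) = 2 * 2 ^ sg K n := by ring
          unfold mask
          rw [if_neg (by omega), Nat.sub_zero]
          omega
        rw [h1, h3]
        refine bc_rec' (Nat.dvd_sub ?_ (dvd_refl _)) s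
        exact pow_dvd_pow _ (by omega)
    · refine ⟨sg K n - d, sg K n - d, K + 5, d - 1, Or.inl ⟨by omega, le_rfl⟩,
        Or.inr ⟨rfl, by omega⟩, ?_, ?_⟩
      · unfold gateC
        rw [if_neg (by omega), if_neg hd0, if_pos hd]
      · rw [mask_diag (by omega)]
        obtain ⟨m, hm⟩ : ∃ m, m = sg K n - d := ⟨_, rfl⟩
        have hd' : m + 1 ≤ sg K n := by omega
        have e1 : 2 ^ (m + 1) ≤ 2 ^ sg K n := Nat.pow_le_pow_right (by omega) hd'
        have e2 : 2 ^ (sg K n + 1) ≤ 2 ^ (K + 4) := Nat.pow_le_pow_right (by omega) (by omega)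
        have h1 : mask K n (K + 5) d = 2 ^ m + (2 ^ (K + 4) - 2 ^ sg K n - 2 ^ (m + 1)) := by
          have p1 : 2 ^ (m + 1) = 2 * 2 ^ m := by ring
          have p2 : 2 ^ (sg K n + 1) = 2 * 2 ^ sg K n := by ring
          unfold mask
          rw [if_neg (by omega), ← hm]
          omega
        have h3 : mask K n (K + 5) (d - 1) = 2 ^ (K + 4) - 2 ^ sg K n - 2 ^ (m + 1) := by
          unfold mask
          rw [if_neg (by omega), show sg K n - (d - 1) = m + 1 by omega]
        rw [h1, h3, ← hm]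
        refine bc_rec' (Nat.dvd_sub (Nat.dvd_sub ?_ ?_) (dvd_refl _)) s
        · exact pow_dvd_pow _ (by omega)
        · exact pow_dvd_pow _ hd'

/-- The phase of the shifted clock. -/
theorem shift_mod {K n s : ℕ} (hn : n < K) : (s + cc K n) % 2 ^ (K + 4) =
    if s % 2 ^ (K + 4) ≤ bb K n then s % 2 ^ (K + 4) + (2 ^ (K + 4) - 1 - bb K n)
    else s % 2 ^ (K + 4) - 1 - bb K n := by
  have h1 := bb_le hn
  have h2 := Nat.mod_lt s (show 0 < 2 ^ (K + 4) by positivity)
  unfold cc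
  rw [← Nat.mod_add_mod]
  generalize s % 2 ^ (K + 4) = p at h2 ⊢
  generalize 2 ^ (K + 4) = R at h1 h2 ⊢
  split_ifs with h3
  · exact Nat.mod_eq_of_lt (by omega)
  · rw [Nat.mod_eq_sub_mod (by omega), Nat.mod_eq_of_lt (by omega)]
    omega

theorem pulse_D {K n s : ℕ} (hn : n < K) : bc (s + cc K n) (mask K n (K + 5) (sg K n)) =
    if s % 2 ^ (K + 4) = 2 * n + 1 ∨ s % 2 ^ (K + 4) = bb K n then 1 else 0 := by
  have hsg : sg K n = K + 2 - n := rfl
  have h1 : mask K n (K + 5) (sg K n) = 2 ^ (K + 4) - 1 - 2 ^ sg K n := by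
    unfold mask
    rw [if_neg (by omega), Nat.sub_self, pow_zero]
    omega
  have h2 := bb_le hn
  have h3 := Nat.mod_lt s (show 0 < 2 ^ (K + 4) by positivity)
  have h4 : bb K n = 2 * n + 1 + 2 ^ sg K n := rfl
  rw [h1, bc_gap _ _ (by omega), shift_mod hn]
  generalize s % 2 ^ (K + 4) = p at h3 ⊢
  generalize 2 ^ (K + 4) = R at h2 h3 ⊢
  generalize 2 ^ sg K n = G at h4 ⊢
  congr 1
  rw [eq_iff_iff]
  split_ifs <;> omega

theorem pulse_E {K n s : ℕ} (hn : n < K) : bc (s + cc K n) (mask K n (K + 5) (sg K n - 1)) =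
    if s % 2 ^ (K + 4) = 2 * n ∨ s % 2 ^ (K + 4) = 2 * n + 1 ∨ s % 2 ^ (K + 4) + 1 = bb K n ∨
      s % 2 ^ (K + 4) = bb K n then 1 else 0 := by
  have hsg : sg K n = K + 2 - n := rfl
  obtain ⟨g, hg⟩ : ∃ g, sg K n = g + 1 := ⟨sg K n - 1, by omega⟩
  have h1 : mask K n (K + 5) (sg K n - 1) = 2 ^ (K + 4) - 2 - 2 ^ (g + 1) := by
    unfold mask
    rw [if_neg (by omega), show sg K n - (sg K n - 1) = 1 by omega, pow_one, hg]
    omega
  have h2 := bb_le hn
  have h3 := Nat.mod_lt s (show 0 < 2 ^ (K + 4) by positivity)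
  have h4 : bb K n = 2 * n + 1 + 2 ^ sg K n := rfl
  have h5 := bb_ge hn
  rw [h1, bc_gap2 (by omega), shift_mod hn]
  rw [hg] at h4
  generalize s % 2 ^ (K + 4) = p at h3 ⊢
  generalize 2 ^ (K + 4) = R at h2 h3 ⊢
  generalize 2 ^ (g + 1) = G at h4 ⊢
  congr 1
  rw [eq_iff_iff]
  split_ifs <;> omega

theorem pulse_G {K n s : ℕ} (hn : n < K) : bc (s + cc K n) (mask K n (K + 4) (K + 4)) =
    if s % 2 ^ (K + 4) = bb K n then 1 else 0 := by
  have h2 := bb_le hn
  have h3 := Nat.mod_lt s (show 0 < 2 ^ (K + 4) by positivity)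
  rw [mask_diag le_rfl, bc_all, shift_mod hn]
  generalize s % 2 ^ (K + 4) = p at h3 ⊢
  generalize 2 ^ (K + 4) = R at h2 h3 ⊢
  congr 1
  rw [eq_iff_iff]
  split_ifs <;> omega

end Pool.Agent.V7H82.QI
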