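import Pool.Agent.V7H82.QI.UProg

/-!
# The quantifiers of the universal program
-/

set_option autoImplicit false

namespace Pool.Agent.V7H82.QI

open Pool.Agent.H656R2.AK Pool.Agent.H623R2.PS

/-- The evaluation of the quantifiers, for any functions with the recursion of the levels. -/
theorem blk_all (Q : QF) (Y : ℕ → ℕ → ZMod 2)
    (h0 : ∀ t, Y 0 t = toZ (evc (asg Q.1.length t) Q.2))
    (hs : ∀ l < Q.1.length, ∀ t, Y (l + 1) t =
      if Q.1.getD (Q.1.length - 1 - l) false = true then
        Y l t * (if t.testBit (2 * l + 1) = true then 0 else 1) *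
          (if t.testBit (2 * l) = true then 1 else 0) * ∑ s ∈ Finset.range t, Y l s
      else
        Y l t * (if t.testBit (2 * l + 1) = true then 0 else 1) +
        Y l t * (if t.testBit (2 * l + 1) = true then 0 else 1) *
          (if t.testBit (2 * l) = true then 1 else 0) * ∑ s ∈ Finset.range t, Y l s) :
    ∀ l ≤ Q.1.length, ∀ w, Blk (Y l) (4 ^ l) w (Vl Q l w) := by
  intro l
  induction l with
  | zero =>
    intro _ w
    refine ⟨w, by simp, by simp, ?_⟩
    intro t h1 h2
    have ht : t = w := by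
      simp at h1 h2
      omega
    subst ht
    rw [h0]
    unfold Vl
    rw [Nat.sub_zero, List.drop_length, evq, List.append_nil]
    unfold toZ
    by_cases h : evc (asg Q.1.length t) Q.2 = true
    · rw [if_pos h, if_pos ⟨h, rfl⟩]
    · rw [if_neg h, if_neg (by tauto)]
  | succ l ih =>
    intro hl w
    rw [Vl_succ Q (by omega), pow_succ, mul_comm (4 ^ l) 4]
    refine blk_step (ih (by omega)) (Vl_two Q (by omega)) (Vl_three Q (by omega)) _ ?_ w
    intro w j hj t h1 h2
    have hd : t / 4 ^ l = 4 * w + j := by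
      refine Nat.div_eq_of_lt_le h1 h2
    have h4 : (4 : ℕ) ^ l = 2 ^ (2 * l) := by
      rw [pow_mul]
      norm_num
    have b0 : t.testBit (2 * l) = decide (j % 2 = 1) := by
      rw [Nat.testBit_eq_decide_div_mod_eq, ← h4, hd, show (4 * w + j) % 2 = j % 2 by omega]
    have b1 : t.testBit (2 * l + 1) = decide (2 ≤ j) := by
      rw [Nat.testBit_eq_decide_div_mod_eq, pow_succ, ← h4, ← Nat.div_div_eq_div_mul, hd,
        decide_eq_decide]
      omega
    rw [hs l (by omega), b0, b1]
    generalize Q.1.getD (Q.1.length - 1 - l) false = q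
    interval_cases j <;> cases q <;> simp

section Lev

variable (Q : QF)

/-- The value of the level `l`. -/
noncomputable def Yt (l t : ℕ) : ZMod 2 :=
  tv (uprog Q.1.length) (uinp Q) (ub1 Q.1.length + 13 * l - 1) t

theorem tv_X {l : ℕ} (hl : l ≤ Q.1.length) (t : ℕ) :
    tv (uprog Q.1.length) (uinp Q) (ub1 Q.1.length + 13 * l) t =
      ∑ s ∈ Finset.range t, Yt Q l s := by
  have hnl : uK Q.1.length = ub1 Q.1.length + 13 * Q.1.length + 1 := rfl
  have p0 := uprog_lev Q.1.length (l := l) (o := 0) (by omega)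
  rw [add_zero] at p0
  have q0 : uprog Q.1.length (ub1 Q.1.length + 13 * l) =
      (3, ub1 Q.1.length + 13 * l - 1, 0) := by
    rw [p0]
    simp [uLev]
  rw [tv_int (by rw [q0]) (uprog_ok _ _ (by omega)), q0]
  rfl

/-- one level -/
theorem Yt_succ {l : ℕ} (hl : l < Q.1.length) (t : ℕ) : Yt Q (l + 1) t =
    if Q.1.getD (Q.1.length - 1 - l) false = true then
      Yt Q l t * (if t.testBit (2 * l + 1) = true then 0 else 1) *
        (if t.testBit (2 * l) = true then 1 else 0) * ∑ s ∈ Finset.range t, Yt Q l s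
    else
      Yt Q l t * (if t.testBit (2 * l + 1) = true then 0 else 1) +
      Yt Q l t * (if t.testBit (2 * l + 1) = true then 0 else 1) *
        (if t.testBit (2 * l) = true then 1 else 0) * ∑ s ∈ Finset.range t, Yt Q l s := by
  have hok := uprog_ok Q.1.length
  have hb : ub0 Q.1.length = 5 * Q.1.length + 3 := rfl
  have hb1 : ub1 Q.1.length = ub0 Q.1.length + 10 * (Q.1.length * Q.1.length) := rfl
  have hnl : uK Q.1.length = ub1 Q.1.length + 13 * Q.1.length + 1 := rfl
  have h0 := uinp_zero Q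
  have t0 := tv_bit h0 (N := Q.1.length) (i := 2 * l) (by omega) t
  have t1 := tv_bit h0 (N := Q.1.length) (i := 2 * l + 1) (by omega) t
  rw [show 2 * (2 * l) + 1 = 4 * l + 1 by ring] at t0
  rw [show 2 * (2 * l + 1) + 1 = 4 * l + 3 by ring] at t1
  have p1 := uprog_lev Q.1.length (l := l) (o := 1) (by omega)
  have p2 := uprog_lev Q.1.length (l := l) (o := 2) (by omega)
  have p3 := uprog_lev Q.1.length (l := l) (o := 3) (by omega)
  have p4 := uprog_lev Q.1.length (l := l) (o := 4) (by omega)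
  have p5 := uprog_lev Q.1.length (l := l) (o := 5) (by omega)
  have p6 := uprog_lev Q.1.length (l := l) (o := 6) (by omega)
  have p7 := uprog_lev Q.1.length (l := l) (o := 7) (by omega)
  have p8 := uprog_lev Q.1.length (l := l) (o := 8) (by omega)
  have p9 := uprog_lev Q.1.length (l := l) (o := 9) (by omega)
  have p10 := uprog_lev Q.1.length (l := l) (o := 10) (by omega)
  have p11 := uprog_lev Q.1.length (l := l) (o := 11) (by omega)
  have p12 := uprog_lev Q.1.length (l := l) (o := 12) (by omega)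
  have i4 : uinp Q (ub1 Q.1.length + 13 * l + 4) = Q.1.getD (Q.1.length - 1 - l) false := by
    unfold uinp
    rw [if_neg (by omega), if_neg (by omega),
      show (ub1 Q.1.length + 13 * l + 4 - ub1 Q.1.length) / 13 = l by omega]
  have eX := tv_X Q (l := l) (by omega) t
  obtain ⟨B, hB⟩ : ∃ B, B = ub1 Q.1.length + 13 * l := ⟨_, rfl⟩
  have hY : tv (uprog Q.1.length) (uinp Q) (B - 1) t = Yt Q l t := by
    rw [hB]
    rfl
  have hY' : Yt Q (l + 1) t = tv (uprog Q.1.length) (uinp Q) (B + 12) t := by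
    unfold Yt
    rw [show ub1 Q.1.length + 13 * (l + 1) - 1 = B + 12 by omega]
  rw [← hB] at p1 p2 p3 p4 p5 p6 p7 p8 p9 p10 p11 p12 eX i4
  rw [hY']
  simp only [uLev, if_true, if_false, OfNat.ofNat_ne_zero, OfNat.ofNat_ne_one,
    one_ne_zero, Nat.reduceEqDiff] at p1 p2 p3 p4 p5 p6 p7 p8 p9 p10 p11 p12
  have hBK : B + 13 ≤ uK Q.1.length := by omega
  have hB3 : 5 * Q.1.length + 3 ≤ B := by omega
  have e1 : tv (uprog Q.1.length) (uinp Q) (B + 1) t = 1 + toZ (t.testBit (2 * l + 1)) := by
    rw [tv_not (by rw [p1]) (hok _ (by omega)), p1]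
    simp only
    rw [t1]
  have e2 : tv (uprog Q.1.length) (uinp Q) (B + 2) t =
      Yt Q l t * (1 + toZ (t.testBit (2 * l + 1))) := by
    rw [tv_mul (by rw [p2]) (hok _ (by omega)), p2]
    simp only
    rw [hY, e1]
  have e3 : tv (uprog Q.1.length) (uinp Q) (B + 3) t =
      toZ (t.testBit (2 * l)) * ∑ s ∈ Finset.range t, Yt Q l s := by
    rw [tv_mul (by rw [p3]) (hok _ (by omega)), p3]
    simp only
    rw [t0, eX]
  have e4 : tv (uprog Q.1.length) (uinp Q) (B + 4) t =
      toZ (Q.1.getD (Q.1.length - 1 - l) false) := by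
    rw [tv_data (by rw [p4]), i4]
    rfl
  have e5 : tv (uprog Q.1.length) (uinp Q) (B + 5) t =
      1 + tv (uprog Q.1.length) (uinp Q) (B + 3) t := by
    rw [tv_not (by rw [p5]) (hok _ (by omega)), p5]
  have e6 : tv (uprog Q.1.length) (uinp Q) (B + 6) t =
      tv (uprog Q.1.length) (uinp Q) (B + 4) t * tv (uprog Q.1.length) (uinp Q) (B + 5) t := by
    rw [tv_mul (by rw [p6]) (hok _ (by omega)), p6]
  have e7 : tv (uprog Q.1.length) (uinp Q) (B + 7) t =
      1 + tv (uprog Q.1.length) (uinp Q) (B + 6) t := by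
    rw [tv_not (by rw [p7]) (hok _ (by omega)), p7]
  have e8 : tv (uprog Q.1.length) (uinp Q) (B + 8) t =
      1 + tv (uprog Q.1.length) (uinp Q) (B + 4) t := by
    rw [tv_not (by rw [p8]) (hok _ (by omega)), p8]
  have e9 : tv (uprog Q.1.length) (uinp Q) (B + 9) t =
      tv (uprog Q.1.length) (uinp Q) (B + 8) t * tv (uprog Q.1.length) (uinp Q) (B + 3) t := by
    rw [tv_mul (by rw [p9]) (hok _ (by omega)), p9]
  have e10 : tv (uprog Q.1.length) (uinp Q) (B + 10) t =
      1 + tv (uprog Q.1.length) (uinp Q) (B + 9) t := by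
    rw [tv_not (by rw [p10]) (hok _ (by omega)), p10]
  have e11 : tv (uprog Q.1.length) (uinp Q) (B + 11) t =
      tv (uprog Q.1.length) (uinp Q) (B + 7) t * tv (uprog Q.1.length) (uinp Q) (B + 10) t := by
    rw [tv_mul (by rw [p11]) (hok _ (by omega)), p11]
  have e12 : tv (uprog Q.1.length) (uinp Q) (B + 12) t =
      tv (uprog Q.1.length) (uinp Q) (B + 2) t * tv (uprog Q.1.length) (uinp Q) (B + 11) t := by
    rw [tv_mul (by rw [p12]) (hok _ (by omega)), p12]
  rw [e12, e11, e10, e9, e8, e7, e6, e5, e4, e3, e2]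
  have h11 : (1 : ZMod 2) + 1 = 0 := CharTwo.add_self_eq_zero _
  generalize ∑ s ∈ Finset.range t, Yt Q l s = X
  generalize Yt Q l t = Y
  generalize Q.1.getD (Q.1.length - 1 - l) false = q
  generalize t.testBit (2 * l + 1) = c
  generalize t.testBit (2 * l) = b
  have hX : X + X = 0 := CharTwo.add_self_eq_zero _
  cases q <;> cases c <;> cases b <;> simp [toZ, h11]
  · ring
  · left
    rw [← add_assoc, h11, zero_add]

/-- The universal program computes the value of the quantified formula. -/
theorem tv_uprog (hwf : QFwf Q) (hl : Q.2.length = Q.1.length) (hN : 0 < Q.1.length) :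
    tv (uprog Q.1.length) (uinp Q) (ub1 Q.1.length + 13 * Q.1.length) (4 ^ Q.1.length) =
      if evq Q.1 (fun v => evc v Q.2) = true then 1 else 0 := by
  have h0 : ∀ t, Yt Q 0 t = toZ (evc (asg Q.1.length t) Q.2) := by
    intro t
    have h1 := (tv_clauses Q t hN (Q.1.length * Q.1.length) le_rfl).1
    rw [Nat.mul_div_cancel _ hN, Dv_eq Q t hwf hl] at h1
    exact h1
  have h := sum_blk_end (blk_all Q (Yt Q) h0 (fun l hl t => Yt_succ Q hl t) Q.1.length le_rfl 0)
  rw [zero_add, one_mul, zero_mul, Finset.sum_range_zero, zero_add] at h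
  rw [tv_X Q le_rfl, h]
  unfold Vl
  rw [Nat.sub_self, List.drop_zero]
  rfl

end Lev

end Pool.Agent.V7H82.QI
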