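import Pool.Agent.V7H82.QI.ULev
import Pool.Agent.V7H82.QI.Main

/-!
# A universal sequence of systems with one monomial per variable
-/

set_option autoImplicit false

namespace Pool.Agent.V7H82.QI

open Pool.Agent.H656R2.AK Pool.Agent.H623R2.PS Pool.Agent.NPC

/-! ### Padding -/

/-- The formula with dummy variables and dummy clauses. -/
def pad (Q : QF) : QF :=
  (Q.1 ++ List.replicate (Q.2.length + 1) false,
    Q.2 ++ List.replicate (Q.1.length + 1) [(true, 0), (false, 0)])

theorem evq_const (k : ℕ) (φ : List Bool → Bool) (h : ∀ w, φ w = φ []) :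
    evq (List.replicate k false) φ = φ [] := by
  induction k generalizing φ with
  | zero => rfl
  | succ k ih =>
    rw [List.replicate_succ, evq, ih _ (fun w => by rw [h, h [false]]),
      ih _ (fun w => by rw [h, h [true]]), h [false], h [true]]
    simp

theorem evq_pad (k : ℕ) (qs : List Bool) (φ : List Bool → Bool)
    (h : ∀ u w, u.length = qs.length → φ (u ++ w) = φ u) :
    evq (qs ++ List.replicate k false) φ = evq qs φ := by
  induction qs generalizing φ with
  | nil =>
    rw [List.nil_append, evq_const k φ fun w => by simpa using h [] w rfl]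
    rfl
  | cons q qs ih =>
    have h1 : ∀ b, evq (qs ++ List.replicate k false) (fun u => φ (b :: u)) =
        evq qs fun u => φ (b :: u) := by
      intro b
      refine ih _ fun u w hu => ?_
      exact h (b :: u) w (by simp [hu])
    rw [List.cons_append, evq, evq, h1, h1]

theorem pad_wf {Q : QF} (h : QFwf Q) : QFwf (pad Q) := by
  intro c hc l hl
  unfold pad at hc ⊢
  simp only [List.length_append, List.length_replicate, List.mem_append,
    List.mem_replicate] at hc ⊢
  rcases hc with hc | ⟨_, rfl⟩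
  · have := h c hc l hl
    omega
  · simp only [List.mem_cons, List.not_mem_nil, or_false] at hl
    rcases hl with rfl | rfl <;> simp only <;> omega

theorem pad_len (Q : QF) : (pad Q).2.length = (pad Q).1.length := by
  unfold pad
  simp only [List.length_append, List.length_replicate]
  omega

theorem pad_pos (Q : QF) : 0 < (pad Q).1.length := by
  unfold pad
  simp

theorem pad_evq {Q : QF} (h : QFwf Q) : evq (pad Q).1 (fun v => evc v (pad Q).2) =
    evq Q.1 (fun v => evc v Q.2) := by
  have h1 : (fun v => evc v (pad Q).2) = fun v => evc v Q.2 := by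
    funext v
    unfold pad evc
    simp only [List.all_append]
    have h2 : (List.replicate (Q.1.length + 1) [((true : Bool), 0), (false, 0)]).all
        (fun c => c.any fun l => v.getD l.2 false == l.1) = true := by
      rw [List.all_eq_true]
      intro c hc
      rw [List.eq_of_mem_replicate hc]
      simp only [List.any_cons, List.any_nil]
      cases v.getD 0 false <;> rfl
    rw [h2, Bool.and_true]
  rw [h1]
  refine evq_pad _ _ _ fun u w hu => ?_
  unfold evc
  rw [Bool.eq_iff_iff, List.all_eq_true, List.all_eq_true]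
  refine forall₂_congr fun c hc => ?_
  rw [List.any_eq_true, List.any_eq_true]
  refine exists_congr fun l => and_congr_right fun hl => ?_
  have h3 : l.2 < u.length := by
    rw [hu]
    exact h c hc l hl
  rw [List.getD_append _ _ _ _ h3]

/-! ### The sequence of systems -/

/-- The systems. -/
def Su (N : ℕ) : Sys := sysT (uK N) (uprog N)

/-- The times are powers of two with these exponents. -/
def eu (N : ℕ) : ℕ := uK N + 4 + 2 * N

/-- The output wires. -/
def iu (N : ℕ) : ℕ := xw (uK N) (ub1 N + 13 * N)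

theorem Su_triangular (N : ℕ) : Triangular (Su N) := sysT_triangular (uprog_ok N)

theorem Su_nodup (N : ℕ) : ((Su N).map fun p => p.1).Nodup := sysT_nodup _ _

theorem Su_spec (Q : QF) (hwf : QFwf Q) (hl : Q.2.length = Q.1.length) (hN : 0 < Q.1.length) :
    (step (Su Q.1.length))^[2 ^ eu Q.1.length]
      (start (iniL (uK Q.1.length) (uprog Q.1.length) (uinp Q))) (iu Q.1.length) =
      if evq Q.1 (fun v => evc v Q.2) = true then 1 else 0 := by
  have hok := uprog_ok Q.1.length
  have hnl : uK Q.1.length = ub1 Q.1.length + 13 * Q.1.length + 1 := rfl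
  have hp : uprog Q.1.length (ub1 Q.1.length + 13 * Q.1.length) =
      (3, ub1 Q.1.length + 13 * Q.1.length - 1, 0) := by
    have p0 := uprog_lev Q.1.length (l := Q.1.length) (o := 0) (by omega)
    rw [add_zero] at p0
    rw [p0]
    simp [uLev]
  have h := Inv.out hok (Inv.init (inp := uinp Q) hok)
    (n := ub1 Q.1.length + 13 * Q.1.length) (by omega) (by rw [hp]) (4 ^ Q.1.length)
  rw [tv_uprog Q hwf hl hN] at h
  rw [← h]
  have h4 : (2 : ℕ) ^ eu Q.1.length = 2 ^ (uK Q.1.length + 4) * 4 ^ Q.1.length := by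
    unfold eu
    rw [pow_add, pow_mul]
    norm_num
  rw [h4]
  rfl

/-! ### Polynomial time -/

section Poly

variable {α : Type} [TEnc α]

theorem upoly_uK {N : α → ℕ} (hN : UPoly N) : UPoly (fun a => uK (N a)) := by
  have h1 : UPoly (fun a => 5 * N a + 3) := ((UPoly.const 5).mul hN).add (UPoly.const 3)
  have h2 : UPoly (fun a => 10 * (N a * N a)) := (UPoly.const 10).mul (hN.mul hN)
  have h3 : UPoly (fun a => 13 * N a) := (UPoly.const 13).mul hN
  exact ((h1.add h2).add h3).add (UPoly.const 1)

theorem upoly_vb {K : α → ℕ} (hK : UPoly K) : UPoly (fun a => vb (K a)) :=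
  (UPoly.const 1).add (hK.mul ((hK.add (UPoly.const 6)).mul (hK.add (UPoly.const 5))))

theorem poly_uTok {N B o v : α → ℕ} (hN : NPC.Poly N) (hB : NPC.Poly B) (ho : NPC.Poly o)
    (hv : NPC.Poly v) : NPC.Poly (fun a => uTok (N a) (B a) (o a) (v a)) := by
  unfold uTok
  fun_prop

theorem poly_uLev {l B o : α → ℕ} (hl : NPC.Poly l) (hB : NPC.Poly B) (ho : NPC.Poly o) :
    NPC.Poly (fun a => uLev (l a) (B a) (o a)) := by
  unfold uLev
  fun_prop

theorem poly_uprog : NPC.Poly (fun p : ℕ × ℕ => uprog p.1 p.2) := by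
  have h0 : NPC.Poly (fun p : ℕ × ℕ => ub0 p.1) := by
    unfold ub0
    fun_prop
  have h1 : NPC.Poly (fun p : ℕ × ℕ => ub1 p.1) := by
    unfold ub1
    fun_prop
  have h2 : NPC.Poly (fun p : ℕ × ℕ => uTok p.1 (p.2 - (p.2 - ub0 p.1) % 10)
      ((p.2 - ub0 p.1) % 10) ((p.2 - ub0 p.1) / 10 % p.1)) :=
    poly_uTok (by fun_prop) (by fun_prop) (by fun_prop) (by fun_prop)
  have h3 : NPC.Poly (fun p : ℕ × ℕ => uLev ((p.2 - ub1 p.1) / 13)
      (p.2 - (p.2 - ub1 p.1) % 13) ((p.2 - ub1 p.1) % 13)) :=
    poly_uLev (by fun_prop) (by fun_prop) (by fun_prop)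
  unfold uprog
  fun_prop

theorem poly_uinp : NPC.Poly (fun p : QF × ℕ => uinp p.1 p.2) := by
  unfold uinp ub1 ub0
  fun_prop

theorem poly_gateC {K n u d : α → ℕ} (hK : NPC.Poly K) (hn : NPC.Poly n) (hu : NPC.Poly u)
    (hd : NPC.Poly d) : NPC.Poly (fun a => gateC (K a) (n a) (u a) (d a)) := by
  unfold gateC cw ll sg
  fun_prop

theorem poly_gateV {K n o : α → ℕ} {c : α → ℕ × ℕ × ℕ} (hK : NPC.Poly K) (hn : NPC.Poly n)
    (ho : NPC.Poly o) (hc : NPC.Poly c) :
    NPC.Poly (fun a => gateV (K a) (c a) (n a) (o a)) := by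
  unfold gateV cw bw xw vb ll sg
  fun_prop

theorem poly_gate {K i : α → ℕ} {g : α → ℕ → ℕ × ℕ × ℕ} (hK : NPC.Poly K)
    (hg : NPC.Poly (fun p : α × ℕ => g p.1 p.2)) (hi : NPC.Poly i) :
    NPC.Poly (fun a => gate (K a) (g a) (i a)) := by
  have hL : NPC.Poly (fun a => ll (K a)) := by
    unfold ll
    fun_prop
  have hV : NPC.Poly (fun a => vb (K a)) := by
    unfold vb
    fun_prop
  have h1 : NPC.Poly (fun a => g a ((i a - vb (K a)) / 2)) :=
    hg.comp (f := fun a => (a, (i a - vb (K a)) / 2)) (by fun_prop)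
  have h2 : NPC.Poly (fun a => gateC (K a) ((i a - 1) / ll (K a))
      ((i a - 1) % ll (K a) / (K a + 5)) ((i a - 1) % ll (K a) % (K a + 5))) :=
    poly_gateC hK (by fun_prop) (by fun_prop) (by fun_prop)
  have h3 : NPC.Poly (fun a => gateV (K a) (g a ((i a - vb (K a)) / 2)) ((i a - vb (K a)) / 2)
      ((i a - vb (K a)) % 2)) :=
    poly_gateV hK (by fun_prop) (by fun_prop) h1
  unfold gate
  fun_prop

theorem poly_sysT {K : α → ℕ} {g : α → ℕ → ℕ × ℕ × ℕ} (hK : UPoly K)
    (hg : NPC.Poly (fun p : α × ℕ => g p.1 p.2)) : NPC.Poly (fun a => sysT (K a) (g a)) := by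
  have h1 : NPC.Poly (fun a => List.range (vb (K a) + 2 * K a)) :=
    ((upoly_vb hK).add ((UPoly.const 2).mul hK)).range
  have h2 : NPC.Poly (fun p : α × ℕ => gate (K p.1) (g p.1) p.2) :=
    poly_gate (K := fun p : α × ℕ => K p.1) (i := fun p : α × ℕ => p.2)
      (g := fun p : α × ℕ => g p.1) (hK.toPoly.comp (NPC.Poly.fst NPC.Poly.id))
      (hg.comp (f := fun p : (α × ℕ) × ℕ => (p.1.1, p.2)) (by fun_prop)) (by fun_prop)
  unfold sysT
  refine NPC.Poly.flatMap (l := fun a => List.range (vb (K a) + 2 * K a))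
    (F := fun a i => if (gate (K a) (g a) i).1 = 1 then
      [(i, (gate (K a) (g a) i).2.1, (gate (K a) (g a) i).2.2)] else []) h1 ?_
  fun_prop

theorem upoly_row {K i : α → ℕ} (hK : UPoly K) (hi : NPC.Poly i) :
    UPoly (fun a => (i a - 1) % ll (K a) / (K a + 5)) := by
  have hK' := hK.toPoly
  have hL : NPC.Poly (fun a => ll (K a)) := by
    unfold ll
    fun_prop
  refine UPoly.of_le (by fun_prop) (hK.add (UPoly.const 6)) fun a => ?_
  have h1 : 0 < ll (K a) := by unfold ll; positivity
  have h2 : (i a - 1) % ll (K a) < (K a + 6) * (K a + 5) := Nat.mod_lt _ h1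
  have h3 := (Nat.div_lt_iff_lt_mul (by omega : 0 < K a + 5)).2 h2
  omega

theorem poly_mask {K n u d : α → ℕ} (hK : UPoly K) (hn : NPC.Poly n) (hu : UPoly u)
    (hd : NPC.Poly d) : NPC.Poly (fun a => mask (K a) (n a) (u a) (d a)) := by
  have hK' := hK.toPoly
  have hu' := hu.toPoly
  have h1 : UPoly (fun a => u a - d a) :=
    UPoly.of_le (by fun_prop) hu fun a => Nat.sub_le _ _
  have h2 : UPoly (fun a => sg (K a) (n a)) :=
    UPoly.of_le (by unfold sg; fun_prop) (hK.add (UPoly.const 2)) fun a => Nat.sub_le _ _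
  have h3 : UPoly (fun a => sg (K a) (n a) - d a) :=
    UPoly.of_le (h2.toPoly.sub hd) h2 fun a => Nat.sub_le _ _
  have p1 := poly_two_pow h1
  have p2 := poly_two_pow h2
  have p3 := poly_two_pow h3
  have p4 := poly_two_pow hu
  have p5 := poly_two_pow (hK.add (UPoly.const 4))
  unfold mask
  fun_prop

theorem poly_cc {K n : α → ℕ} (hK : UPoly K) (hn : NPC.Poly n) :
    NPC.Poly (fun a => cc (K a) (n a)) := by
  have hK' := hK.toPoly
  have h2 : UPoly (fun a => sg (K a) (n a)) :=
    UPoly.of_le (by unfold sg; fun_prop) (hK.add (UPoly.const 2)) fun a => Nat.sub_le _ _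
  have p2 := poly_two_pow h2
  have p5 := poly_two_pow (hK.add (UPoly.const 4))
  unfold cc bb
  fun_prop

theorem poly_ini {K i : α → ℕ} {g : α → ℕ → ℕ × ℕ × ℕ} {inp : α → ℕ → Bool} (hK : UPoly K)
    (hg : NPC.Poly (fun p : α × ℕ => g p.1 p.2))
    (hinp : NPC.Poly (fun p : α × ℕ => inp p.1 p.2)) (hi : NPC.Poly i) :
    NPC.Poly (fun a => ini (K a) (g a) (inp a) (i a)) := by
  have hK' := hK.toPoly
  have hL : NPC.Poly (fun a => ll (K a)) := by
    unfold ll
    fun_prop
  have hV : NPC.Poly (fun a => vb (K a)) := by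
    unfold vb
    fun_prop
  have h1 : NPC.Poly (fun a => g a ((i a - vb (K a)) / 2)) :=
    hg.comp (f := fun a => (a, (i a - vb (K a)) / 2)) (by fun_prop)
  have h2 : NPC.Poly (fun a => inp a ((i a - vb (K a)) / 2)) :=
    hinp.comp (f := fun a => (a, (i a - vb (K a)) / 2)) (by fun_prop)
  have h3 : NPC.Poly (fun a => mask (K a) ((i a - 1) / ll (K a))
      ((i a - 1) % ll (K a) / (K a + 5)) ((i a - 1) % ll (K a) % (K a + 5))) :=
    poly_mask hK (by fun_prop) (upoly_row hK hi) (by fun_prop)
  have h4 : NPC.Poly (fun a => cc (K a) ((i a - 1) / ll (K a))) := poly_cc hK (by fun_prop)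
  have h5 := poly_sup h3 h4
  unfold ini
  fun_prop

theorem poly_iniL {K : α → ℕ} {g : α → ℕ → ℕ × ℕ × ℕ} {inp : α → ℕ → Bool} (hK : UPoly K)
    (hg : NPC.Poly (fun p : α × ℕ => g p.1 p.2))
    (hinp : NPC.Poly (fun p : α × ℕ => inp p.1 p.2)) :
    NPC.Poly (fun a => iniL (K a) (g a) (inp a)) := by
  have h1 : NPC.Poly (fun a => List.range (vb (K a) + 2 * K a)) :=
    ((upoly_vb hK).add ((UPoly.const 2).mul hK)).range
  refine NPC.Poly.filter (l := fun a => List.range (vb (K a) + 2 * K a))
    (p := fun a i => ini (K a) (g a) (inp a) i) h1 ?_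
  exact poly_ini (K := fun p : α × ℕ => K p.1) (i := fun p : α × ℕ => p.2)
    (g := fun p : α × ℕ => g p.1) (inp := fun p : α × ℕ => inp p.1)
    (hK.comp (NPC.Poly.fst NPC.Poly.id))
    (hg.comp (f := fun p : (α × ℕ) × ℕ => (p.1.1, p.2)) (by fun_prop))
    (hinp.comp (f := fun p : (α × ℕ) × ℕ => (p.1.1, p.2)) (by fun_prop)) (by fun_prop)

theorem poly_Su {N : α → ℕ} (hN : UPoly N) : NPC.Poly (fun a => Su (N a)) :=
  poly_sysT (upoly_uK hN)
    (poly_uprog.comp (f := fun p : α × ℕ => (N p.1, p.2))
      ((hN.toPoly.comp (NPC.Poly.fst NPC.Poly.id)).pair (NPC.Poly.snd NPC.Poly.id)))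

theorem upoly_eu {N : α → ℕ} (hN : UPoly N) : UPoly (fun a => eu (N a)) :=
  ((upoly_uK hN).add (UPoly.const 4)).add ((UPoly.const 2).mul hN)

theorem poly_iu {N : α → ℕ} (hN : UPoly N) : NPC.Poly (fun a => iu (N a)) := by
  have h1 := (upoly_vb (upoly_uK hN)).toPoly
  have h2 := hN.toPoly
  unfold iu xw ub1 ub0
  fun_prop

theorem poly_pad : NPC.Poly pad := by
  have h1 : NPC.Poly (fun Q : QF => List.replicate (Q.2.length + 1) false) :=
    poly_replicate ((UPoly.length (NPC.Poly.snd NPC.Poly.id)).add (UPoly.const 1)) false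
  have h2 : NPC.Poly (fun Q : QF => List.replicate (Q.1.length + 1)
      [((true : Bool), (0 : ℕ)), (false, 0)]) :=
    poly_replicate ((UPoly.length (NPC.Poly.fst NPC.Poly.id)).add (UPoly.const 1)) _
  have h3 : NPC.Poly (fun Q : QF => (Q.1 ++ List.replicate (Q.2.length + 1) false,
      Q.2 ++ List.replicate (Q.1.length + 1) [((true : Bool), (0 : ℕ)), (false, 0)])) := by
    fun_prop
  exact h3

end Poly

/-! ### Completeness -/

/-- The problem for the fixed sequence of systems: the input is a number `n` in unary and the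
start; the question is the coordinate `iu n` after `2 ^ eu n` steps. -/
def UIter (I : List Unit × List ℕ) : Prop :=
  (step (Su I.1.length))^[2 ^ eu I.1.length] (start I.2) (iu I.1.length) = 1

theorem uiter_mem : InPSPACE (lang UIter) := by
  have hI : NPC.Poly (fun x : List Bool => (unbits (List Unit × List ℕ) x).getD ([], [])) :=
    NPC.Poly.optGetD poly_unbits (NPC.Poly.const _)
  have hn : UPoly (fun x : List Bool =>
      ((unbits (List Unit × List ℕ) x).getD ([], [])).1.length) :=
    UPoly.length (NPC.Poly.fst hI)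
  have h1 := poly_Su hn
  have h2 := poly_two_pow (upoly_eu hn)
  have h3 := poly_iu hn
  have h4 : NPC.Poly (fun x : List Bool => (unbits (List Unit × List ℕ) x).isSome) :=
    NPC.Poly.isSome poly_unbits
  refine mem_of (J := fun x => (if (unbits (List Unit × List ℕ) x).isSome = true then
      (Su ((unbits (List Unit × List ℕ) x).getD ([], [])).1.length) else [(0, 0, 0)],
    ((unbits (List Unit × List ℕ) x).getD ([], [])).2,
    2 ^ eu ((unbits (List Unit × List ℕ) x).getD ([], [])).1.length,
    iu ((unbits (List Unit × List ℕ) x).getD ([], [])).1.length)) ?_ fun x => ?_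
  · exact (NPC.Poly.ite (NPC.Poly.decide_bool h4) h1 (NPC.Poly.const _)).pair
      ((NPC.Poly.snd hI).pair (h2.pair h3))
  · rw [mem_lang_iff]
    cases hx : unbits (List Unit × List ℕ) x with
    | none =>
      simp only [reduceCtorEq, false_and, exists_false, false_iff]
      intro h
      have := h.1 (0, 0, 0) (by simp)
      simp at this
    | some a =>
      simp only [Option.some.injEq, exists_eq_left', Option.isSome_some, if_true,
        Option.getD_some]
      unfold UIter QIter
      exact ⟨fun h => ⟨Su_triangular _, h⟩, fun h => h.2⟩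

theorem uiter_hard : PSPACEHard (lang UIter) := by
  intro L hL
  obtain ⟨f, hf, hwf, hf'⟩ := qbf_hard hL
  have hp : NPC.Poly (fun x => pad (f x)) := poly_pad.comp hf
  have hn : UPoly (fun x => (pad (f x)).1.length) := UPoly.length (NPC.Poly.fst hp)
  have h1 : NPC.Poly (fun x => iniL (uK (pad (f x)).1.length) (uprog (pad (f x)).1.length)
      (uinp (pad (f x)))) := by
    refine poly_iniL (upoly_uK hn) ?_ ?_
    · exact poly_uprog.comp (f := fun p : List Bool × ℕ => ((pad (f p.1)).1.length, p.2))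
        ((hn.toPoly.comp (NPC.Poly.fst NPC.Poly.id)).pair (NPC.Poly.snd NPC.Poly.id))
    · exact poly_uinp.comp (f := fun p : List Bool × ℕ => (pad (f p.1), p.2))
        ((hp.comp (NPC.Poly.fst NPC.Poly.id)).pair (NPC.Poly.snd NPC.Poly.id))
  refine ⟨fun x => bits (List.replicate (pad (f x)).1.length (),
    iniL (uK (pad (f x)).1.length) (uprog (pad (f x)).1.length) (uinp (pad (f x)))),
    polyTime_bits (NPC.Poly.pair hn h1), fun x => ?_⟩
  rw [bits_mem_lang]
  unfold UIter
  simp only [List.length_replicate]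
  rw [Su_spec _ (pad_wf (hwf x)) (pad_len _) (pad_pos _), pad_evq (hwf x), hf' x]
  split_ifs with h <;> simp [h]

/-- The sequence is computable in polynomial time. -/
theorem uniform : PolyTime (fun x : List Bool =>
    bits (Su x.length, List.replicate (eu x.length) (), iu x.length)) := by
  have hn : UPoly (fun x : List Bool => x.length) := UPoly.length NPC.Poly.id
  exact polyTime_bits ((poly_Su hn).pair (NPC.Poly.pair (upoly_eu hn) (poly_iu hn)))

theorem uiter_collapse : (∀ L, InPSPACE L → InP L) ↔ InP (lang UIter) :=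
  ⟨fun h => h _ uiter_mem, fun h _ hL => InP.of_reduces (uiter_hard _ hL) h⟩

end Pool.Agent.V7H82.QI
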