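import Pool.Agent.V7H82.QI.TInv
import Pool.Agent.V7H82.QI.Lev

/-!
# The universal program for quantified formulas with `N` variables and `N` clauses
-/

set_option autoImplicit false

namespace Pool.Agent.V7H82.QI

open Pool.Agent.H656R2.AK Pool.Agent.H623R2.PS

/-- The first line of the clauses. -/
def ub0 (N : ℕ) : ℕ := 5 * N + 3

/-- The first line of the quantifiers. -/
def ub1 (N : ℕ) : ℕ := ub0 N + 10 * (N * N)

/-- The number of lines. -/
def uK (N : ℕ) : ℕ := ub1 N + 13 * N + 1

/-- The line `B + o` of the block for a clause and the variable `v`; `B` is its first line. -/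
def uTok (N B o v : ℕ) : ℕ × ℕ × ℕ :=
  if o = 0 then (0, 0, 0)
  else if o = 1 then (0, 0, 0)
  else if o = 2 then (2, B, 4 * (N - 1 - v) + 1)
  else if o = 3 then (1, B + 2, 0)
  else if o = 4 then (2, B + 1, 4 * N + 2 + v)
  else if o = 5 then (1, B + 4, 0)
  else if o = 6 then (2, B + 3, B + 5)
  else if o = 7 then (2, if v = 0 then 0 else B - 3, B + 6)
  else if o = 8 then (1, B + 7, 0)
  else (2, B - 1, if v + 1 = N then B + 8 else 0)

/-- The line `B + o` of the block for the quantifier of the level `l`; `B` is its first line. -/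
def uLev (l B o : ℕ) : ℕ × ℕ × ℕ :=
  if o = 0 then (3, B - 1, 0)
  else if o = 1 then (1, 4 * l + 3, 0)
  else if o = 2 then (2, B - 1, B + 1)
  else if o = 3 then (2, 4 * l + 1, B)
  else if o = 4 then (0, 0, 0)
  else if o = 5 then (1, B + 3, 0)
  else if o = 6 then (2, B + 4, B + 5)
  else if o = 7 then (1, B + 6, 0)
  else if o = 8 then (1, B + 4, 0)
  else if o = 9 then (2, B + 8, B + 3)
  else if o = 10 then (1, B + 9, 0)
  else if o = 11 then (2, B + 7, B + 10)
  else (2, B + 2, B + 11)

/-- The universal program. -/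
def uprog (N n : ℕ) : ℕ × ℕ × ℕ :=
  if n = 0 then (0, 0, 0)
  else if n < 4 * N + 2 then (if n % 2 = 1 then (3, n - 1, 0) else (2, n - 2, n - 1))
  else if n < 5 * N + 2 then (1, 4 * (N - 1 - (n - (4 * N + 2))) + 1, 0)
  else if n < ub0 N then (0, 0, 0)
  else if n < ub1 N then
    uTok N (n - (n - ub0 N) % 10) ((n - ub0 N) % 10) ((n - ub0 N) / 10 % N)
  else uLev ((n - ub1 N) / 13) (n - (n - ub1 N) % 13) ((n - ub1 N) % 13)

/-- The data of a formula. -/
def uinp (Q : QF) (n : ℕ) : Bool :=
  if n < ub0 Q.1.length then true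
  else if n < ub1 Q.1.length then
    decide ((decide ((n - ub0 Q.1.length) % 10 = 0), (n - ub0 Q.1.length) / 10 % Q.1.length) ∈
      Q.2.getD ((n - ub0 Q.1.length) / 10 / Q.1.length) [])
  else Q.1.getD (Q.1.length - 1 - (n - ub1 Q.1.length) / 13) false

theorem uTok_ok {N B o v : ℕ} (hv : v < N) (hB : 5 * N + 3 ≤ B) (ho : o < 10) (n : ℕ)
    (hn : n = B + o) : (uTok N B o v).1 ≠ 0 →
      (uTok N B o v).2.1 < n ∧ (uTok N B o v).2.2 < n := by
  subst hn
  unfold uTok
  interval_cases o <;> simp <;> (try split_ifs) <;> omega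

theorem uLev_ok {N l B o : ℕ} (hB : 5 * N + 3 ≤ B) (hl : l < N ∨ (l = N ∧ o = 0)) (ho : o < 13)
    (n : ℕ) (hn : n = B + o) : (uLev l B o).1 ≠ 0 →
      (uLev l B o).2.1 < n ∧ (uLev l B o).2.2 < n := by
  subst hn
  unfold uLev
  interval_cases o <;> simp <;> omega

theorem uprog_ok (N : ℕ) : ∀ n < uK N, Ok (uprog N) n := by
  intro n hn
  have h0 : ub0 N = 5 * N + 3 := rfl
  have h1 : ub1 N = ub0 N + 10 * (N * N) := rfl
  have h2 : uK N = ub1 N + 13 * N + 1 := rfl
  unfold Ok uprog
  by_cases c0 : n = 0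
  · rw [if_pos c0]
    intro h
    exact absurd rfl h
  rw [if_neg c0]
  by_cases c1 : n < 4 * N + 2
  · rw [if_pos c1]
    by_cases c2 : n % 2 = 1
    · rw [if_pos c2]
      intro _
      constructor <;> simp only <;> omega
    · rw [if_neg c2]
      intro _
      constructor <;> simp only <;> omega
  rw [if_neg c1]
  by_cases c2 : n < 5 * N + 2
  · rw [if_pos c2]
    intro _
    constructor <;> simp only <;> omega
  rw [if_neg c2]
  by_cases c3 : n < ub0 N
  · rw [if_pos c3]
    intro h
    exact absurd rfl h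
  rw [if_neg c3]
  by_cases c4 : n < ub1 N
  · rw [if_pos c4]
    have hN : 0 < N := by
      rcases Nat.eq_zero_or_pos N with h | h
      · subst h
        omega
      · exact h
    exact uTok_ok (Nat.mod_lt _ hN) (by omega) (Nat.mod_lt _ (by omega)) _ (by omega)
  · rw [if_neg c4]
    exact uLev_ok (N := N) (by omega) (by omega) (Nat.mod_lt _ (by omega)) _ (by omega)

/-! ### The lines -/

section Lines

variable (N : ℕ)

theorem uprog_zero : uprog N 0 = (0, 0, 0) := rfl

theorem uprog_odd {i : ℕ} (hi : i ≤ 2 * N) : uprog N (2 * i + 1) = (3, 2 * i, 0) := by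
  unfold uprog
  rw [if_neg (by omega), if_pos (by omega), if_pos (by omega)]
  rfl

theorem uprog_even {i : ℕ} (hi : i < 2 * N) :
    uprog N (2 * (i + 1)) = (2, 2 * i, 2 * i + 1) := by
  unfold uprog
  rw [if_neg (by omega), if_pos (by omega), if_neg (by omega),
    show 2 * (i + 1) - 2 = 2 * i by omega, show 2 * (i + 1) - 1 = 2 * i + 1 by omega]

theorem uprog_neg {v : ℕ} (hv : v < N) :
    uprog N (4 * N + 2 + v) = (1, 4 * (N - 1 - v) + 1, 0) := by
  unfold uprog
  rw [if_neg (by omega), if_neg (by omega), if_pos (by omega),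
    show 4 * N + 2 + v - (4 * N + 2) = v by omega]

theorem uprog_one : uprog N (5 * N + 2) = (0, 0, 0) := by
  have h0 : ub0 N = 5 * N + 3 := rfl
  unfold uprog
  rw [if_neg (by omega), if_neg (by omega), if_neg (by omega), if_pos (by omega)]

theorem uprog_tok {k o : ℕ} (hk : k < N * N) (ho : o < 10) :
    uprog N (ub0 N + 10 * k + o) = uTok N (ub0 N + 10 * k) o (k % N) := by
  have h0 : ub0 N = 5 * N + 3 := rfl
  have h1 : ub1 N = ub0 N + 10 * (N * N) := rfl
  unfold uprog
  rw [if_neg (by omega), if_neg (by omega), if_neg (by omega), if_neg (by omega),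
    if_pos (by omega), show (ub0 N + 10 * k + o - ub0 N) % 10 = o by omega,
    show (ub0 N + 10 * k + o - ub0 N) / 10 = k by omega,
    show ub0 N + 10 * k + o - o = ub0 N + 10 * k by omega]

theorem uprog_lev {l o : ℕ} (ho : o < 13) :
    uprog N (ub1 N + 13 * l + o) = uLev l (ub1 N + 13 * l) o := by
  have h0 : ub0 N = 5 * N + 3 := rfl
  have h1 : ub1 N = ub0 N + 10 * (N * N) := rfl
  unfold uprog
  rw [if_neg (by omega), if_neg (by omega), if_neg (by omega), if_neg (by omega),
    if_neg (by omega), show (ub1 N + 13 * l + o - ub1 N) % 13 = o by omega,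
    show (ub1 N + 13 * l + o - ub1 N) / 13 = l by omega,
    show ub1 N + 13 * l + o - o = ub1 N + 13 * l by omega]

end Lines

/-! ### The bits of the time -/

section Bits

variable {N : ℕ} {inp : ℕ → Bool} (h0 : inp 0 = true)

include h0

theorem tv_bits {i : ℕ} (hi : i ≤ 2 * N) :
    (∀ t, tv (uprog N) inp (2 * i) t = if t % 2 ^ i = 2 ^ i - 1 then 1 else 0) ∧
    ∀ t, tv (uprog N) inp (2 * i + 1) t = ((t / 2 ^ i : ℕ) : ZMod 2) := by
  have hok := uprog_ok N
  have hnl : uK N = 5 * N + 3 + 10 * (N * N) + 13 * N + 1 := rfl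
  have key : ∀ i ≤ 2 * N,
      (∀ t, tv (uprog N) inp (2 * i) t = if t % 2 ^ i = 2 ^ i - 1 then 1 else 0) →
      ∀ t, tv (uprog N) inp (2 * i + 1) t = ((t / 2 ^ i : ℕ) : ZMod 2) := by
    intro i hi h t
    have hp := uprog_odd N hi
    rw [tv_int (by rw [hp]) (hok _ (by omega)), hp]
    simp only [h]
    exact sum_div _ _ (by positivity)
  induction i with
  | zero =>
    have h1 : ∀ t, tv (uprog N) inp (2 * 0) t = if t % 2 ^ 0 = 2 ^ 0 - 1 then 1 else 0 := by
      intro t
      rw [mul_zero, tv_data (by rw [uprog_zero]), if_pos h0, if_pos (by simp [Nat.mod_one])]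
    exact ⟨h1, key 0 hi h1⟩
  | succ i ih =>
    obtain ⟨e1, e2⟩ := ih (by omega)
    have hp := uprog_even N (i := i) (by omega)
    have h1 : ∀ t, tv (uprog N) inp (2 * (i + 1)) t =
        if t % 2 ^ (i + 1) = 2 ^ (i + 1) - 1 then 1 else 0 := by
      intro t
      rw [tv_mul (by rw [hp]) (hok _ (by omega)), hp]
      simp only [e1, e2]
      have h3 : t % 2 ^ (i + 1) = t % 2 ^ i + 2 ^ i * (t / 2 ^ i % 2) := by
        rw [pow_succ, Nat.mod_mul]
      have h4 : t % 2 ^ i < 2 ^ i := Nat.mod_lt _ (by positivity)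
      have h5 : ((t / 2 ^ i : ℕ) : ZMod 2) = ((t / 2 ^ i % 2 : ℕ) : ZMod 2) := by
        rw [ZMod.natCast_mod]
      rw [h5, h3, pow_succ]
      generalize t % 2 ^ i = a at h4 ⊢
      have h6 : t / 2 ^ i % 2 = 0 ∨ t / 2 ^ i % 2 = 1 := by omega
      generalize t / 2 ^ i % 2 = c at h6 ⊢
      generalize 2 ^ i = L at h4 ⊢
      rcases h6 with rfl | rfl
      · rw [if_neg (by omega : ¬ a + L * 0 = L * 2 - 1)]
        simp
      · by_cases h7 : a = L - 1
        · rw [if_pos h7, if_pos (by omega)]
          simp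
        · rw [if_neg h7, if_neg (by omega)]
          simp
    exact ⟨h1, key _ hi h1⟩

/-- The line of the bit `i` of the time. -/
theorem tv_bit {i : ℕ} (hi : i ≤ 2 * N) (t : ℕ) :
    tv (uprog N) inp (2 * i + 1) t = toZ (t.testBit i) := by
  rw [(tv_bits h0 hi).2 t, ← ZMod.natCast_mod]
  have h := Nat.testBit_eq_decide_div_mod_eq (x := t) (i := i)
  unfold toZ
  by_cases h1 : t / 2 ^ i % 2 = 1
  · rw [h1, if_pos (by rw [h]; simpa using h1)]
    simp
  · rw [show t / 2 ^ i % 2 = 0 by omega, if_neg (by rw [h]; simpa using h1)]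
    simp

/-- The line of the negated variable `v`. -/
theorem tv_neg {v : ℕ} (hv : v < N) (t : ℕ) :
    tv (uprog N) inp (4 * N + 2 + v) t = toZ (!t.testBit (2 * (N - 1 - v))) := by
  have hnl : uK N = 5 * N + 3 + 10 * (N * N) + 13 * N + 1 := rfl
  have hp := uprog_neg N hv
  have hbit := tv_bit h0 (N := N) (i := 2 * (N - 1 - v)) (by omega) t
  rw [show 2 * (2 * (N - 1 - v)) + 1 = 4 * (N - 1 - v) + 1 by ring] at hbit
  rw [tv_not (by rw [hp]) (uprog_ok N _ (by omega)), hp, hbit, toZ_not, add_comm]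

end Bits

/-! ### The clauses -/

section Clauses

variable (Q : QF) (t : ℕ)

/-- The literals of the variable `v` in the clause `c` are false. -/
def litf (c v : ℕ) : Bool :=
  !(decide ((true, v) ∈ Q.2.getD c []) && t.testBit (2 * (Q.1.length - 1 - v))) &&
    !(decide ((false, v) ∈ Q.2.getD c []) && !t.testBit (2 * (Q.1.length - 1 - v)))

/-- The first `c` clauses are true. -/
def Dv (c : ℕ) : Bool :=
  (List.range c).all fun c' => !((List.range Q.1.length).all (litf Q t c'))

theorem uinp_zero : uinp Q 0 = true := by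
  unfold uinp ub0
  rw [if_pos (by omega)]

theorem toZ_one_add (b : Bool) : 1 + toZ b = toZ (!b) := by
  rw [toZ_not, add_comm]

theorem tv_tok {k : ℕ} (hN : 0 < Q.1.length) (hk : k < Q.1.length * Q.1.length) :
    tv (uprog Q.1.length) (uinp Q) (ub0 Q.1.length + 10 * k + 6) t =
      toZ (litf Q t (k / Q.1.length) (k % Q.1.length)) := by
  have hok := uprog_ok Q.1.length
  have hb : ub0 Q.1.length = 5 * Q.1.length + 3 := rfl
  have hb1 : ub1 Q.1.length = ub0 Q.1.length + 10 * (Q.1.length * Q.1.length) := rfl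
  have hnl : uK Q.1.length = ub1 Q.1.length + 13 * Q.1.length + 1 := rfl
  have h0 := uinp_zero Q
  have hv := Nat.mod_lt k hN
  have hbit := tv_bit h0 (N := Q.1.length) (i := 2 * (Q.1.length - 1 - k % Q.1.length))
    (by omega) t
  rw [show 2 * (2 * (Q.1.length - 1 - k % Q.1.length)) + 1 =
    4 * (Q.1.length - 1 - k % Q.1.length) + 1 by ring] at hbit
  have hneg := tv_neg h0 hv t
  have p0 := uprog_tok Q.1.length (k := k) (o := 0) hk (by omega)
  have p1 := uprog_tok Q.1.length (k := k) (o := 1) hk (by omega)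
  have p2 := uprog_tok Q.1.length (k := k) (o := 2) hk (by omega)
  have p3 := uprog_tok Q.1.length (k := k) (o := 3) hk (by omega)
  have p4 := uprog_tok Q.1.length (k := k) (o := 4) hk (by omega)
  have p5 := uprog_tok Q.1.length (k := k) (o := 5) hk (by omega)
  have p6 := uprog_tok Q.1.length (k := k) (o := 6) hk (by omega)
  have i0 : uinp Q (ub0 Q.1.length + 10 * k) =
      decide ((true, k % Q.1.length) ∈ Q.2.getD (k / Q.1.length) []) := by
    unfold uinp
    rw [if_neg (by omega), if_pos (by omega),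
      show (ub0 Q.1.length + 10 * k - ub0 Q.1.length) % 10 = 0 by omega,
      show (ub0 Q.1.length + 10 * k - ub0 Q.1.length) / 10 = k by omega]
    rfl
  have i1 : uinp Q (ub0 Q.1.length + 10 * k + 1) =
      decide ((false, k % Q.1.length) ∈ Q.2.getD (k / Q.1.length) []) := by
    unfold uinp
    rw [if_neg (by omega), if_pos (by omega),
      show (ub0 Q.1.length + 10 * k + 1 - ub0 Q.1.length) % 10 = 1 by omega,
      show (ub0 Q.1.length + 10 * k + 1 - ub0 Q.1.length) / 10 = k by omega]
    rfl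
  rw [add_zero] at p0
  obtain ⟨B, hB⟩ : ∃ B, B = ub0 Q.1.length + 10 * k := ⟨_, rfl⟩
  rw [← hB] at p0 p1 p2 p3 p4 p5 p6 i0 i1 ⊢
  simp only [uTok, if_true, if_false, OfNat.ofNat_ne_zero, OfNat.ofNat_ne_one,
    one_ne_zero, Nat.reduceEqDiff] at p0 p1 p2 p3 p4 p5 p6
  have e0 : tv (uprog Q.1.length) (uinp Q) B t =
      toZ (decide ((true, k % Q.1.length) ∈ Q.2.getD (k / Q.1.length) [])) := by
    rw [tv_data (by rw [p0]), i0]
    rfl
  have e1 : tv (uprog Q.1.length) (uinp Q) (B + 1) t =
      toZ (decide ((false, k % Q.1.length) ∈ Q.2.getD (k / Q.1.length) [])) := by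
    rw [tv_data (by rw [p1]), i1]
    rfl
  have e2 : tv (uprog Q.1.length) (uinp Q) (B + 2) t =
      toZ (decide ((true, k % Q.1.length) ∈ Q.2.getD (k / Q.1.length) []) &&
        t.testBit (2 * (Q.1.length - 1 - k % Q.1.length))) := by
    rw [tv_mul (by rw [p2]) (hok _ (by omega)), p2]
    simp only
    rw [e0, hbit, ← toZ_and]
  have e3 : tv (uprog Q.1.length) (uinp Q) (B + 3) t =
      toZ !(decide ((true, k % Q.1.length) ∈ Q.2.getD (k / Q.1.length) []) &&
        t.testBit (2 * (Q.1.length - 1 - k % Q.1.length))) := by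
    rw [tv_not (by rw [p3]) (hok _ (by omega)), p3]
    simp only
    rw [e2, toZ_one_add]
  have e4 : tv (uprog Q.1.length) (uinp Q) (B + 4) t =
      toZ (decide ((false, k % Q.1.length) ∈ Q.2.getD (k / Q.1.length) []) &&
        !t.testBit (2 * (Q.1.length - 1 - k % Q.1.length))) := by
    rw [tv_mul (by rw [p4]) (hok _ (by omega)), p4]
    simp only
    rw [e1, hneg, ← toZ_and]
  have e5 : tv (uprog Q.1.length) (uinp Q) (B + 5) t =
      toZ !(decide ((false, k % Q.1.length) ∈ Q.2.getD (k / Q.1.length) []) &&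
        !t.testBit (2 * (Q.1.length - 1 - k % Q.1.length))) := by
    rw [tv_not (by rw [p5]) (hok _ (by omega)), p5]
    simp only
    rw [e4, toZ_one_add]
  rw [tv_mul (by rw [p6]) (hok _ (by omega)), p6]
  simp only
  rw [e3, e5, ← toZ_and]
  rfl

theorem tv_clauses (hN : 0 < Q.1.length) : ∀ k ≤ Q.1.length * Q.1.length,
    tv (uprog Q.1.length) (uinp Q) (ub0 Q.1.length + 10 * k - 1) t = toZ (Dv Q t (k / Q.1.length)) ∧
    (k % Q.1.length ≠ 0 → tv (uprog Q.1.length) (uinp Q) (ub0 Q.1.length + 10 * k - 3) t =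
      toZ ((List.range (k % Q.1.length)).all (litf Q t (k / Q.1.length)))) := by
  have hok := uprog_ok Q.1.length
  have hb : ub0 Q.1.length = 5 * Q.1.length + 3 := rfl
  have hb1 : ub1 Q.1.length = ub0 Q.1.length + 10 * (Q.1.length * Q.1.length) := rfl
  have hnl : uK Q.1.length = ub1 Q.1.length + 13 * Q.1.length + 1 := rfl
  have h0 := uinp_zero Q
  have h1 : tv (uprog Q.1.length) (uinp Q) 0 t = 1 := by
    rw [tv_data (by rw [uprog_zero]), if_pos h0]
  intro k
  induction k with
  | zero =>
    intro _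
    refine ⟨?_, fun h => absurd (Nat.zero_mod _) h⟩
    rw [mul_zero, add_zero, show ub0 Q.1.length - 1 = 5 * Q.1.length + 2 by omega,
      tv_data (by rw [uprog_one]), if_pos, Nat.zero_div]
    · simp [Dv, toZ]
    · unfold uinp
      rw [if_pos (by omega)]
  | succ k ih =>
    intro hk
    obtain ⟨eD, eA⟩ := ih (by omega)
    have hv := Nat.mod_lt k hN
    have h6 := tv_tok Q t hN (k := k) (by omega)
    have p7 := uprog_tok Q.1.length (k := k) (o := 7) (by omega) (by omega)
    have p8 := uprog_tok Q.1.length (k := k) (o := 8) (by omega) (by omega)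
    have p9 := uprog_tok Q.1.length (k := k) (o := 9) (by omega) (by omega)
    have hB1 : ub0 Q.1.length + 10 * (k + 1) - 1 = ub0 Q.1.length + 10 * k + 9 := by omega
    have hB3 : ub0 Q.1.length + 10 * (k + 1) - 3 = ub0 Q.1.length + 10 * k + 7 := by omega
    have hBp : 5 * Q.1.length + 3 ≤ ub0 Q.1.length + 10 * k := by omega
    rw [hB1, hB3]
    obtain ⟨B, hB⟩ : ∃ B, B = ub0 Q.1.length + 10 * k := ⟨_, rfl⟩
    rw [← hB] at p7 p8 p9 h6 eD eA hBp ⊢
    have hBK : B + 10 ≤ uK Q.1.length := by omega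
    simp only [uTok, if_true, if_false, OfNat.ofNat_ne_zero, OfNat.ofNat_ne_one,
      Nat.reduceEqDiff] at p7 p8 p9
    have e7 : tv (uprog Q.1.length) (uinp Q) (B + 7) t =
        toZ ((List.range (k % Q.1.length + 1)).all (litf Q t (k / Q.1.length))) := by
      rw [tv_mul (by rw [p7]) (hok _ (by omega)), p7]
      simp only
      rw [h6, List.range_succ, List.all_append]
      by_cases hv0 : k % Q.1.length = 0
      · rw [if_pos hv0, h1, one_mul, hv0]
        simp
      · rw [if_neg hv0, eA hv0, ← toZ_and]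
        simp
    have e8 : tv (uprog Q.1.length) (uinp Q) (B + 8) t =
        toZ (!(List.range (k % Q.1.length + 1)).all (litf Q t (k / Q.1.length))) := by
      rw [tv_not (by rw [p8]) (hok _ (by omega)), p8]
      simp only
      rw [e7, toZ_one_add]
    have e9 : tv (uprog Q.1.length) (uinp Q) (B + 9) t = toZ (Dv Q t (k / Q.1.length)) *
        tv (uprog Q.1.length) (uinp Q) (if k % Q.1.length + 1 = Q.1.length then B + 8 else 0) t := by
      rw [tv_mul (by rw [p9]) (hok _ (by omega)), p9]
      simp only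
      rw [eD]
    have hdm := Nat.div_add_mod k Q.1.length
    by_cases hv1 : k % Q.1.length + 1 = Q.1.length
    · have hd : (k + 1) / Q.1.length = k / Q.1.length + 1 := by
        rw [Nat.succ_div, if_pos]
        rw [Nat.dvd_iff_mod_eq_zero, ← Nat.mod_add_mod, hv1, Nat.mod_self]
      have hm : (k + 1) % Q.1.length = 0 := by
        rw [← Nat.mod_add_mod, hv1, Nat.mod_self]
      rw [hd, hm]
      refine ⟨?_, fun h => absurd rfl h⟩
      rw [e9, if_pos hv1, e8, ← toZ_and, hv1]
      unfold Dv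
      rw [List.range_succ, List.all_append]
      simp
    · have hm : (k + 1) % Q.1.length = k % Q.1.length + 1 := by
        rw [← Nat.mod_add_mod, Nat.mod_eq_of_lt (by omega)]
      have hd : (k + 1) / Q.1.length = k / Q.1.length := by
        rw [Nat.succ_div, if_neg, add_zero]
        rw [Nat.dvd_iff_mod_eq_zero, hm]
        omega
      rw [hd, hm]
      refine ⟨?_, fun _ => e7⟩
      rw [e9, if_neg hv1, h1, mul_one]

theorem Dv_eq (hwf : QFwf Q) (hl : Q.2.length = Q.1.length) :
    Dv Q t Q.1.length = evc (asg Q.1.length t) Q.2 := by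
  rw [Bool.eq_iff_iff]
  unfold Dv evc
  rw [List.all_eq_true, List.all_eq_true]
  constructor
  · intro h c hc
    obtain ⟨i, hi, rfl⟩ := List.mem_iff_getElem.1 hc
    have h1 := h i (List.mem_range.2 (by omega))
    rw [Bool.not_eq_true', ← Bool.not_eq_true, List.all_eq_true] at h1
    push Not at h1
    obtain ⟨v, hv, h2⟩ := h1
    have hv := List.mem_range.1 hv
    rw [List.any_eq_true]
    unfold litf at h2
    rw [List.getD_eq_getElem _ _ hi] at h2
    by_cases hb : t.testBit (2 * (Q.1.length - 1 - v)) = true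
    · rw [hb] at h2
      simp only [Bool.and_true, Bool.not_true, Bool.and_false, Bool.not_false, ne_eq,
        Bool.not_eq_true, Bool.not_eq_false', decide_eq_true_eq] at h2
      exact ⟨_, h2, by rw [asg_getD hv, hb]; rfl⟩
    · rw [Bool.not_eq_true] at hb
      rw [hb] at h2
      simp only [Bool.and_true, Bool.and_false, Bool.not_false, ne_eq,
        Bool.true_and, Bool.not_eq_true, Bool.not_eq_false', decide_eq_true_eq] at h2
      exact ⟨_, h2, by rw [asg_getD hv, hb]; rfl⟩
  · intro h i hi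
    have hi := List.mem_range.1 hi
    have hi2 : i < Q.2.length := by omega
    have h1 := h _ (List.getElem_mem hi2)
    rw [List.any_eq_true] at h1
    obtain ⟨⟨b, v⟩, hm, hv⟩ := h1
    have hvl : v < Q.1.length := hwf _ (List.getElem_mem hi2) _ hm
    simp only at hv
    rw [asg_getD hvl, beq_iff_eq] at hv
    rw [Bool.not_eq_true', ← Bool.not_eq_true, List.all_eq_true]
    intro h3
    have h4 := h3 v (List.mem_range.2 hvl)
    unfold litf at h4
    rw [List.getD_eq_getElem _ _ hi2, hv] at h4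
    cases b <;> simp [hm] at h4

end Clauses

end Pool.Agent.V7H82.QI
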